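import Pool.Agent.Helper111.CTAlg

set_option autoImplicit false

namespace Pool.Agent.Helper866.Out

open Equiv Pool.Agent.Helper111.CT Pool.Agent.Helper111.Recon

/-- all moduli are allowed -/
abbrev Tr : ℤ → Prop := fun _ => True

theorem adm_Tr : Adm Tr := ⟨trivial, trivial, fun _ _ _ _ => trivial⟩

theorem G3 {r₁ n₁ r₂ n₂ : ℤ} (h1 : 0 ≤ r₁) (h2 : r₁ < 3 * n₁) (h3 : 0 ≤ r₂) (h4 : r₂ < 3 * n₂) :
    ∃ g ∈ CTg Tr, ∀ k : ℤ, g (r₁ + 3 * n₁ * k) = r₂ + 3 * n₂ * k := by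
  obtain ⟨j, hj0, hj3, hj1, hj2⟩ : ∃ j : ℤ, 0 ≤ j ∧ j < 3 ∧ ¬ (3 : ℤ) ∣ j - r₁ ∧ ¬ (3 : ℤ) ∣ j - r₂ := by
    by_cases a0 : ¬ (3 : ℤ) ∣ 0 - r₁ ∧ ¬ (3 : ℤ) ∣ 0 - r₂
    · exact ⟨0, by norm_num, by norm_num, a0⟩
    by_cases a1 : ¬ (3 : ℤ) ∣ 1 - r₁ ∧ ¬ (3 : ℤ) ∣ 1 - r₂
    · exact ⟨1, by norm_num, by norm_num, a1⟩
    refine ⟨2, by norm_num, by norm_num, ?_⟩
    omega
  have hd1 : ∀ n : ℤ, ¬ ((3 * n₁) ∣ n - r₁ ∧ (3 : ℤ) ∣ n - j) := by
    rintro n ⟨hn1, hn2⟩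
    have hn1' : (3 : ℤ) ∣ n - r₁ := dvd_trans (Dvd.intro _ rfl) hn1
    apply hj1
    have := dvd_sub hn1' hn2
    rwa [show n - r₁ - (n - j) = j - r₁ by ring] at this
  have hd2 : ∀ n : ℤ, ¬ ((3 : ℤ) ∣ n - j ∧ (3 * n₂) ∣ n - r₂) := by
    rintro n ⟨hn2, hn1⟩
    have hn1' : (3 : ℤ) ∣ n - r₂ := dvd_trans (Dvd.intro _ rfl) hn1
    apply hj2
    have := dvd_sub hn1' hn2
    rwa [show n - r₂ - (n - j) = j - r₂ by ring] at this
  obtain ⟨τ, t1, t2⟩ := exists_ct r₁ (3 * n₁) j 3 (by linarith) (by norm_num) hd1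
  obtain ⟨ρ, s1, s2⟩ := exists_ct j 3 r₂ (3 * n₂) (by norm_num) (by linarith) hd2
  have hτ : τ ∈ CTg Tr := mem_of_isCT ⟨r₁, 3 * n₁, j, 3, h1, h2, hj0, hj3, trivial, trivial,
    hd1, t1, t2⟩
  have hρ : ρ ∈ CTg Tr := mem_of_isCT ⟨j, 3, r₂, 3 * n₂, hj0, hj3, h3, h4, trivial, trivial,
    hd2, s1, s2⟩
  refine ⟨ρ * τ, Subgroup.mul_mem _ hρ hτ, fun k => ?_⟩
  rw [Perm.mul_apply, (t1 k).1, (s1 k).1]

/-- an element fixing `x` which is nontrivial near `x` -/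
theorem exists_local (x : ℤ) : ∃ g ∈ CTg Tr, g x = x ∧
    ∀ a ∈ PB Tr, x ∈ a → ∃ z ∈ a, g z ≠ z := by
  obtain ⟨M, hM, e, he⟩ : ∃ M : ℤ, 0 < M ∧ ∃ e : ℤ, 0 ≤ x + 3 * M * e ∧ x + 3 * M * e < 3 * M ∧
      0 ≤ x + 6 * M * e ∧ x + 6 * M * e < 6 * M := by
    by_cases hx : 0 ≤ x
    · exact ⟨x + 1, by linarith, 0, by linarith, by linarith, by linarith, by linarith⟩
    · push Not at hx
      exact ⟨-x, by linarith, 1, by linarith, by linarith, by linarith, by linarith⟩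
  obtain ⟨g, hg, h⟩ := G3 (r₁ := x + 3 * M * e) (n₁ := M) (r₂ := x + 6 * M * e) (n₂ := 2 * M)
    he.1 he.2.1 he.2.2.1 (by linarith [he.2.2.2])
  have h' : ∀ j : ℤ, g (x + 3 * M * j) = x + 6 * M * j := by
    intro j
    have := h (j - e)
    rw [show x + 3 * M * e + 3 * M * (j - e) = x + 3 * M * j by ring,
      show x + 6 * M * e + 3 * (2 * M) * (j - e) = x + 6 * M * j by ring] at this
    exact this
  refine ⟨g, hg, by simpa using h' 0, ?_⟩
  rintro a ⟨P, hP, _, hper⟩ hxa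
  refine ⟨x + 3 * M * P, ?_, ?_⟩
  · rw [show x + 3 * M * P = x + P * (3 * M) by ring, ← per_mul hper]; exact hxa
  · rw [h']
    intro hc
    have : 0 < M * P := by positivity
    nlinarith

theorem cls_mem (s w : ℤ) (hw : 0 < w) : {y : ℤ | w ∣ y - s} ∈ PB Tr := by
  refine ⟨w, hw, trivial, fun x => ?_⟩
  simp only [Set.mem_ofPred_eq]
  rw [show x + w - s = x - s + w by ring]
  simp

theorem rel_ne {Θ : CTg Tr ≃* CTg Tr} {a b : Set ℤ} (h : Rel (PB Tr) (PB Tr) Θ a b) :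
    a.Nonempty ↔ b.Nonempty := by
  rw [Set.nonempty_iff_ne_empty, Set.nonempty_iff_ne_empty, ne_eq, ne_eq, not_iff_not]
  have := Rel.disj_iff (sysCT adm_Tr) (sysCT adm_Tr) h h
  rwa [Set.inter_self, Set.inter_self] at this

/-- automorphisms act on integers -/
theorem point (Θ : CTg Tr ≃* CTg Tr) (x : ℤ) :
    ∃ y : ℤ, ∀ a b : Set ℤ, Rel (PB Tr) (PB Tr) Θ a b → (x ∈ a ↔ y ∈ b) := by
  have S := sysCT adm_Tr
  let F : Set (Set ℤ) := {b | ∃ a, Rel (PB Tr) (PB Tr) Θ a b ∧ x ∈ a}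
  have hF2 : ∀ b ∈ F, ∀ b' ∈ F, (b ∩ b').Nonempty := by
    rintro b ⟨a, hab, ha⟩ b' ⟨a', hab', ha'⟩
    rw [← rel_ne (Rel.inter S S hab hab')]
    exact ⟨x, ha, ha'⟩
  have hdec : ∀ b ∈ PB Tr, b ∈ F ∨ bᶜ ∈ F := by
    intro b hb
    obtain ⟨a, hab⟩ := rel_exists' S S Θ b hb
    by_cases hx : x ∈ a
    · exact Or.inl ⟨a, hab, hx⟩
    · exact Or.inr ⟨aᶜ, Rel.compl S S hab, hx⟩
  have hup : ∀ b ∈ F, ∀ b' ∈ PB Tr, b ⊆ b' → b' ∈ F := by
    intro b hb b' hb' hsub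
    rcases hdec b' hb' with h | h
    · exact h
    · exfalso
      obtain ⟨z, hz1, hz2⟩ := hF2 b hb _ h
      exact hz2 (hsub hz1)
  have hF3 : ∀ w : ℤ, 0 < w → ∃ s : ℤ, 0 ≤ s ∧ s < w ∧ {y : ℤ | w ∣ y - s} ∈ F := by
    intro w hw0
    by_contra hcon
    push Not at hcon
    have key : ∀ n : ℕ, (n : ℤ) ≤ w → ∃ b ∈ F, ∀ s : ℕ, s < n → ∀ y ∈ b, ¬ w ∣ y - s := by
      intro n
      induction n with
      | zero =>
        intro _
        rcases hdec _ (cls_mem 0 w hw0) with h | h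
        · exact ⟨_, h, fun s hs => absurd hs (Nat.not_lt_zero s)⟩
        · exact ⟨_, h, fun s hs => absurd hs (Nat.not_lt_zero s)⟩
      | succ n ih =>
        intro hn
        obtain ⟨b, ⟨a, hab, ha⟩, hb⟩ := ih (by push_cast at hn; linarith)
        have hnF := hcon n (by positivity) (by push_cast at hn; linarith)
        rcases hdec _ (cls_mem n w hw0) with h | ⟨a', hab', ha'⟩
        · exact absurd h hnF
        · refine ⟨_, ⟨_, Rel.inter S S hab hab', ⟨ha, ha'⟩⟩, ?_⟩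
          intro s hs y hy
          rcases Nat.lt_succ_iff_lt_or_eq.1 hs with h | h
          · exact hb s h y hy.1
          · subst h
            exact hy.2
    obtain ⟨b, hbF, hb⟩ := key w.toNat (by omega)
    obtain ⟨y, hy, _⟩ := hF2 b hbF b hbF
    have h1 := Int.emod_nonneg y hw0.ne'
    have h2 := Int.emod_lt_of_pos y hw0
    apply hb (y % w).toNat (by omega) y hy
    rw [Int.toNat_of_nonneg h1]
    exact Int.dvd_self_sub_emod
  obtain ⟨g, hg, hgx, hgl⟩ := exists_local x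
  set g₁ : CTg Tr := ⟨g, hg⟩ with hg₁
  set g' : Perm ℤ := ((Θ g₁ : CTg Tr) : Perm ℤ) with hg'
  have hFimg : ∀ b ∈ F, g' '' b ∈ F := by
    rintro b ⟨a, hab, ha⟩
    exact ⟨_, Rel.img S S hab g₁, ⟨x, ha, hgx⟩⟩
  obtain ⟨M, hM, _, hfull⟩ := (mem_CTg_iff adm_Tr g').1 (Θ g₁).2
  obtain ⟨s, hs0, hs1, hsF⟩ := hF3 M hM
  obtain ⟨c, m, hc0, hcm, _, hval⟩ := hfull s hs0 hs1
  have hm : 0 < m := by linarith
  -- images of subclasses
  have himg : ∀ j K : ℤ, 0 < K → g' '' {y : ℤ | M * K ∣ y - (s + M * j)} =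
      {y : ℤ | m * K ∣ y - (c + m * j)} := by
    intro j K hK
    ext z
    simp only [Set.mem_image, Set.mem_ofPred_eq]
    constructor
    · rintro ⟨y, ⟨k, hk⟩, rfl⟩
      have : y = s + M * (j + K * k) := by linarith
      rw [this, hval]
      exact ⟨k, by ring⟩
    · rintro ⟨k, hk⟩
      refine ⟨s + M * (j + K * k), ⟨k, by ring⟩, ?_⟩
      rw [hval]; linarith
  have hmM : M - m ≠ 0 := by
    intro h0
    have hmM : m = M := by linarith
    have h1 := hFimg _ hsF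
    have h2 := himg 0 1 one_pos
    simp only [mul_one, mul_zero, add_zero] at h2
    rw [h2] at h1
    obtain ⟨z, hz1, hz2⟩ := hF2 _ hsF _ h1
    have hcs : c = s := by
      simp only [Set.mem_ofPred_eq] at hz1 hz2
      rw [hmM] at hz2
      have h3 := dvd_sub hz1 hz2
      rw [show z - s - (z - c) = c - s by ring] at h3
      rw [hmM] at hcm
      have h4 : |c - s| < M := by rw [abs_lt]; constructor <;> linarith
      have := Int.eq_zero_of_abs_lt_dvd h3 h4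
      linarith
    obtain ⟨a, hab, ha⟩ := hsF
    obtain ⟨z, hz, hgz⟩ := hgl a hab.1 ha
    have h5 : Θ g₁ ∈ LL (CTg Tr) ({y : ℤ | M ∣ y - s})ᶜ := by
      intro y hy
      simp only [Set.mem_compl_iff, Set.mem_ofPred_eq, not_not] at hy
      obtain ⟨k, hk⟩ := hy
      have : y = s + M * k := by linarith
      change g' y = y
      rw [this, hval, hcs, hmM]
    rw [← (Rel.compl S S hab).2.2] at h5
    exact hgz (h5 z (fun hc => hc hz))
  have main : ∀ K : ℤ, 0 < K → ∃ j : ℤ, {y : ℤ | M * K ∣ y - (s + M * j)} ∈ F ∧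
      K ∣ (s - c) + (M - m) * j := by
    intro K hK
    obtain ⟨t, ht0, ht1, htF⟩ := hF3 (M * K) (by positivity)
    obtain ⟨z, hz1, hz2⟩ := hF2 _ hsF _ htF
    simp only [Set.mem_ofPred_eq] at hz1 hz2
    have hz3 : M ∣ z - t := dvd_trans (Dvd.intro _ rfl) hz2
    have h3 := dvd_sub hz1 hz3
    rw [show z - s - (z - t) = t - s by ring] at h3
    obtain ⟨j, hj⟩ := h3
    have htj : t = s + M * j := by linarith
    rw [htj] at htF
    refine ⟨j, htF, ?_⟩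
    have h4 := hFimg _ htF
    rw [himg j K hK] at h4
    obtain ⟨w, hw1, hw2⟩ := hF2 _ htF _ h4
    simp only [Set.mem_ofPred_eq] at hw1 hw2
    have h5 := dvd_sub (dvd_trans (Dvd.intro_left _ rfl) hw2) (dvd_trans (Dvd.intro_left _ rfl) hw1)
    rwa [show w - (c + m * j) - (w - (s + M * j)) = (s - c) + (M - m) * j by ring] at h5
  have hδ : 0 < |M - m| := abs_pos.2 hmM
  obtain ⟨j0, hj0⟩ : ∃ j0, s - c = (M - m) * (-j0) := by
    obtain ⟨j, _, hj⟩ := main _ hδ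
    rw [abs_dvd] at hj
    have h1 : M - m ∣ s - c := by
      have := dvd_sub hj (Dvd.intro j rfl)
      rwa [add_sub_cancel_right] at this
    obtain ⟨q, hq⟩ := h1
    exact ⟨-q, by rw [hq]; ring⟩
  have hyF : ∀ L : ℤ, 0 < L → {y : ℤ | M * L ∣ y - (s + M * j0)} ∈ F := by
    intro L hL
    obtain ⟨j, hjF, hj⟩ := main (|M - m| * L) (by positivity)
    apply hup _ hjF _ (cls_mem _ _ (by positivity))
    have h1 : L ∣ j - j0 := by
      rw [hj0, ← mul_add, ] at hj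
      have h2 : (M - m) * L ∣ (M - m) * (-j0 + j) := by
        rcases abs_choice (M - m) with h | h
        · rwa [h] at hj
        · rw [h, neg_mul, neg_dvd] at hj; exact hj
      have h3 := (mul_dvd_mul_iff_left hmM).1 h2
      rwa [show -j0 + j = j - j0 by ring] at h3
    intro z hz
    simp only [Set.mem_ofPred_eq] at hz ⊢
    have h4 : M * L ∣ z - (s + M * j) := dvd_trans ⟨|M - m|, by ring⟩ hz
    have h5 : M * L ∣ M * (j - j0) := mul_dvd_mul_left M h1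
    have := dvd_add h4 h5
    rwa [show z - (s + M * j) + M * (j - j0) = z - (s + M * j0) by ring] at this
  have hy : ∀ b ∈ F, s + M * j0 ∈ b := by
    intro b hb
    obtain ⟨a, hab, _⟩ := id hb
    obtain ⟨L, hL, _, hper⟩ := hab.2.1
    by_contra hc
    obtain ⟨z, hz1, hz2⟩ := hF2 _ (hyF L hL) b hb
    simp only [Set.mem_ofPred_eq] at hz1
    obtain ⟨k, hk⟩ := hz1
    apply hc
    rw [per_mul hper _ (M * k)]
    rwa [show s + M * j0 + L * (M * k) = z by linarith]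
  refine ⟨s + M * j0, fun a b hab => ⟨fun hx => hy b ⟨a, hab, hx⟩, fun hyb => ?_⟩⟩
  by_contra hx
  exact hy _ ⟨aᶜ, Rel.compl S S hab, hx⟩ hyb

/-- every automorphism is induced by a permutation of the integers which respects periodic sets -/
theorem spatial (Θ : CTg Tr ≃* CTg Tr) : ∃ φ : Perm ℤ,
    (∀ g : CTg Tr, ((Θ g : CTg Tr) : Perm ℤ) = φ * (g : Perm ℤ) * φ⁻¹) ∧
    (∀ b ∈ PB Tr, {x | φ x ∈ b} ∈ PB Tr) := by
  have S := sysCT adm_Tr
  choose f hf using point Θ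
  choose f' hf' using point Θ.symm
  have hf'f : ∀ x, f' (f x) = x := by
    intro x
    by_contra hne
    obtain ⟨u, hu, h1, h2⟩ := S.sep _ _ hne
    obtain ⟨b, hb⟩ := rel_exists S S Θ u hu
    have e1 := hf x u b hb
    have e2 := hf' (f x) b u hb.symm
    rw [e1, e2] at h2
    exact h2 h1
  have hff' : ∀ x, f (f' x) = x := by
    intro x
    by_contra hne
    obtain ⟨u, hu, h1, h2⟩ := S.sep _ _ hne
    obtain ⟨b, hb⟩ := rel_exists' S S Θ u hu
    have e1 := hf (f' x) b u hb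
    have e2 := hf' x u b hb.symm
    rw [e2, e1] at h2
    exact h2 h1
  let φ : Perm ℤ := ⟨f, f', hf'f, hff'⟩
  refine ⟨φ, ?_, ?_⟩
  · intro g
    have key : ∀ x, f ((g : Perm ℤ) x) = ((Θ g : CTg Tr) : Perm ℤ) (f x) := by
      intro x
      by_contra hne
      obtain ⟨u, hu, h1, h2⟩ := S.sep _ _ hne
      obtain ⟨a, ha⟩ := rel_exists' S S Θ u hu
      have e1 := hf ((g : Perm ℤ) x) a u ha
      have hpre := Rel.img S S ha g⁻¹
      have e2 := hf x _ _ hpre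
      have e3 : x ∈ ((g⁻¹ : CTg Tr) : Perm ℤ) '' a ↔ (g : Perm ℤ) x ∈ a := by
        constructor
        · rintro ⟨z, hz, rfl⟩; simpa using hz
        · intro hz; exact ⟨_, hz, by simp⟩
      have e4 : f x ∈ ((Θ g⁻¹ : CTg Tr) : Perm ℤ) '' u ↔ ((Θ g : CTg Tr) : Perm ℤ) (f x) ∈ u := by
        rw [map_inv]
        constructor
        · rintro ⟨z, hz, hzz⟩; rw [← hzz]; simpa using hz
        · intro hz; exact ⟨_, hz, by simp⟩
      apply h2
      rw [← e4, ← e2, e3, e1]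
      exact h1
    ext x
    change _ = f ((g : Perm ℤ) (f' x))
    rw [key, hff']
  · intro b hb
    obtain ⟨a, ha⟩ := rel_exists' S S Θ b hb
    have : {x | φ x ∈ b} = a := by
      ext x
      exact (hf x a b ha).symm
    rw [this]
    exact ha.1

end Pool.Agent.Helper866.Out
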