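import Pool.Agent.Helper866.OutRigid2
import Pool.Agent.Helper866.OutPoint

set_option autoImplicit false

namespace Pool.Agent.Helper866.Out

open Equiv Pool.Agent.Helper111.CT Pool.Agent.Helper111.Recon

/-- piecewise affine description of full elements -/
theorem full_affine {g : Perm ℤ} (hg : Full Tr g) : ∃ M : ℤ, 0 < M ∧ ∃ A B : ℤ → ℚ,
    (∀ y, 0 < A y ∧ ((g y : ℤ) : ℚ) = A y * y + B y) ∧
    ∀ y y', M ∣ y - y' → A y = A y' ∧ B y = B y' := by
  obtain ⟨M, hM, _, h⟩ := hg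
  have h' : ∀ i : ℤ, ∃ c m : ℤ, 0 ≤ i → i < M → (0 ≤ c ∧ c < m ∧ ∀ k : ℤ, g (i + M * k) = c + m * k) := by
    intro i
    by_cases hi : 0 ≤ i ∧ i < M
    · obtain ⟨c, m, h1, h2, _, h4⟩ := h i hi.1 hi.2
      exact ⟨c, m, fun _ _ => ⟨h1, h2, h4⟩⟩
    · exact ⟨0, 0, fun h1 h2 => absurd ⟨h1, h2⟩ hi⟩
  choose c m hcm using h'
  have hMq : (M : ℚ) ≠ 0 := by exact_mod_cast hM.ne'
  have hMq' : (0 : ℚ) < M := by exact_mod_cast hM
  refine ⟨M, hM, fun y => (m (y % M) : ℚ) / M,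
    fun y => (c (y % M) : ℚ) - m (y % M) * ((y % M : ℤ) : ℚ) / M, ?_, ?_⟩
  · intro y
    obtain ⟨h1, h2, h3⟩ := hcm (y % M) (Int.emod_nonneg _ hM.ne') (Int.emod_lt_of_pos _ hM)
    have hm : 0 < m (y % M) := by linarith
    have hmq : (0 : ℚ) < m (y % M) := by exact_mod_cast hm
    refine ⟨by positivity, ?_⟩
    have e := Int.emod_add_mul_ediv y M
    have e2 : g y = c (y % M) + m (y % M) * (y / M) := by
      rw [← h3, e]
    have e3 : (y : ℚ) = ((y % M : ℤ) : ℚ) + M * ((y / M : ℤ) : ℚ) := by exact_mod_cast e.symm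
    rw [e2]
    push_cast
    rw [e3]
    field_simp
    ring
  · intro y y' hd
    have : y % M = y' % M := ((Int.modEq_iff_dvd).2 hd).symm
    simp only [this]
    exact ⟨trivial, trivial⟩

/-- a permutation which is affine on residue classes and preserves the sign is full -/
theorem full_of_affine {g : Perm ℤ} {m : ℤ} (hm : 0 < m)
    (h : ∀ r : ℤ, ∃ a b : ℚ, ∀ k : ℤ, ((g (r + m * k) : ℤ) : ℚ) = a * k + b)
    (hpos : ∀ n : ℤ, 0 ≤ g n ↔ 0 ≤ n) : Full Tr g := by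
  refine ⟨m, hm, trivial, ?_⟩
  intro i hi0 hi1
  obtain ⟨a, b, f⟩ := h i
  have f0 := f 0
  have f1 := f 1
  simp only [mul_zero, mul_one] at f0 f1
  have hlin : ∀ k : ℤ, g (i + m * k) = g (i + 0) + (g (i + m) - g (i + 0)) * k := by
    intro k
    have : ((g (i + m * k) : ℤ) : ℚ) = ((g (i + 0) + (g (i + m) - g (i + 0)) * k : ℤ) : ℚ) := by
      rw [f k]
      push_cast
      rw [f1, f0]
      push_cast
      ring
    exact_mod_cast this
  simp only [add_zero] at hlin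
  have hneg := hlin (-1)
  have hc : ¬ 0 ≤ g (i + m * (-1)) := by
    rw [hpos]; linarith
  refine ⟨g i, g (i + m) - g i, (hpos i).2 hi0, ?_, trivial, hlin⟩
  rw [hneg] at hc
  linarith

/-- congruences of values -/
theorem cong_period {φ : Perm ℤ} (hH : ∀ b ∈ PB Tr, {x | φ x ∈ b} ∈ PB Tr) (M : ℤ) (hM : 0 < M) :
    ∃ P : ℤ, 0 < P ∧ ∀ x k, M ∣ φ (x + P * k) - φ x := by
  have h1 : ∀ s : ℕ, ∃ P : ℤ, 0 < P ∧ ∀ x, M ∣ φ x - s ↔ M ∣ φ (x + P) - s := by
    intro s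
    obtain ⟨P, hP, _, h⟩ := hH _ (cls_mem s M hM)
    exact ⟨P, hP, h⟩
  choose P hP hper using h1
  have hmul : ∀ s : ℕ, ∀ x k : ℤ, M ∣ φ x - s ↔ M ∣ φ (x + P s * k) - s := fun s x k =>
    per_mul (a := {x | M ∣ φ x - s}) (hper s) x k
  refine ⟨∏ s ∈ Finset.range M.toNat, P s, Finset.prod_pos (fun s _ => hP s), ?_⟩
  intro x k
  have h0 := Int.emod_nonneg (φ x) hM.ne'
  have h2 := Int.emod_lt_of_pos (φ x) hM
  obtain ⟨s, hs⟩ := Int.eq_ofNat_of_zero_le h0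
  have hsM : s ∈ Finset.range M.toNat := by
    rw [Finset.mem_range]; omega
  have hx : M ∣ φ x - s := by
    have : M ∣ φ x - φ x % M := Int.dvd_self_sub_emod
    rwa [hs] at this
  obtain ⟨q, hq⟩ : P s ∣ ∏ s ∈ Finset.range M.toNat, P s := Finset.dvd_prod_of_mem _ hsM
  have hx2 := (hmul s x (q * k)).1 hx
  rw [hq, mul_assoc]
  have := dvd_sub hx2 hx
  rwa [show φ (x + P s * (q * k)) - (s : ℤ) - (φ x - s) = φ (x + P s * (q * k)) - φ x by ring] at this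

/-- behaviour under the maps `k ↦ m k + r` -/
theorem local_aff {φ : Perm ℤ} (hN : ∀ g ∈ CTg Tr, φ * g * φ⁻¹ ∈ CTg Tr)
    (hH : ∀ b ∈ PB Tr, {x | φ x ∈ b} ∈ PB Tr) (m r : ℤ) (hr : 0 ≤ r) (hrm : r < m) :
    ∃ P : ℤ, 0 < P ∧ ∃ α β : ℤ → ℚ, (∀ k, 0 < α k ∧ ((φ (m * k + r) : ℤ) : ℚ) = α k * φ k + β k) ∧
      ∀ k j, α (k + P * j) = α k ∧ β (k + P * j) = β k := by
  have h1 : ∀ i : ℤ, ∃ g : Perm ℤ, ∃ M : ℤ, 0 < M ∧ ∃ A B : ℤ → ℚ, 0 ≤ i → i < 3 →
      (∀ k, g (i + 3 * k) = m * (i + 3 * k) + r) ∧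
      (∀ y, 0 < A y ∧ (((φ * g * φ⁻¹) y : ℤ) : ℚ) = A y * y + B y) ∧
      ∀ y y', M ∣ y - y' → A y = A y' ∧ B y = B y' := by
    intro i
    by_cases hi : 0 ≤ i ∧ i < 3
    · obtain ⟨g, hg, hgk⟩ := G3 (r₁ := i) (n₁ := 1) (r₂ := m * i + r) (n₂ := m) hi.1
        (by linarith [hi.2]) (by have : 0 < m := by linarith
                                 have := hi.1
                                 positivity) (by nlinarith [hi.2])
      obtain ⟨M, hM, A, B, hA, hB⟩ := full_affine ((mem_CTg_iff adm_Tr _).1 (hN g hg))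
      refine ⟨g, M, hM, A, B, fun _ _ => ⟨fun k => ?_, hA, hB⟩⟩
      have := hgk k
      rw [show i + 3 * k = i + 3 * 1 * k by ring, this]; ring
    · exact ⟨1, 1, one_pos, 0, 0, fun h1 h2 => absurd ⟨h1, h2⟩ hi⟩
  choose g M hM A B hAB using h1
  obtain ⟨P, hP, hPc⟩ := cong_period hH (M 0 * M 1 * M 2)
    (mul_pos (mul_pos (hM 0) (hM 1)) (hM 2))
  refine ⟨3 * P, by positivity, fun k => A (k % 3) (φ k), fun k => B (k % 3) (φ k), ?_, ?_⟩
  · intro k
    have k0 := Int.emod_nonneg k (show (3 : ℤ) ≠ 0 by norm_num)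
    have k1 := Int.emod_lt_of_pos k (show (0 : ℤ) < 3 by norm_num)
    obtain ⟨h1, h2, h3⟩ := hAB (k % 3) k0 k1
    have e := Int.emod_add_mul_ediv k 3
    have h4 := h1 (k / 3)
    rw [e] at h4
    refine ⟨(h2 _).1, ?_⟩
    rw [← (h2 (φ k)).2]
    simp [Perm.mul_apply, h4]
  · intro k j
    have e1 : (k + 3 * P * j) % 3 = k % 3 := by
      rw [mul_assoc, Int.add_mul_emod_self_left]
    have k0 := Int.emod_nonneg k (show (3 : ℤ) ≠ 0 by norm_num)
    have k1 := Int.emod_lt_of_pos k (show (0 : ℤ) < 3 by norm_num)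
    obtain ⟨_, _, h3⟩ := hAB (k % 3) k0 k1
    have h5 := hPc k (3 * j)
    rw [show k + P * (3 * j) = k + 3 * P * j by ring] at h5
    have h6 : M (k % 3) ∣ M 0 * M 1 * M 2 := by
      have : k % 3 = 0 ∨ k % 3 = 1 ∨ k % 3 = 2 := by omega
      rcases this with h | h | h <;> rw [h]
      · exact ⟨M 1 * M 2, by ring⟩
      · exact ⟨M 0 * M 2, by ring⟩
      · exact ⟨M 0 * M 1, by ring⟩
    beta_reduce
    rw [e1]
    exact h3 _ _ (dvd_trans h6 h5)

/-- a permutation normalising the group, compatible with periodic sets and preserving the sign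
belongs to the group -/
theorem mem_of_normalizes {φ : Perm ℤ} (hN : ∀ g ∈ CTg Tr, φ * g * φ⁻¹ ∈ CTg Tr)
    (hH : ∀ b ∈ PB Tr, {x | φ x ∈ b} ∈ PB Tr) (hpos : ∀ x, 0 ≤ φ x ↔ 0 ≤ x) : φ ∈ CTg Tr := by
  obtain ⟨P, hP, hκ⟩ := rigid (fun n : ℕ => ((φ (n : ℤ) : ℤ) : ℝ))
    (by
      intro a b hab
      have h1 : ((φ (a : ℤ) : ℤ) : ℝ) = ((φ (b : ℤ) : ℤ) : ℝ) := hab
      have h2 : φ (a : ℤ) = φ (b : ℤ) := by exact_mod_cast h1
      exact_mod_cast φ.injective h2)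
    (by
      intro m r hrm
      obtain ⟨P, hP, α, β, h1, h2⟩ := local_aff hN hH m r (by positivity) (by exact_mod_cast hrm)
      refine ⟨P.toNat, by omega, fun k => ((α (k : ℤ) : ℚ) : ℝ), fun k => ((β (k : ℤ) : ℚ) : ℝ),
        ?_, ?_⟩
      · intro k
        obtain ⟨h3, h4⟩ := h1 k
        beta_reduce
        refine ⟨by exact_mod_cast h3, ?_⟩
        have h5 : (((φ ((m : ℤ) * k + r) : ℤ) : ℚ) : ℝ) = ((α k * φ k + β k : ℚ) : ℝ) := by
          rw [h4]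
        push_cast at h5 ⊢
        exact h5
      · intro k j
        obtain ⟨h3, h4⟩ := h2 k j
        have hc : (((k + P.toNat * j : ℕ)) : ℤ) = k + P * j := by
          push_cast
          rw [Int.toNat_of_nonneg hP.le]
        beta_reduce
        rw [hc, h3, h4]
        exact ⟨rfl, rfl⟩)
  have hPZ : (0 : ℤ) < P := by exact_mod_cast hP
  -- integral version
  have hint : ∀ y : ℕ, ∀ j : ℕ, φ ((y : ℤ) + P * j) = φ y + (φ ((y : ℤ) + P) - φ y) * j := by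
    intro y j
    obtain ⟨κ, hκ⟩ := hκ y
    have h1 := hκ 1
    have h2 := hκ j
    push_cast at h1 h2
    simp only [mul_one] at h1
    have : ((φ ((y : ℤ) + P * j) : ℤ) : ℝ) = ((φ y + (φ ((y : ℤ) + P) - φ y) * j : ℤ) : ℝ) := by
      rw [h2]
      push_cast
      rw [h1]; ring
    exact_mod_cast this
  -- extension to negative integers
  have hall : ∀ y : ℕ, ∀ k : ℤ, φ ((y : ℤ) + P * k) = φ y + (φ ((y : ℤ) + P) - φ y) * k := by
    intro y k
    set κ := φ ((y : ℤ) + P) - φ y with hκd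
    by_contra hne
    set M : ℤ := |φ ((y : ℤ) + P * k) - (φ y + κ * k)| + 1 with hM
    have hM0 : 0 < M := by positivity
    obtain ⟨Q, hQ, hQc⟩ := cong_period hH M hM0
    have h1 := hQc ((y : ℤ) + P * k) (P * (M * |k|))
    have hk : 0 ≤ k + Q * M * |k| := by
      have a1 : -|k| ≤ k := neg_abs_le k
      have a2 : |k| ≤ Q * M * |k| := by
        have : 1 ≤ Q * M := by
          have := mul_pos hQ hM0
          linarith
        nlinarith [abs_nonneg k]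
      linarith
    obtain ⟨j, hj⟩ := Int.eq_ofNat_of_zero_le hk
    have e1 : (y : ℤ) + P * k + Q * (P * (M * |k|)) = y + P * j := by
      rw [← hj]; ring
    rw [e1, hint y j, ← hj] at h1
    have h2 : M ∣ κ * (Q * M * |k|) := ⟨κ * (Q * |k|), by ring⟩
    have h3 : M ∣ φ ((y : ℤ) + P * k) - (φ y + κ * k) := by
      have := dvd_sub h2 h1
      rwa [show κ * (Q * M * |k|) - (φ y + κ * (k + Q * M * |k|) - φ ((y : ℤ) + P * k)) =
        φ ((y : ℤ) + P * k) - (φ y + κ * k) by ring] at this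
    have h4 := Int.eq_zero_of_abs_lt_dvd h3 (by rw [hM]; linarith)
    exact hne (sub_eq_zero.1 h4)
  rw [mem_CTg_iff adm_Tr]
  apply full_of_affine hPZ _ hpos
  intro r
  obtain ⟨y, hy⟩ := Int.eq_ofNat_of_zero_le (Int.emod_nonneg r hPZ.ne')
  have e := Int.emod_add_mul_ediv r P
  rw [hy] at e
  refine ⟨((φ ((y : ℤ) + P) - φ y : ℤ) : ℚ),
    ((φ y + (φ ((y : ℤ) + P) - φ y) * (r / P) : ℤ) : ℚ), fun k => ?_⟩
  have := hall y (r / P + k)
  rw [show (y : ℤ) + P * (r / P + k) = r + P * k by linear_combination e] at this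
  rw [this]
  push_cast; ring

theorem trans_G {x y : ℤ} (h : 0 ≤ x ↔ 0 ≤ y) : ∃ g ∈ CTg Tr, g x = y := by
  by_cases hx : 0 ≤ x
  · have hy := h.1 hx
    obtain ⟨g, hg, hk⟩ := G3 (r₁ := x) (n₁ := x + y + 1) (r₂ := y) (n₂ := x + y + 1) hx
      (by linarith) hy (by linarith)
    exact ⟨g, hg, by simpa using hk 0⟩
  · have hy : ¬ 0 ≤ y := fun hc => hx (h.2 hc)
    push Not at hx hy
    obtain ⟨g, hg, hk⟩ := G3 (r₁ := x + 3 * (-x - y)) (n₁ := -x - y) (r₂ := y + 3 * (-x - y))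
      (n₂ := -x - y) (by linarith) (by linarith) (by linarith) (by linarith)
    refine ⟨g, hg, ?_⟩
    have := hk (-1)
    rw [show x + 3 * (-x - y) + 3 * (-x - y) * (-1) = x by ring,
      show y + 3 * (-x - y) + 3 * (-x - y) * (-1) = y by ring] at this
    exact this

theorem sign_mem {g : Perm ℤ} (hg : g ∈ CTg Tr) (y : ℤ) : 0 ≤ g y ↔ 0 ≤ y :=
  full_pos ((mem_CTg_iff adm_Tr g).1 hg) y

theorem sign_pres {φ : Perm ℤ} (h1 : ∀ g ∈ CTg Tr, φ * g * φ⁻¹ ∈ CTg Tr)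
    (h2 : ∀ g ∈ CTg Tr, φ⁻¹ * g * φ ∈ CTg Tr) (x₀ : ℤ) (h0 : 0 ≤ φ x₀ ↔ 0 ≤ x₀) (x : ℤ) :
    0 ≤ φ x ↔ 0 ≤ x := by
  by_cases hs : 0 ≤ x₀ ↔ 0 ≤ x
  · obtain ⟨g, hg, hgx⟩ := trans_G hs
    have h3 := sign_mem (h1 g hg) (φ x₀)
    have h4 : (φ * g * φ⁻¹) (φ x₀) = φ x := by
      simp [Perm.mul_apply, hgx]
    rw [h4] at h3
    rw [h3, h0, hs]
  · by_contra hc
    have h5 : 0 ≤ φ x₀ ↔ 0 ≤ φ x := by
      rw [h0]; tauto
    obtain ⟨g, hg, hgx⟩ := trans_G h5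
    have h3 := sign_mem (h2 g hg) x₀
    have h4 : (φ⁻¹ * g * φ) x₀ = x := by
      simp [Perm.mul_apply, hgx]
    rw [h4] at h3
    exact hs h3.symm

/-- conjugation by the reflection preserves the group -/
theorem nu_conj {ν : Perm ℤ} (hν : ∀ n, ν n = -n - 1) {g : Perm ℤ} (hg : g ∈ CTg Tr) :
    ν * g * ν⁻¹ ∈ CTg Tr := by
  have hν' : ∀ n, ν⁻¹ n = -n - 1 := by
    intro n
    rw [Perm.inv_eq_iff_eq, hν]; ring
  obtain ⟨M, hM, A, B, hAB, hper⟩ := full_affine ((mem_CTg_iff adm_Tr g).1 hg)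
  rw [mem_CTg_iff adm_Tr]
  apply full_of_affine hM
  · intro r
    refine ⟨A (-r - 1) * M, A (-r - 1) * (r + 1) - B (-r - 1) - 1, fun k => ?_⟩
    rw [Perm.mul_apply, Perm.mul_apply, hν', hν]
    have h1 := (hAB (-(r + M * k) - 1)).2
    obtain ⟨h2, h3⟩ := hper (-(r + M * k) - 1) (-r - 1) ⟨-k, by ring⟩
    push_cast
    rw [h1, h2, h3]
    push_cast
    ring
  · intro n
    rw [Perm.mul_apply, Perm.mul_apply, hν', hν]
    have := sign_mem hg (-n - 1)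
    constructor
    · intro h
      by_contra hc
      push Not at hc
      have := this.2 (by linarith)
      linarith
    · intro h
      by_contra hc
      push Not at hc
      have := this.1 (by linarith)
      linarith

/-- main theorem: automorphisms of the group generated by class transpositions -/
theorem aut_form {ν : Perm ℤ} (hν : ∀ n, ν n = -n - 1) (Θ : CTg Tr ≃* CTg Tr) :
    ∃ h ∈ CTg Tr,
      (∀ g : CTg Tr, ((Θ g : CTg Tr) : Perm ℤ) = h * (g : Perm ℤ) * h⁻¹) ∨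
      (∀ g : CTg Tr, ((Θ g : CTg Tr) : Perm ℤ) = h * ν * (g : Perm ℤ) * ν⁻¹ * h⁻¹) := by
  obtain ⟨φ, hφ, hH⟩ := spatial Θ
  have hN : ∀ g ∈ CTg Tr, φ * g * φ⁻¹ ∈ CTg Tr := by
    intro g hg
    have := hφ ⟨g, hg⟩
    simp only at this
    rw [← this]
    exact (Θ _).2
  have hN' : ∀ g ∈ CTg Tr, φ⁻¹ * g * φ ∈ CTg Tr := by
    intro g hg
    have := hφ (Θ.symm ⟨g, hg⟩)
    rw [MulEquiv.apply_symm_apply] at this
    simp only at this
    rw [this]
    have e : φ⁻¹ * (φ * ((Θ.symm ⟨g, hg⟩ : CTg Tr) : Perm ℤ) * φ⁻¹) * φ =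
        ((Θ.symm ⟨g, hg⟩ : CTg Tr) : Perm ℤ) := by group
    rw [e]
    exact (Θ.symm _).2
  have hνν : ν * ν = 1 := by
    ext n
    rw [Perm.mul_apply, hν, hν, Perm.one_apply]; ring
  have hνi : ν⁻¹ = ν := inv_eq_of_mul_eq_one_left hνν
  by_cases h0 : 0 ≤ φ 0
  · have hpos := sign_pres hN hN' 0 (by simpa using h0)
    exact ⟨φ, mem_of_normalizes hN hH hpos, Or.inl hφ⟩
  · have hN1 : ∀ g ∈ CTg Tr, (φ * ν) * g * (φ * ν)⁻¹ ∈ CTg Tr := by
      intro g hg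
      have := hN _ (nu_conj hν hg)
      have e : (φ * ν) * g * (φ * ν)⁻¹ = φ * (ν * g * ν⁻¹) * φ⁻¹ := by group
      rw [e]; exact this
    have hN2 : ∀ g ∈ CTg Tr, (φ * ν)⁻¹ * g * (φ * ν) ∈ CTg Tr := by
      intro g hg
      have := nu_conj hν (hN' _ hg)
      have e : (φ * ν)⁻¹ * g * (φ * ν) = ν * (φ⁻¹ * g * φ) * ν⁻¹ := by
        rw [mul_inv_rev, hνi]; group
      rw [e]; exact this
    have hH' : ∀ b ∈ PB Tr, {x | (φ * ν) x ∈ b} ∈ PB Tr := by
      intro b hb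
      obtain ⟨M, hM, _, hper⟩ := hH b hb
      refine ⟨M, hM, trivial, fun x => ?_⟩
      simp only [Set.mem_ofPred_eq, Perm.mul_apply, hν]
      have := hper (-(x + M) - 1)
      simp only [Set.mem_ofPred_eq] at this
      rw [show -(x + M) - 1 + M = -x - 1 by ring] at this
      exact this.symm
    have hpos := sign_pres hN1 hN2 (-1) (by
      rw [Perm.mul_apply, hν]
      norm_num
      simpa using h0)
    refine ⟨φ * ν, mem_of_normalizes hN1 hH' hpos, Or.inr fun g => ?_⟩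
    rw [hφ]
    have : φ * ν * ν = φ := by rw [mul_assoc, hνν, mul_one]
    rw [this, mul_inv_rev, hνi]
    have : φ * (g : Perm ℤ) * ν * (ν * φ⁻¹) = φ * (g : Perm ℤ) * (ν * ν) * φ⁻¹ := by group
    rw [this, hνν, mul_one]

/-- the reflection does not act as an inner automorphism -/
theorem not_inner {ν : Perm ℤ} (hν : ∀ n, ν n = -n - 1) :
    ¬ ∃ h ∈ CTg Tr, ∀ g ∈ CTg Tr, ν * g * ν⁻¹ = h * g * h⁻¹ := by
  rintro ⟨h, hh, hc⟩
  set c : Perm ℤ := h⁻¹ * ν with hcdef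
  have hcom : ∀ g ∈ CTg Tr, c * g = g * c := by
    intro g hg
    have := hc g hg
    calc c * g = h⁻¹ * (ν * g * ν⁻¹) * ν := by rw [hcdef]; group
      _ = g * c := by rw [this, hcdef]; group
  have hy : ¬ 0 ≤ c 0 := by
    rw [hcdef, Perm.mul_apply, sign_mem (Subgroup.inv_mem _ hh), hν]
    norm_num
  push Not at hy
  set y := c 0 with hyd
  have ha : {z : ℤ | (1 - y) ∣ z - y} ∈ PB Tr := cls_mem y (1 - y) (by linarith)
  obtain ⟨π, hπ, _, hπ2, hπ3⟩ := invol_mem adm_Tr ha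
  have hπm : π ∈ CTg Tr := (mem_CTg_iff adm_Tr π).2 hπ
  have h0 : π 0 = 0 := by
    apply hπ2
    simp only [Set.mem_ofPred_eq]
    intro hd
    have := Int.eq_zero_of_abs_lt_dvd hd (by rw [abs_of_pos (by linarith)]; linarith)
    linarith
  have h1 : π y ≠ y := hπ3 y (by simp)
  apply h1
  have := congrArg (fun f : Perm ℤ => f 0) (hcom π hπm)
  simp only [Perm.mul_apply, h0] at this
  exact this.symm

end Pool.Agent.Helper866.Out
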