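import Mathlib

set_option autoImplicit false

namespace Pool.Agent.Helper866.Out

/-- good approximations of powers of two by powers of three -/
theorem approx23 (N : ℕ) (hN : 0 < N) : ∃ a b A B : ℕ, ((A = 2 ^ a ∧ B = 3 ^ b) ∨ (A = 3 ^ b ∧ B = 2 ^ a)) ∧
    A < B ∧ (3 * (B - A) + 1) * N ≤ A := by
  have hL3 : 0 < Real.log 3 := Real.log_pos (by norm_num)
  have hL2 : 0 < Real.log 2 := Real.log_pos (by norm_num)
  have hL3' : Real.log 3 ≤ 2 := by
    have := Real.log_le_sub_one_of_pos (show (0 : ℝ) < 3 by norm_num)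
    linarith
  obtain ⟨j, k, hk0, hkn, hjk⟩ := Real.exists_int_int_abs_mul_sub_le (Real.log 2 / Real.log 3)
    (n := 24 * N - 1) (by omega)
  have hcast : (((24 * N - 1 : ℕ) : ℝ) + 1) = 24 * N := by
    rw [Nat.cast_sub (by omega)]; push_cast; ring
  rw [hcast] at hjk
  have hNR : (1 : ℝ) ≤ N := by exact_mod_cast hN
  have hj0 : 0 ≤ j := by
    by_contra hneg
    have h1 : j ≤ -1 := by omega
    have h2 : (j : ℝ) ≤ -1 := by exact_mod_cast h1
    have h3 : (0 : ℝ) ≤ (k : ℝ) * (Real.log 2 / Real.log 3) := by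
      have : (0 : ℝ) < k := by exact_mod_cast hk0
      positivity
    have h4 := le_abs_self ((k : ℝ) * (Real.log 2 / Real.log 3) - j)
    have h5 : (1 : ℝ) / (24 * N) ≤ 1 / 24 := by
      apply div_le_div_of_nonneg_left <;> linarith
    linarith
  obtain ⟨k', rfl⟩ := Int.eq_ofNat_of_zero_le hk0.le
  obtain ⟨j', rfl⟩ := Int.eq_ofNat_of_zero_le hj0
  have hk' : 0 < k' := by exact_mod_cast hk0
  set x : ℝ := k' * Real.log 2 - j' * Real.log 3 with hx
  have hxabs : |x| ≤ 2 / (24 * N) := by
    have e : x = Real.log 3 * (((k' : ℤ) : ℝ) * (Real.log 2 / Real.log 3) - ((j' : ℤ) : ℝ)) := by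
      rw [hx]; field_simp; push_cast; ring
    rw [e, abs_mul, abs_of_pos hL3]
    calc Real.log 3 * |((k' : ℤ) : ℝ) * (Real.log 2 / Real.log 3) - ((j' : ℤ) : ℝ)|
        ≤ 2 * (1 / (24 * N)) := mul_le_mul hL3' hjk (abs_nonneg _) (by norm_num)
      _ = 2 / (24 * N) := by ring
  have hx1 : |x| ≤ 1 := by
    refine hxabs.trans ?_
    rw [div_le_one (by positivity)]; linarith
  have h2k : (2 : ℝ) ^ k' = 3 ^ j' * Real.exp x := by
    rw [hx, Real.exp_sub, ← Real.log_pow, ← Real.log_pow, Real.exp_log (by positivity),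
      Real.exp_log (by positivity)]
    field_simp
  have h3j : (3 : ℝ) ^ j' = 2 ^ k' * Real.exp (-x) := by
    rw [h2k, mul_assoc, ← Real.exp_add]; simp
  have hne : 2 ^ k' ≠ 3 ^ j' := by
    intro h
    have h1 : Even (3 ^ j') := by
      rw [← h]; exact (Nat.even_pow.2 ⟨even_two, hk'.ne'⟩)
    have h2 : Odd (3 ^ j') := Odd.pow (by decide)
    exact (Nat.not_even_iff_odd.2 h2) h1
  -- common estimate
  have key : ∀ A B : ℕ, A < B → ∀ z : ℝ, |z| ≤ 2 / (24 * N) → (B : ℝ) = A * Real.exp z →
      (3 * (B - A) + 1) * N ≤ A := by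
    intro A B hAB z hz hB
    have hz1 : |z| ≤ 1 := by
      refine hz.trans ?_
      rw [div_le_one (by positivity)]; linarith
    have h1 := Real.abs_exp_sub_one_le hz1
    have h2 : (B : ℝ) - A ≤ A * (4 / (24 * N)) := by
      have : (B : ℝ) - A = A * (Real.exp z - 1) := by rw [hB]; ring
      rw [this]
      apply mul_le_mul_of_nonneg_left _ (by positivity)
      calc Real.exp z - 1 ≤ |Real.exp z - 1| := le_abs_self _
        _ ≤ 2 * |z| := h1
        _ ≤ 2 * (2 / (24 * N)) := by linarith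
        _ = 4 / (24 * N) := by ring
    have h3 : (1 : ℝ) ≤ (B : ℝ) - A := by
      have : (A : ℝ) + 1 ≤ B := by exact_mod_cast hAB
      linarith
    have h4 : ((B : ℝ) - A) * (6 * N) ≤ A := by
      calc ((B : ℝ) - A) * (6 * N) ≤ A * (4 / (24 * N)) * (6 * N) := by
            apply mul_le_mul_of_nonneg_right h2 (by positivity)
        _ = A := by field_simp; ring
    have h5 : (6 : ℝ) * N ≤ A := by
      calc (6 : ℝ) * N = 1 * (6 * N) := by ring
        _ ≤ ((B : ℝ) - A) * (6 * N) := by
            apply mul_le_mul_of_nonneg_right h3 (by positivity)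
        _ ≤ A := h4
    have h6 : ((3 * ((B : ℝ) - A) + 1) * N) ≤ A := by nlinarith
    have h7 : (((3 * (B - A) + 1) * N : ℕ) : ℝ) ≤ (A : ℝ) := by
      push_cast
      rw [Nat.cast_sub hAB.le]
      exact h6
    exact_mod_cast h7
  rcases lt_or_gt_of_ne hne with h | h
  · refine ⟨k', j', 2 ^ k', 3 ^ j', Or.inl ⟨rfl, rfl⟩, h, ?_⟩
    apply key _ _ h (-x) (by rw [abs_neg]; exact hxabs)
    push_cast; exact h3j
  · refine ⟨k', j', 3 ^ j', 2 ^ k', Or.inr ⟨rfl, rfl⟩, h, ?_⟩
    apply key _ _ h x hxabs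
    push_cast; exact h2k

/-- block relation -/
def EE (u : ℕ → ℝ) (N m : ℕ) (ρ : ℝ) : Prop :=
  ∀ K t r : ℕ, r < m → u (m * (K + t * N) + r) - u (m * K + r) = ρ * (u (K + t * N) - u K)

theorem EE_base {u : ℕ → ℝ} {N m : ℕ} {ρ : ℝ}
    (h : ∀ r < m, ∀ k, u (m * (k + N) + r) - ρ * u (k + N) = u (m * k + r) - ρ * u k) :
    EE u N m ρ := by
  intro K t r hr
  induction t with
  | zero => simp
  | succ t ih =>
    have h1 := h r hr (K + t * N)
    have e : K + (t + 1) * N = K + t * N + N := by ring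
    rw [e]
    linarith

theorem EE_mul {u : ℕ → ℝ} {N m p : ℕ} {ρ σ : ℝ} (hp : 0 < p) (h : EE u N p ρ) (h' : EE u N m σ) :
    EE u N (p * m) (ρ * σ) := by
  intro K t r hr
  have h1 : r / p < m := Nat.div_lt_of_lt_mul hr
  have h2 : r % p < p := Nat.mod_lt _ hp
  have h3 : p * (r / p) + r % p = r := Nat.div_add_mod r p
  have h4 := h (m * K + r / p) (m * t) (r % p) h2
  have h5 := h' K t (r / p) h1
  have e1 : p * (m * K + r / p + m * t * N) + r % p = p * m * (K + t * N) + r := by
    calc p * (m * K + r / p + m * t * N) + r % p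
        = p * m * (K + t * N) + (p * (r / p) + r % p) := by ring
      _ = _ := by rw [h3]
  have e2 : p * (m * K + r / p) + r % p = p * m * K + r := by
    calc p * (m * K + r / p) + r % p = p * m * K + (p * (r / p) + r % p) := by ring
      _ = _ := by rw [h3]
  have e3 : m * K + r / p + m * t * N = m * (K + t * N) + r / p := by ring
  rw [e1, e2, e3, h5] at h4
  rw [h4]; ring

theorem EE_one (u : ℕ → ℝ) (N : ℕ) : EE u N 1 1 := by
  intro K t r hr
  have : r = 0 := by omega
  subst this
  simp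

theorem EE_pow {u : ℕ → ℝ} {N p : ℕ} {ρ : ℝ} (hp : 0 < p) (h : EE u N p ρ) (i : ℕ) :
    EE u N (p ^ i) (ρ ^ i) := by
  induction i with
  | zero => simpa using EE_one u N
  | succ i ih =>
    have := EE_mul hp h ih
    rw [pow_succ, pow_succ, mul_comm (p ^ i), mul_comm (ρ ^ i)]; exact this

theorem EE_shift {u : ℕ → ℝ} {N m : ℕ} {ρ : ℝ} (h : EE u N m ρ) (y : ℕ) (hy : y < m) :
    u (y + m * N) = u y + ρ * (u N - u 0) := by
  have := h 0 1 y hy
  simp only [zero_add, one_mul, mul_zero] at this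
  rw [add_comm y (m * N)]; linarith

/-- the increment function becomes periodic -/
theorem incr_periodic {u : ℕ → ℝ} {N A B : ℕ} (hN : 0 < N) (hAB : A < B)
    (hA : (3 * (B - A) + 1) * N ≤ A)
    (hEA : ∀ i : ℕ, ∃ ρ, EE u N (2 ^ i * A) ρ) (hEB : ∀ i : ℕ, ∃ ρ, EE u N (2 ^ i * B) ρ) (y : ℕ) :
    u (y + (B - A) * N + N) - u (y + (B - A) * N) = u (y + N) - u y := by
  set g := B - A with hg
  have hgpos : 0 < g := by omega
  set D : ℕ → ℝ := fun y => u (y + N) - u y with hD
  have step : ∀ m ρ, EE u N m ρ → ∀ y, y + N < m → D (y + m * N) = D y := by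
    intro m ρ h y hy
    have h1 := EE_shift h y (by omega)
    have h2 := EE_shift h (y + N) hy
    simp only [hD]
    rw [show y + m * N + N = y + N + m * N by ring, h1, h2]; ring
  have hW : ∀ i y, y + 2 ^ i * g * N + N < 2 ^ i * A → D (y + 2 ^ i * g * N) = D y := by
    intro i y hy
    obtain ⟨ρ, hρ⟩ := hEA i
    obtain ⟨σ, hσ⟩ := hEB i
    have hAB' : 2 ^ i * A < 2 ^ i * B := Nat.mul_lt_mul_of_pos_left hAB (by positivity)
    have h1 := step _ _ hσ y (by
      have : 0 ≤ 2 ^ i * g * N := Nat.zero_le _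
      omega)
    have h2 := step _ _ hρ (y + 2 ^ i * g * N) hy
    have e : y + 2 ^ i * g * N + 2 ^ i * A * N = y + 2 ^ i * B * N := by
      have : B = A + g := by omega
      rw [this]; ring
    rw [e] at h2
    rw [← h2, h1]
  have hP : ∀ i d, ∀ j, j + d = i → ∀ y, y + 2 ^ j * g * N + N < 2 ^ i * A →
      D (y + 2 ^ j * g * N) = D y := by
    intro i d
    induction d with
    | zero =>
      intro j hj y hy
      have : j = i := by omega
      subst this
      exact hW j y hy
    | succ d ih =>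
      intro j hj y hy
      have ih' := ih (j + 1) (by omega)
      set q := 2 ^ (j + 1) * g * N with hq
      have hqpos : 0 < q := by positivity
      have hq2 : q = 2 * (2 ^ j * g * N) := by rw [hq, pow_succ]; ring
      -- iterate the coarse period
      have iter : ∀ s y0, y0 + q * s + N < 2 ^ i * A → D (y0 + q * s) = D y0 := by
        intro s
        induction s with
        | zero => intro y0 _; simp
        | succ s ihs =>
          intro y0 h0
          have e : y0 + q * (s + 1) = y0 + q * s + q := by ring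
          rw [e] at h0 ⊢
          rw [ih' (y0 + q * s) h0]
          exact ihs y0 (by omega)
      have hy0 : y % q < q := Nat.mod_lt _ hqpos
      have hdecomp : y % q + q * (y / q) = y := Nat.mod_add_div y q
      have hDy : D y = D (y % q) := by
        have := iter (y / q) (y % q) (by rw [hdecomp]; omega)
        rw [hdecomp] at this; exact this
      have hDy' : D (y + 2 ^ j * g * N) = D (y % q + 2 ^ j * g * N) := by
        have e : y % q + 2 ^ j * g * N + q * (y / q) = y + 2 ^ j * g * N := by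
          calc y % q + 2 ^ j * g * N + q * (y / q) = (y % q + q * (y / q)) + 2 ^ j * g * N := by ring
            _ = _ := by rw [hdecomp]
        have := iter (y / q) (y % q + 2 ^ j * g * N) (by rw [e]; exact hy)
        rw [e] at this; exact this
      rw [hDy', hDy]
      apply hW
      have h2j : 2 ^ j * ((3 * g + 1) * N) ≤ 2 ^ j * A := Nat.mul_le_mul_left _ hA
      have e3 : 2 ^ j * ((3 * g + 1) * N) = 3 * (2 ^ j * g * N) + 2 ^ j * N := by ring
      have h1 : N ≤ 2 ^ j * N := Nat.le_mul_of_pos_left _ (by positivity)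
      omega
  -- choose a large scale
  have hApos : 0 < A := by
    have : 0 < (3 * g + 1) * N := by positivity
    omega
  obtain ⟨i, hi⟩ : ∃ i : ℕ, y + g * N + N < 2 ^ i * A := by
    refine ⟨y + g * N + N, ?_⟩
    calc y + g * N + N < 2 ^ (y + g * N + N) := Nat.lt_two_pow_self
      _ ≤ 2 ^ (y + g * N + N) * A := Nat.le_mul_of_pos_right _ hApos
  have := hP i i 0 (by omega) y (by simpa using hi)
  simpa [hD] using this

theorem lemR (u : ℕ → ℝ) (ρ₂ ρ₃ : ℝ) (N : ℕ) (hN : 0 < N)
    (h2 : ∀ r < 2, ∀ k, u (2 * (k + N) + r) - ρ₂ * u (k + N) = u (2 * k + r) - ρ₂ * u k)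
    (h3 : ∀ r < 3, ∀ k, u (3 * (k + N) + r) - ρ₃ * u (k + N) = u (3 * k + r) - ρ₃ * u k) :
    ∃ P : ℕ, 0 < P ∧ ∃ c : ℝ, (∀ y, u (y + P) = u y + c) ∧ (c = 0 ∨ ρ₂ = 2) := by
  obtain ⟨a, b, A, B, hAB, hlt, hA⟩ := approx23 N hN
  have E2 := EE_base h2
  have E3 := EE_base h3
  have E2p := EE_pow (by norm_num) E2
  have E3p := EE_pow (by norm_num) E3
  have hgen : ∀ X : ℕ, (X = 2 ^ a ∨ X = 3 ^ b) → ∀ i : ℕ, ∃ ρ, EE u N (2 ^ i * X) ρ := by
    rintro X (rfl | rfl) i
    · exact ⟨_, EE_mul (by positivity) (E2p i) (E2p a)⟩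
    · exact ⟨_, EE_mul (by positivity) (E2p i) (E3p b)⟩
  have hper := incr_periodic hN hlt hA (hgen A (by tauto)) (hgen B (by tauto))
  set g := B - A with hg
  have hgpos : 0 < g := by omega
  -- g is odd
  have hA4 : 4 ≤ A := by
    have : 4 ≤ (3 * g + 1) * N := by nlinarith
    omega
  have hgodd : Odd g := by
    have hB4 : 4 ≤ B := by omega
    rcases hAB with ⟨h, h'⟩ | ⟨h, h'⟩
    · have ha : a ≠ 0 := by rintro rfl; simp at h; omega
      have e1 : Even A := by rw [h]; exact Nat.even_pow.2 ⟨even_two, ha⟩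
      have e2 : Odd B := by rw [h']; exact Odd.pow (by decide)
      exact Nat.Odd.sub_even hlt.le e2 e1
    · have ha : a ≠ 0 := by rintro rfl; simp at h'; omega
      have e1 : Odd A := by rw [h]; exact Odd.pow (by decide)
      have e2 : Even B := by rw [h']; exact Nat.even_pow.2 ⟨even_two, ha⟩
      exact Nat.Even.sub_odd hlt.le e2 e1
  have hcop : Nat.Coprime 2 g := (Nat.coprime_two_left).2 hgodd
  have hmod := Nat.ModEq.pow_totient hcop
  set e := Nat.totient g with he
  have hepos : 0 < e := Nat.totient_pos.2 hgpos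
  obtain ⟨t, ht⟩ : ∃ t, 2 ^ e = g * t + 1 := by
    have h1 : g ∣ 2 ^ e - 1 := (Nat.modEq_iff_dvd' (Nat.one_le_two_pow)).1 hmod.symm
    obtain ⟨t, ht⟩ := h1
    refine ⟨t, ?_⟩
    have : 1 ≤ 2 ^ e := Nat.one_le_two_pow
    omega
  have htpos : 0 < t := by
    rcases Nat.eq_zero_or_pos t with h | h
    · rw [h] at ht
      have : 2 ^ e = 1 := by simpa using ht
      rw [Nat.pow_eq_one] at this
      omega
    · exact h
  set C : ℕ → ℝ := fun y => u (y + g * N) - u y with hC
  have hCN : ∀ y, C (y + N) = C y := by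
    intro y
    have := hper y
    simp only [hC]
    rw [show y + N + g * N = y + g * N + N by ring]
    linarith
  have hCtN : ∀ s y, C (y + s * N) = C y := by
    intro s
    induction s with
    | zero => intro y; simp
    | succ s ih =>
      intro y
      rw [show y + (s + 1) * N = y + s * N + N by ring, hCN, ih]
  have hug : ∀ s y, u (y + s * (g * N)) = u y + s * C y := by
    intro s
    induction s with
    | zero => intro y; simp
    | succ s ih =>
      intro y
      have h1 : u (y + s * (g * N) + g * N) = u (y + s * (g * N)) + C (y + s * (g * N)) := by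
        simp only [hC]; ring
      rw [show y + (s + 1) * (g * N) = y + s * (g * N) + g * N by ring, h1, ih,
        show y + s * (g * N) = y + (s * g) * N by ring, hCtN]
      push_cast; ring
  -- the key identity
  have hG : ∀ y i, y < 2 ^ i → ρ₂ ^ i * (ρ₂ ^ e - 1) * (u N - u 0) = 2 ^ i * t * C y := by
    intro y i hy
    have f1 := EE_shift (E2p i) y hy
    have f2 := EE_shift (E2p (i + e)) y (lt_of_lt_of_le hy
      (Nat.pow_le_pow_right (by norm_num) (by omega)))
    have e1 : y + 2 ^ (i + e) * N = (y + 2 ^ i * N) + (2 ^ i * t) * (g * N) := by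
      rw [pow_add, ht]; ring
    rw [e1, hug, f1, hCtN] at f2
    push_cast at f2
    rw [pow_add] at f2
    linarith
  refine ⟨g * N, by positivity, ?_⟩
  by_cases hall : ∀ y, C y = 0
  · refine ⟨0, fun y => ?_, Or.inl rfl⟩
    have := hall y
    simp only [hC] at this
    linarith
  · push Not at hall
    obtain ⟨y0, hy0⟩ := hall
    have k1 := hG y0 y0 Nat.lt_two_pow_self
    have k2 := hG y0 (y0 + 1) (lt_trans Nat.lt_two_pow_self
      (Nat.pow_lt_pow_right (by norm_num) (by omega)))
    have hρ : ρ₂ = 2 := by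
      have h1 : ρ₂ * (2 ^ y0 * t * C y0) = 2 * (2 ^ y0 * t * C y0) := by
        rw [← k1]
        rw [pow_succ, pow_succ] at k2
        linear_combination k2 - 2 * k1
      have h2 : (2 : ℝ) ^ y0 * t * C y0 ≠ 0 := by
        have : (t : ℝ) ≠ 0 := by exact_mod_cast htpos.ne'
        positivity
      exact mul_right_cancel₀ h2 h1
    refine ⟨g * (u N - u 0), fun y => ?_, Or.inr hρ⟩
    have k3 := hG y y Nat.lt_two_pow_self
    rw [hρ] at k3
    have ht' : ((2 : ℝ) ^ e) = g * t + 1 := by exact_mod_cast ht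
    rw [ht'] at k3
    have htR : (t : ℝ) ≠ 0 := by exact_mod_cast htpos.ne'
    have h2y : (2 : ℝ) ^ y ≠ 0 := by positivity
    have h5 : C y = g * (u N - u 0) := by
      have : (2 : ℝ) ^ y * t * C y = 2 ^ y * t * (g * (u N - u 0)) := by
        rw [← k3]; ring
      exact mul_left_cancel₀ (mul_ne_zero h2y htR) this
    have : u (y + g * N) = u y + C y := by simp only [hC]; ring
    rw [this, h5]

end Pool.Agent.Helper866.Out
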