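import Pool.Agent.Helper866.OutRigid

set_option autoImplicit false

namespace Pool.Agent.Helper866.Out

theorem rigid (f : ℕ → ℝ) (hf : Function.Injective f)
    (hA : ∀ m r : ℕ, r < m → ∃ P : ℕ, 0 < P ∧ ∃ α β : ℕ → ℝ,
      (∀ k, 0 < α k ∧ f (m * k + r) = α k * f k + β k) ∧
      ∀ k j, α (k + P * j) = α k ∧ β (k + P * j) = β k) :
    ∃ P : ℕ, 0 < P ∧ ∀ y, ∃ κ : ℝ, ∀ j : ℕ, f (y + P * j) = f y + κ * j := by
  -- total choice functions
  have hA' : ∀ m r : ℕ, ∃ P : ℕ, 0 < P ∧ ∃ α β : ℕ → ℝ, r < m →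
      (∀ k, 0 < α k ∧ f (m * k + r) = α k * f k + β k) ∧
      ∀ k j, α (k + P * j) = α k ∧ β (k + P * j) = β k := by
    intro m r
    by_cases h : r < m
    · obtain ⟨P, hP, α, β, h1⟩ := hA m r h
      exact ⟨P, hP, α, β, fun _ => h1⟩
    · exact ⟨1, one_pos, 0, 0, fun h' => absurd h' h⟩
  choose P hP α β hαβ using hA'
  have hh : ∀ x : ℕ, ∃ h : ℝ, 0 < h ∧ ∃ Q : ℕ, 0 < Q ∧
      ∀ j, f (x + Q * j) - f x = h * (f (Q * j) - f 0) := by
    intro x
    obtain ⟨h1, h2⟩ := hαβ (x + 1) x (by omega)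
    obtain ⟨h3, h4⟩ := hαβ (x + 1) 0 (by omega)
    refine ⟨α (x + 1) x 0 / α (x + 1) 0 0, div_pos (h1 0).1 (h3 0).1,
      (x + 1) * (P (x + 1) x * P (x + 1) 0), mul_pos (by omega) (mul_pos (hP _ _) (hP _ _)), ?_⟩
    intro j
    set k := P (x + 1) x * P (x + 1) 0 * j with hk
    have e1 : x + (x + 1) * (P (x + 1) x * P (x + 1) 0) * j = (x + 1) * k + x := by
      rw [hk]; ring
    have e2 : (x + 1) * (P (x + 1) x * P (x + 1) 0) * j = (x + 1) * k + 0 := by
      rw [hk]; ring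
    have e3 : k = 0 + P (x + 1) x * (P (x + 1) 0 * j) := by rw [hk]; ring
    have e4 : k = 0 + P (x + 1) 0 * (P (x + 1) x * j) := by rw [hk]; ring
    have a1 := (h1 k).2
    have a2 := (h1 0).2
    have a3 := (h3 k).2
    have a4 := (h3 0).2
    have b1 := h2 0 (P (x + 1) 0 * j)
    have b2 := h4 0 (P (x + 1) x * j)
    rw [← e3] at b1
    rw [← e4] at b2
    rw [b1.1, b1.2] at a1
    rw [b2.1, b2.2] at a3
    simp only [mul_zero, zero_add] at a2 a4
    rw [e1, e2, a1, a3]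
    have hne : α (x + 1) 0 0 ≠ 0 := (h3 0).1.ne'
    field_simp
    linear_combination (-(α (x + 1) 0 0)) * a2 + (α (x + 1) x 0) * a4
  choose h hhpos Q hQ hhQ using hh
  have hpi : ∀ m : ℕ, 0 < m → ∃ ρ : ℝ, 0 < ρ ∧ ∃ R : ℕ, 0 < R ∧
      ∀ j, f (m * (R * j)) - f 0 = ρ * (f (R * j) - f 0) := by
    intro m hm
    obtain ⟨h3, h4⟩ := hαβ m 0 hm
    refine ⟨α m 0 0, (h3 0).1, P m 0, hP _ _, fun j => ?_⟩
    have a3 := (h3 (P m 0 * j)).2
    have a4 := (h3 0).2
    have b2 := h4 0 j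
    rw [zero_add] at b2
    rw [b2.1, b2.2] at a3
    simp only [mul_zero, add_zero] at a3 a4
    rw [a3]
    linear_combination -a4
  have ratio : ∀ m r k : ℕ, r < m → ∀ ρ : ℝ, (∃ R : ℕ, 0 < R ∧
      ∀ j, f (m * (R * j)) - f 0 = ρ * (f (R * j) - f 0)) →
      α m r k * h k = h (m * k + r) * ρ := by
    rintro m r k hr ρ ⟨R, hR, hρ⟩
    obtain ⟨h1, h2⟩ := hαβ m r hr
    set q := P m r * Q k * Q (m * k + r) * R with hq
    have hq0 : 0 < q := mul_pos (mul_pos (mul_pos (hP _ _) (hQ _)) (hQ _)) hR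
    have i1 := (h1 (k + q)).2
    have i2 := (h1 k).2
    have i3 := h2 k (Q k * Q (m * k + r) * R)
    rw [show P m r * (Q k * Q (m * k + r) * R) = q by rw [hq]; ring] at i3
    rw [i3.1, i3.2] at i1
    have i4 := hhQ k (P m r * Q (m * k + r) * R)
    rw [show Q k * (P m r * Q (m * k + r) * R) = q by rw [hq]; ring] at i4
    have i5 := hhQ (m * k + r) (m * (P m r * Q k * R))
    rw [show Q (m * k + r) * (m * (P m r * Q k * R)) = m * q by rw [hq]; ring] at i5
    have i6 := hρ (P m r * Q k * Q (m * k + r))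
    rw [show R * (P m r * Q k * Q (m * k + r)) = q by rw [hq]; ring] at i6
    rw [show m * (k + q) + r = m * k + r + m * q by ring] at i1
    have hne : f q - f 0 ≠ 0 := by
      intro hc
      have := hf (sub_eq_zero.1 hc)
      omega
    have : (f q - f 0) * (α m r k * h k) = (f q - f 0) * (h (m * k + r) * ρ) := by
      calc (f q - f 0) * (α m r k * h k) = α m r k * (h k * (f q - f 0)) := by ring
        _ = α m r k * (f (k + q) - f k) := by rw [i4]
        _ = f (m * k + r + m * q) - f (m * k + r) := by rw [i1, i2]; ring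
        _ = h (m * k + r) * (f (m * q) - f 0) := i5
        _ = (f q - f 0) * (h (m * k + r) * ρ) := by rw [i6]; ring
    exact mul_left_cancel₀ hne this
  obtain ⟨ρ₂, hρ₂, hR2⟩ := hpi 2 (by norm_num)
  obtain ⟨ρ₃, hρ₃, hR3⟩ := hpi 3 (by norm_num)
  -- common period of the coefficient functions
  obtain ⟨N, hN, hN2, hN3⟩ : ∃ N : ℕ, 0 < N ∧
      (∀ r < 2, ∀ k j, α 2 r (k + N * j) = α 2 r k ∧ β 2 r (k + N * j) = β 2 r k) ∧
      (∀ r < 3, ∀ k j, α 3 r (k + N * j) = α 3 r k ∧ β 3 r (k + N * j) = β 3 r k) := by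
    refine ⟨P 2 0 * P 2 1 * (P 3 0 * P 3 1 * P 3 2), mul_pos (mul_pos (hP _ _) (hP _ _))
      (mul_pos (mul_pos (hP _ _) (hP _ _)) (hP _ _)), ?_, ?_⟩
    · intro r hr k j
      obtain ⟨_, h2⟩ := hαβ 2 r hr
      interval_cases r
      · rw [show k + P 2 0 * P 2 1 * (P 3 0 * P 3 1 * P 3 2) * j =
          k + P 2 0 * (P 2 1 * (P 3 0 * P 3 1 * P 3 2) * j) by ring]
        exact h2 _ _
      · rw [show k + P 2 0 * P 2 1 * (P 3 0 * P 3 1 * P 3 2) * j =
          k + P 2 1 * (P 2 0 * (P 3 0 * P 3 1 * P 3 2) * j) by ring]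
        exact h2 _ _
    · intro r hr k j
      obtain ⟨_, h2⟩ := hαβ 3 r hr
      interval_cases r
      · rw [show k + P 2 0 * P 2 1 * (P 3 0 * P 3 1 * P 3 2) * j =
          k + P 3 0 * (P 2 0 * P 2 1 * (P 3 1 * P 3 2) * j) by ring]
        exact h2 _ _
      · rw [show k + P 2 0 * P 2 1 * (P 3 0 * P 3 1 * P 3 2) * j =
          k + P 3 1 * (P 2 0 * P 2 1 * (P 3 0 * P 3 2) * j) by ring]
        exact h2 _ _
      · rw [show k + P 2 0 * P 2 1 * (P 3 0 * P 3 1 * P 3 2) * j =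
          k + P 3 2 * (P 2 0 * P 2 1 * (P 3 0 * P 3 1) * j) by ring]
        exact h2 _ _
  -- step 1 : h is periodic
  have hlog : ∀ m : ℕ, ∀ ρ : ℝ, 0 < ρ → (∃ R : ℕ, 0 < R ∧
      ∀ j, f (m * (R * j)) - f 0 = ρ * (f (R * j) - f 0)) →
      (∀ r < m, ∀ k j, α m r (k + N * j) = α m r k ∧ β m r (k + N * j) = β m r k) →
      ∀ r < m, ∀ k, Real.log (h (m * (k + N) + r)) - 1 * Real.log (h (k + N)) =
        Real.log (h (m * k + r)) - 1 * Real.log (h k) := by
    intro m ρ hρ hR hper r hr k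
    have e1 := ratio m r k hr ρ hR
    have e2 := ratio m r (k + N) hr ρ hR
    have e3 := (hper r hr k 1).1
    rw [mul_one] at e3
    rw [e3] at e2
    have hα : 0 < α m r k := ((hαβ m r hr).1 k).1
    have l1 : Real.log (α m r k) + Real.log (h k) = Real.log (h (m * k + r)) + Real.log ρ := by
      rw [← Real.log_mul hα.ne' (hhpos k).ne', ← Real.log_mul (hhpos _).ne' hρ.ne', e1]
    have l2 : Real.log (α m r k) + Real.log (h (k + N)) =
        Real.log (h (m * (k + N) + r)) + Real.log ρ := by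
      rw [← Real.log_mul hα.ne' (hhpos _).ne', ← Real.log_mul (hhpos _).ne' hρ.ne', e2]
    linarith
  obtain ⟨T, hT, c, hTc, hc⟩ := lemR (fun n => Real.log (h n)) 1 1 N hN
    (hlog 2 ρ₂ hρ₂ hR2 hN2) (hlog 3 ρ₃ hρ₃ hR3 hN3)
  have hc0 : c = 0 := by
    rcases hc with h | h
    · exact h
    · norm_num at h
  have hhT : ∀ y, h (y + T) = h y := by
    intro y
    have := hTc y
    rw [hc0, add_zero] at this
    exact Real.log_injOn_pos (hhpos _) (hhpos _) this
  have hhTj : ∀ j y, h (y + T * j) = h y := by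
    intro j
    induction j with
    | zero => intro y; simp
    | succ j ih =>
      intro y
      rw [show y + T * (j + 1) = y + T * j + T by ring, hhT, ih]
  -- step 2 : f / h is quasi-linear
  have hu : ∀ m : ℕ, ∀ ρ : ℝ, 0 < ρ → (∃ R : ℕ, 0 < R ∧
      ∀ j, f (m * (R * j)) - f 0 = ρ * (f (R * j) - f 0)) →
      (∀ r < m, ∀ k j, α m r (k + N * j) = α m r k ∧ β m r (k + N * j) = β m r k) →
      ∀ r < m, ∀ k, f (m * (k + N * T) + r) / h (m * (k + N * T) + r) -
          ρ * (f (k + N * T) / h (k + N * T)) =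
        f (m * k + r) / h (m * k + r) - ρ * (f k / h k) := by
    intro m ρ hρ hR hper r hr k
    have e1 := ratio m r k hr ρ hR
    obtain ⟨h1, _⟩ := hαβ m r hr
    have i1 := (h1 (k + N * T)).2
    have i2 := (h1 k).2
    obtain ⟨e3, e4⟩ := hper r hr k T
    rw [e3, e4] at i1
    have e5 : h (k + N * T) = h k := by
      rw [show k + N * T = k + T * N by ring]; exact hhTj N k
    have e6 : h (m * (k + N * T) + r) = h (m * k + r) := by
      rw [show m * (k + N * T) + r = m * k + r + T * (m * N) by ring]; exact hhTj _ _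
    rw [e5, e6, i1, i2]
    have n1 := (hhpos k).ne'
    have n2 := (hhpos (m * k + r)).ne'
    field_simp
    linear_combination (f (k + N * T) - f k) * e1
  obtain ⟨T', hT', c', hT'c, _⟩ := lemR (fun n => f n / h n) ρ₂ ρ₃ (N * T) (mul_pos hN hT)
    (hu 2 ρ₂ hρ₂ hR2 hN2) (hu 3 ρ₃ hρ₃ hR3 hN3)
  have hT'j : ∀ j y, f (y + T' * j) / h (y + T' * j) = f y / h y + c' * j := by
    intro j
    induction j with
    | zero => intro y; simp
    | succ j ih =>
      intro y
      have := hT'c (y + T' * j)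
      rw [show y + T' * (j + 1) = y + T' * j + T' by ring, this, ih]
      push_cast; ring
  refine ⟨T' * T, mul_pos hT' hT, fun y => ⟨h y * (c' * T), fun j => ?_⟩⟩
  have e1 := hT'j (T * j) y
  have e2 : h (y + T' * (T * j)) = h y := by
    rw [show T' * (T * j) = T * (T' * j) by ring]; exact hhTj _ _
  rw [e2] at e1
  rw [show y + T' * T * j = y + T' * (T * j) by ring]
  have n1 := (hhpos y).ne'
  field_simp at e1
  push_cast at e1
  rw [e1]; ring

end Pool.Agent.Helper866.Out
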