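import Mathlib

set_option autoImplicit false

open scoped LinearAlgebra.Projectivization ComplexConjugate

namespace Pool.Agent.Results.MP_c41128_gt.FuchsianMissingDivisor

/-- The golden ratio as a complex number. -/
noncomputable def phi : ℂ := (Real.goldenRatio : ℂ)

/-- The multiplier `exp (iπ/5)`. -/
noncomputable def mu : ℂ := Complex.exp (Real.pi * Complex.I / 5)

/-- Hermitian form. -/
noncomputable def herm (x y : Fin 3 → ℂ) : ℂ :=
  x 0 * conj (y 0) + x 1 * conj (y 1) + x 2 * conj (y 2)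
    - phi * (x 0 * conj (y 1) + x 1 * conj (y 0) + x 1 * conj (y 2) + x 2 * conj (y 1))

/-- The four roots. -/
noncomputable def root : Fin 4 → Fin 3 → ℂ :=
  ![![1, 0, 0], ![0, 1, 0], ![0, 0, 1], ![1, phi - 1, 1 - phi]]

lemma phi_sq : phi ^ 2 = phi + 1 := by
  unfold phi
  exact_mod_cast congrArg (fun x : ℝ => (x : ℂ)) Real.goldenRatio_sq

lemma conj_phi : conj phi = phi := by
  unfold phi; exact Complex.conj_ofReal _

lemma mu_pow_five : mu ^ 5 = -1 := by
  unfold mu
  rw [← Complex.exp_nat_mul]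
  have : ((5 : ℕ) : ℂ) * (Real.pi * Complex.I / 5) = Real.pi * Complex.I := by
    push_cast; ring
  rw [this, Complex.exp_pi_mul_I]

lemma mu_eq : mu = ((Real.cos (Real.pi / 5) : ℝ) : ℂ) + ((Real.sin (Real.pi / 5) : ℝ) : ℂ) * Complex.I := by
  unfold mu
  have : (Real.pi : ℂ) * Complex.I / 5 = ((Real.pi / 5 : ℝ) : ℂ) * Complex.I := by
    push_cast; ring
  rw [this, Complex.exp_mul_I, ← Complex.ofReal_cos, ← Complex.ofReal_sin]

lemma mu_add_conj : mu + conj mu = phi := by
  have h1 : Real.cos (Real.pi / 5) = (1 + Real.sqrt 5) / 4 := Real.cos_pi_div_five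
  rw [mu_eq]
  simp only [map_add, map_mul, Complex.conj_ofReal, Complex.conj_I]
  rw [h1]
  unfold phi Real.goldenRatio
  push_cast
  ring

lemma mu_mul_conj : mu * conj mu = 1 := by
  rw [Complex.mul_conj, Complex.normSq_eq_norm_sq]
  have : ‖mu‖ = 1 := by
    unfold mu
    have : (Real.pi : ℂ) * Complex.I / 5 = ((Real.pi / 5 : ℝ) : ℂ) * Complex.I := by
      push_cast; ring
    rw [this, Complex.norm_exp_ofReal_mul_I]
  rw [this]; norm_num

lemma herm_root_self (i : Fin 4) : herm (root i) (root i) = 1 := by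
  have h := phi_sq
  have hc := conj_phi
  fin_cases i <;> simp [herm, root, hc] <;> linear_combination (2 * phi - 2) * h

/-- Gram matrix of the four roots: `1` on the diagonal, `-φ` for neighbours, `0` otherwise. -/
lemma herm_root (i j : Fin 4) : herm (root i) (root j) =
    if i = j then 1 else if i.val + 1 = j.val ∨ j.val + 1 = i.val then -phi else 0 := by
  have h := phi_sq
  have hc := conj_phi
  fin_cases i <;> fin_cases j <;> simp [herm, root, hc]
  all_goals first
    | ring1
    | linear_combination h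
    | linear_combination -h
    | linear_combination (2 * phi - 2) * h

lemma herm_add_left (x y z : Fin 3 → ℂ) : herm (x + y) z = herm x z + herm y z := by
  simp only [herm, Pi.add_apply]; ring

lemma herm_smul_left (c : ℂ) (x z : Fin 3 → ℂ) : herm (c • x) z = c * herm x z := by
  simp only [herm, Pi.smul_apply, smul_eq_mul]; ring

/-- The half twist exchanging the cone points `i` and `i + 1`: the complex reflection of angle
`π / 5` in the root `root i`. -/
noncomputable def halfTwist (i : Fin 4) : (Fin 3 → ℂ) ≃ₗ[ℂ] (Fin 3 → ℂ) where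
  toFun x := x + ((mu - 1) * herm x (root i)) • root i
  invFun x := x + ((conj mu - 1) * herm x (root i)) • root i
  map_add' x y := by
    rw [herm_add_left]; ext j; simp only [Pi.add_apply, Pi.smul_apply, smul_eq_mul]; ring
  map_smul' c x := by
    rw [herm_smul_left]; ext j
    simp only [Pi.add_apply, Pi.smul_apply, smul_eq_mul, RingHom.id_apply]; ring
  left_inv x := by
    have h := mu_mul_conj
    beta_reduce
    rw [herm_add_left, herm_smul_left, herm_root_self]
    ext j
    simp only [Pi.add_apply, Pi.smul_apply, smul_eq_mul]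
    linear_combination (herm x (root i) * root i j) * h
  right_inv x := by
    have h := mu_mul_conj
    beta_reduce
    rw [herm_add_left, herm_smul_left, herm_root_self]
    ext j
    simp only [Pi.add_apply, Pi.smul_apply, smul_eq_mul]
    linear_combination (herm x (root i) * root i j) * h

/-- Thurston's lattice for five unlabelled cone points, generated by the half twists. -/
noncomputable def DeltaFull : Subgroup ((Fin 3 → ℂ) ≃ₗ[ℂ] (Fin 3 → ℂ)) :=
  Subgroup.closure (Set.range halfTwist)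

/-- Thurston's lattice for five labelled cone points, generated by all full twists. -/
noncomputable def DeltaPure : Subgroup ((Fin 3 → ℂ) ≃ₗ[ℂ] (Fin 3 → ℂ)) :=
  Subgroup.closure {g | ∃ h ∈ DeltaFull, ∃ i, g = h * halfTwist i ^ 2 * h⁻¹}

/-- The complex hyperbolic plane: negative lines. -/
def hypPlane : Set (ℙ ℂ (Fin 3 → ℂ)) :=
  {p | (herm p.rep p.rep).re < 0}

/-- Preimage in the complex hyperbolic plane of the locus where two cone points have collided. -/
def collisionLocus : Set (ℙ ℂ (Fin 3 → ℂ)) :=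
  {p | p ∈ hypPlane ∧ ∃ g ∈ DeltaFull, ∃ i, herm p.rep (g (root i)) = 0}

/-- `W` is a real form of `ℂ³` on which the Hermitian form is real and takes a negative value. -/
def IsRealPlane (W : Submodule ℝ (Fin 3 → ℂ)) : Prop :=
  Module.finrank ℝ W = 3 ∧ Submodule.span ℂ (W : Set (Fin 3 → ℂ)) = ⊤ ∧
    (∀ x ∈ W, ∀ y ∈ W, (herm x y).im = 0) ∧ ∃ x ∈ W, (herm x x).re < 0

/-- The totally real totally geodesic plane given by `W`. -/
def planeOf (W : Submodule ℝ (Fin 3 → ℂ)) : Set (ℙ ℂ (Fin 3 → ℂ)) :=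
  {p | p ∈ hypPlane ∧ ∃ w ∈ W, ∃ hw : w ≠ 0, p = Projectivization.mk ℂ w hw}

/-- Bounded subsets of `F` are finite. -/
def IsDiscreteGroup (F : Subgroup ((Fin 3 → ℂ) ≃ₗ[ℂ] (Fin 3 → ℂ))) : Prop :=
  ∀ R : ℝ, {g | g ∈ F ∧ ∀ x, ‖g x‖ ≤ R * ‖x‖}.Finite

/-- `F` is a discrete group of isometries of the Hermitian form preserving the real form `W`. -/
def IsRFuchsian (F : Subgroup ((Fin 3 → ℂ) ≃ₗ[ℂ] (Fin 3 → ℂ))) (W : Submodule ℝ (Fin 3 → ℂ)) :
    Prop :=
  IsRealPlane W ∧ IsDiscreteGroup F ∧
    ∀ g ∈ F, (∀ x y, herm (g x) (g y) = herm x y) ∧ ∀ w, g w ∈ W ↔ w ∈ W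

/-- `F` acts cocompactly on the plane of `W`: a compact set of negative vectors of `W` meets,
up to real scaling, every orbit. -/
def ActsCocompactly (F : Subgroup ((Fin 3 → ℂ) ≃ₗ[ℂ] (Fin 3 → ℂ)))
    (W : Submodule ℝ (Fin 3 → ℂ)) : Prop :=
  ∃ K : Set (Fin 3 → ℂ), IsCompact K ∧ (∀ w ∈ K, w ∈ W ∧ (herm w w).re < 0) ∧
    ∀ w ∈ W, (herm w w).re < 0 → ∃ g ∈ F, ∃ r : ℝ, r ≠ 0 ∧ r • g w ∈ K

end Pool.Agent.Results.MP_c41128_gt.FuchsianMissingDivisor
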