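import Pool.Agent.Helper866.ThurstonDefs

set_option autoImplicit false

namespace Pool.Agent.Results.MP_c41128_gt.FuchsianMissingDivisor

/-- Integers of the fifth cyclotomic field, `a + b ζ + c ζ² + d ζ³`. -/
@[ext] structure Z5 where
  a : ℤ
  b : ℤ
  c : ℤ
  d : ℤ
deriving DecidableEq

namespace Z5

instance : Zero Z5 := ⟨⟨0, 0, 0, 0⟩⟩
instance : One Z5 := ⟨⟨1, 0, 0, 0⟩⟩
instance : Add Z5 := ⟨fun x y => ⟨x.a + y.a, x.b + y.b, x.c + y.c, x.d + y.d⟩⟩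
instance : Neg Z5 := ⟨fun x => ⟨-x.a, -x.b, -x.c, -x.d⟩⟩
instance : Sub Z5 := ⟨fun x y => ⟨x.a - y.a, x.b - y.b, x.c - y.c, x.d - y.d⟩⟩
instance : Mul Z5 := ⟨fun x y =>
  ⟨x.a * y.a + x.c * y.d + x.d * y.c - (x.b * y.d + x.c * y.c + x.d * y.b),
   x.a * y.b + x.b * y.a + x.d * y.d - (x.b * y.d + x.c * y.c + x.d * y.b),
   x.a * y.c + x.b * y.b + x.c * y.a - (x.b * y.d + x.c * y.c + x.d * y.b),
   x.a * y.d + x.b * y.c + x.c * y.b + x.d * y.a - (x.b * y.d + x.c * y.c + x.d * y.b)⟩⟩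

@[simp] lemma zero_a : (0 : Z5).a = 0 := rfl
@[simp] lemma zero_b : (0 : Z5).b = 0 := rfl
@[simp] lemma zero_c : (0 : Z5).c = 0 := rfl
@[simp] lemma zero_d : (0 : Z5).d = 0 := rfl
@[simp] lemma one_a : (1 : Z5).a = 1 := rfl
@[simp] lemma one_b : (1 : Z5).b = 0 := rfl
@[simp] lemma one_c : (1 : Z5).c = 0 := rfl
@[simp] lemma one_d : (1 : Z5).d = 0 := rfl
@[simp] lemma add_a (x y : Z5) : (x + y).a = x.a + y.a := rfl
@[simp] lemma add_b (x y : Z5) : (x + y).b = x.b + y.b := rfl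
@[simp] lemma add_c (x y : Z5) : (x + y).c = x.c + y.c := rfl
@[simp] lemma add_d (x y : Z5) : (x + y).d = x.d + y.d := rfl
@[simp] lemma neg_a (x : Z5) : (-x).a = -x.a := rfl
@[simp] lemma neg_b (x : Z5) : (-x).b = -x.b := rfl
@[simp] lemma neg_c (x : Z5) : (-x).c = -x.c := rfl
@[simp] lemma neg_d (x : Z5) : (-x).d = -x.d := rfl
@[simp] lemma sub_a (x y : Z5) : (x - y).a = x.a - y.a := rfl
@[simp] lemma sub_b (x y : Z5) : (x - y).b = x.b - y.b := rfl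
@[simp] lemma sub_c (x y : Z5) : (x - y).c = x.c - y.c := rfl
@[simp] lemma sub_d (x y : Z5) : (x - y).d = x.d - y.d := rfl
@[simp] lemma mul_a (x y : Z5) : (x * y).a =
  x.a * y.a + x.c * y.d + x.d * y.c - (x.b * y.d + x.c * y.c + x.d * y.b) := rfl
@[simp] lemma mul_b (x y : Z5) : (x * y).b =
  x.a * y.b + x.b * y.a + x.d * y.d - (x.b * y.d + x.c * y.c + x.d * y.b) := rfl
@[simp] lemma mul_c (x y : Z5) : (x * y).c =
  x.a * y.c + x.b * y.b + x.c * y.a - (x.b * y.d + x.c * y.c + x.d * y.b) := rfl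
@[simp] lemma mul_d (x y : Z5) : (x * y).d =
  x.a * y.d + x.b * y.c + x.c * y.b + x.d * y.a - (x.b * y.d + x.c * y.c + x.d * y.b) := rfl

instance : CommRing Z5 where
  add_assoc x y z := by ext <;> simp <;> ring
  zero_add x := by ext <;> simp
  add_zero x := by ext <;> simp
  add_comm x y := by ext <;> simp <;> ring
  left_distrib x y z := by ext <;> simp <;> ring
  right_distrib x y z := by ext <;> simp <;> ring
  zero_mul x := by ext <;> simp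
  mul_zero x := by ext <;> simp
  mul_assoc x y z := by ext <;> simp <;> ring
  one_mul x := by ext <;> simp
  mul_one x := by ext <;> simp
  mul_comm x y := by ext <;> simp <;> ring
  neg_add_cancel x := by ext <;> simp
  sub_eq_add_neg x y := by ext <;> simp <;> ring
  nsmul := nsmulRec
  zsmul := zsmulRec

/-- Complex conjugation. -/
def conj (x : Z5) : Z5 := ⟨x.a - x.b, -x.b, x.d - x.b, x.c - x.b⟩

@[simp] lemma conj_a (x : Z5) : (conj x).a = x.a - x.b := rfl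
@[simp] lemma conj_b (x : Z5) : (conj x).b = -x.b := rfl
@[simp] lemma conj_c (x : Z5) : (conj x).c = x.d - x.b := rfl
@[simp] lemma conj_d (x : Z5) : (conj x).d = x.c - x.b := rfl

lemma conj_mul (x y : Z5) : conj (x * y) = conj x * conj y := by
  ext <;> simp <;> ring
lemma conj_add (x y : Z5) : conj (x + y) = conj x + conj y := by
  ext <;> simp <;> ring
lemma conj_sub (x y : Z5) : conj (x - y) = conj x - conj y := by
  ext <;> simp <;> ring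
lemma conj_neg (x : Z5) : conj (-x) = -conj x := by
  ext <;> simp <;> ring
lemma conj_conj (x : Z5) : conj (conj x) = x := by
  ext <;> simp

/-- Evaluation at a primitive fifth root of unity. -/
noncomputable def ev (z : ℂ) (x : Z5) : ℂ := x.a + x.b * z + x.c * z ^ 2 + x.d * z ^ 3

lemma ev_add (z : ℂ) (x y : Z5) : ev z (x + y) = ev z x + ev z y := by
  simp only [ev, add_a, add_b, add_c, add_d]; push_cast; ring
lemma ev_sub (z : ℂ) (x y : Z5) : ev z (x - y) = ev z x - ev z y := by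
  simp only [ev, sub_a, sub_b, sub_c, sub_d]; push_cast; ring
lemma ev_neg (z : ℂ) (x : Z5) : ev z (-x) = -ev z x := by
  simp only [ev, neg_a, neg_b, neg_c, neg_d]; push_cast; ring
lemma ev_mul {z : ℂ} (hz : 1 + z + z ^ 2 + z ^ 3 + z ^ 4 = 0) (x y : Z5) :
    ev z (x * y) = ev z x * ev z y := by
  simp only [ev, mul_a, mul_b, mul_c, mul_d]; push_cast
  linear_combination (-(x.b * y.d + x.c * y.c + x.d * y.b : ℂ) +
    (x.c * y.d + x.d * y.c : ℂ) * (1 - z) + (x.d * y.d : ℂ) * (z - z ^ 2)) * hz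
lemma ev_zero (z : ℂ) : ev z 0 = 0 := by simp [ev]
lemma ev_one (z : ℂ) : ev z 1 = 1 := by simp [ev]

end Z5



/-- Three by three matrices over `Z5`. -/
@[ext] structure M3 where
  m00 : Z5
  m01 : Z5
  m02 : Z5
  m10 : Z5
  m11 : Z5
  m12 : Z5
  m20 : Z5
  m21 : Z5
  m22 : Z5
deriving DecidableEq

namespace M3

def mul (A B : M3) : M3 :=
  ⟨A.m00 * B.m00 + A.m01 * B.m10 + A.m02 * B.m20,
   A.m00 * B.m01 + A.m01 * B.m11 + A.m02 * B.m21,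
   A.m00 * B.m02 + A.m01 * B.m12 + A.m02 * B.m22,
   A.m10 * B.m00 + A.m11 * B.m10 + A.m12 * B.m20,
   A.m10 * B.m01 + A.m11 * B.m11 + A.m12 * B.m21,
   A.m10 * B.m02 + A.m11 * B.m12 + A.m12 * B.m22,
   A.m20 * B.m00 + A.m21 * B.m10 + A.m22 * B.m20,
   A.m20 * B.m01 + A.m21 * B.m11 + A.m22 * B.m21,
   A.m20 * B.m02 + A.m21 * B.m12 + A.m22 * B.m22⟩

def one : M3 := ⟨1, 0, 0, 0, 1, 0, 0, 0, 1⟩

def scal (c : Z5) (A : M3) : M3 :=
  ⟨c * A.m00, c * A.m01, c * A.m02, c * A.m10, c * A.m11, c * A.m12,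
   c * A.m20, c * A.m21, c * A.m22⟩

lemma mul_assoc (A B C : M3) : mul (mul A B) C = mul A (mul B C) := by
  ext1 <;> simp only [mul] <;> ring

lemma one_mul (A : M3) : mul one A = A := by
  ext1 <;> simp only [mul, one] <;> ring

lemma mul_one (A : M3) : mul A one = A := by
  ext1 <;> simp only [mul, one] <;> ring

/-- action of an integral matrix on complex vectors, at the place `z` -/
noncomputable def act (z : ℂ) (A : M3) (x : Fin 3 → ℂ) : Fin 3 → ℂ :=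
  ![Z5.ev z A.m00 * x 0 + Z5.ev z A.m01 * x 1 + Z5.ev z A.m02 * x 2,
    Z5.ev z A.m10 * x 0 + Z5.ev z A.m11 * x 1 + Z5.ev z A.m12 * x 2,
    Z5.ev z A.m20 * x 0 + Z5.ev z A.m21 * x 1 + Z5.ev z A.m22 * x 2]

lemma act_mul {z : ℂ} (hz : 1 + z + z ^ 2 + z ^ 3 + z ^ 4 = 0) (A B : M3) (x : Fin 3 → ℂ) :
    act z (mul A B) x = act z A (act z B x) := by
  ext j
  fin_cases j <;> simp [act, mul, Z5.ev_add, Z5.ev_mul hz] <;> ring

lemma act_one (z : ℂ) (x : Fin 3 → ℂ) : act z one x = x := by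
  ext j
  fin_cases j <;> simp [act, one, Z5.ev_one, Z5.ev_zero]

end M3

/-- integral vectors -/
@[ext] structure V3 where
  x : Z5
  y : Z5
  z : Z5
deriving DecidableEq

namespace V3

def smul (c : Z5) (v : V3) : V3 := ⟨c * v.x, c * v.y, c * v.z⟩

noncomputable def ev (w : ℂ) (v : V3) : Fin 3 → ℂ := ![Z5.ev w v.x, Z5.ev w v.y, Z5.ev w v.z]

end V3

namespace M3

def app (A : M3) (v : V3) : V3 :=
  ⟨A.m00 * v.x + A.m01 * v.y + A.m02 * v.z,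
   A.m10 * v.x + A.m11 * v.y + A.m12 * v.z,
   A.m20 * v.x + A.m21 * v.y + A.m22 * v.z⟩

lemma app_mul (A B : M3) (v : V3) : app (mul A B) v = app A (app B v) := by
  ext1 <;> simp only [mul, app] <;> ring

lemma act_ev {z : ℂ} (hz : 1 + z + z ^ 2 + z ^ 3 + z ^ 4 = 0) (A : M3) (v : V3) :
    act z A (V3.ev z v) = V3.ev z (app A v) := by
  ext j
  fin_cases j <;> simp [act, app, V3.ev, Z5.ev_add, Z5.ev_mul hz]

end M3

/-- the golden ratio in `Z5` -/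
def ph : Z5 := ⟨0, 0, -1, -1⟩
/-- `ζ` -/
def ze : Z5 := ⟨0, 1, 0, 0⟩
/-- `ζ - ζ⁻¹` -/
def th : Z5 := ⟨1, 2, 1, 1⟩
/-- `2 + φ = - θ²` -/
def tt : Z5 := ⟨2, 0, -1, -1⟩

/-- integral Hermitian norm in the basis of roots -/
def hnorm (v : V3) : Z5 :=
  v.x * v.x.conj + v.y * v.y.conj + v.z * v.z.conj
   - ph * (v.x * v.y.conj + v.y * v.x.conj + v.y * v.z.conj + v.z * v.y.conj)

/-- matrix whose columns are an orthogonal basis, norms `4, 4, -4φ` -/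
def BB : M3 := ⟨⟨1, 2, 0, 2⟩, ⟨0, 0, 1, 1⟩, ⟨1, 1, 1, 0⟩,
  ⟨-1, -2, 0, -2⟩, ⟨-2, 0, -1, -1⟩, ⟨1, 1, 1, 0⟩,
  ⟨1, 1, 0, 1⟩, ⟨2, 0, 0, 1⟩, ⟨1, 1, 1, 1⟩⟩

/-- `4 BB⁻¹` -/
def CC : M3 := ⟨⟨-1, -2, -1, -1⟩, ⟨1, 2, 2, 1⟩, ⟨0, -1, -1, 0⟩,
  ⟨-1, 0, 0, 0⟩, ⟨-1, -1, -1, -1⟩, ⟨1, 0, 0, -1⟩,
  ⟨1, 0, 0, 1⟩, ⟨1, -1, 0, 1⟩, ⟨1, -1, 0, 0⟩⟩

lemma CC_BB : M3.mul CC BB = ⟨⟨4, 0, 0, 0⟩, 0, 0, 0, ⟨4, 0, 0, 0⟩, 0, 0, 0, ⟨4, 0, 0, 0⟩⟩ := by
  decide +kernel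
lemma BB_CC : M3.mul BB CC = ⟨⟨4, 0, 0, 0⟩, 0, 0, 0, ⟨4, 0, 0, 0⟩, 0, 0, 0, ⟨4, 0, 0, 0⟩⟩ := by
  decide +kernel

/-- the diagonal Hermitian norm -/
def dnorm (v : V3) : Z5 := v.x * v.x.conj + v.y * v.y.conj - ph * (v.z * v.z.conj)

/-- the symmetric form `4 h(e, σ e)` in diagonal coordinates -/
def TT (v : V3) : Z5 := v.x * v.x - v.y * v.y - ph * (v.z * v.z)

lemma dnorm_CC (v : V3) : dnorm (M3.app CC v) = ⟨4, 0, 0, 0⟩ * hnorm v := by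
  obtain ⟨⟨x0, x1, x2, x3⟩, ⟨y0, y1, y2, y3⟩, ⟨z0, z1, z2, z3⟩⟩ := v
  ext <;> simp [dnorm, hnorm, M3.app, CC, ph] <;> ring



/-! ### reduction modulo `5` -/

def p0 (x : Z5) : ZMod 5 := (x.a : ZMod 5) + x.b + x.c + x.d
def p1 (x : Z5) : ZMod 5 := 3 * (x.b : ZMod 5) + x.c + 4 * x.d
def p2 (x : Z5) : ZMod 5 := 2 * (x.b : ZMod 5) + 3 * x.c + 3 * x.d

lemma h5 : (5 : ZMod 5) = 0 := by decide

lemma p0_mul (x y : Z5) : p0 (x * y) = p0 x * p0 y := by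
  simp only [p0, Z5.mul_a, Z5.mul_b, Z5.mul_c, Z5.mul_d]; push_cast
  linear_combination ((-1) * x.b * y.d + (-1) * x.c * y.c + (-1) * x.d * y.b : ZMod 5) * h5
lemma p1_mul (x y : Z5) : p1 (x * y) = p0 x * p1 y + p1 x * p0 y := by
  simp only [p0, p1, Z5.mul_a, Z5.mul_b, Z5.mul_c, Z5.mul_d]; push_cast
  linear_combination ((-1) * x.b * y.b + (-3) * x.b * y.d + (-2) * x.c * y.c
    + (-1) * x.c * y.d + (-3) * x.d * y.b + (-1) * x.d * y.c + (-1) * x.d * y.d : ZMod 5) * h5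
lemma p2_mul (x y : Z5) : p2 (x * y) = p0 x * p2 y + p1 x * p1 y + p2 x * p0 y := by
  simp only [p0, p1, p2, Z5.mul_a, Z5.mul_b, Z5.mul_c, Z5.mul_d]; push_cast
  linear_combination ((-2) * x.b * y.b + (-1) * x.b * y.c + (-5) * x.b * y.d + (-1) * x.c * y.b
    + (-3) * x.c * y.c + (-2) * x.c * y.d + (-5) * x.d * y.b + (-2) * x.d * y.c
    + (-4) * x.d * y.d : ZMod 5) * h5
lemma p0_add (x y : Z5) : p0 (x + y) = p0 x + p0 y := by
  simp only [p0, Z5.add_a, Z5.add_b, Z5.add_c, Z5.add_d]; push_cast; ring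
lemma p1_add (x y : Z5) : p1 (x + y) = p1 x + p1 y := by
  simp only [p1, Z5.add_a, Z5.add_b, Z5.add_c, Z5.add_d]; push_cast; ring
lemma p2_add (x y : Z5) : p2 (x + y) = p2 x + p2 y := by
  simp only [p2, Z5.add_a, Z5.add_b, Z5.add_c, Z5.add_d]; push_cast; ring
lemma p0_sub (x y : Z5) : p0 (x - y) = p0 x - p0 y := by
  simp only [p0, Z5.sub_a, Z5.sub_b, Z5.sub_c, Z5.sub_d]; push_cast; ring
lemma p1_sub (x y : Z5) : p1 (x - y) = p1 x - p1 y := by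
  simp only [p1, Z5.sub_a, Z5.sub_b, Z5.sub_c, Z5.sub_d]; push_cast; ring
lemma p2_sub (x y : Z5) : p2 (x - y) = p2 x - p2 y := by
  simp only [p2, Z5.sub_a, Z5.sub_b, Z5.sub_c, Z5.sub_d]; push_cast; ring
lemma p0_conj (x : Z5) : p0 x.conj = p0 x := by
  simp only [p0, Z5.conj_a, Z5.conj_b, Z5.conj_c, Z5.conj_d]; push_cast
  linear_combination (-(x.b : ZMod 5)) * h5
lemma p1_conj (x : Z5) : p1 x.conj = -p1 x := by
  simp only [p1, Z5.conj_b, Z5.conj_c, Z5.conj_d]; push_cast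
  linear_combination (-(x.b : ZMod 5) + x.c + x.d) * h5
lemma p2_conj (x : Z5) : p2 x.conj = p2 x := by
  simp only [p2, Z5.conj_b, Z5.conj_c, Z5.conj_d]; push_cast
  linear_combination (-2 * (x.b : ZMod 5)) * h5

/-- the three mod-5 coordinates of an equation `dnorm w = 4`, `TT w = t` -/
lemma mod5_norm (w : V3) (h : dnorm w = ⟨4, 0, 0, 0⟩) :
    p0 w.x ^ 2 + p0 w.y ^ 2 - 3 * p0 w.z ^ 2 = 4 ∧
    (2 * p0 w.x * p2 w.x - p1 w.x ^ 2) + (2 * p0 w.y * p2 w.y - p1 w.y ^ 2)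
      - (3 * (2 * p0 w.z * p2 w.z - p1 w.z ^ 2) - p0 w.z ^ 2) = 0 := by
  have e0 := congrArg p0 h
  have e2 := congrArg p2 h
  have f0 : p0 ph = 3 := by decide
  have f1 : p1 ph = 0 := by decide
  have f2 : p2 ph = -1 := by decide
  have g0 : p0 ⟨4, 0, 0, 0⟩ = 4 := by decide
  have g2 : p2 ⟨4, 0, 0, 0⟩ = 0 := by decide
  simp only [dnorm, p0_mul, p0_add, p0_sub, p0_conj, f0, g0] at e0
  simp only [dnorm, p2_mul, p2_add, p2_sub, p2_conj, p0_mul, p0_conj, p1_mul, p1_conj, f0, f1, f2,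
    g2] at e2
  constructor
  · linear_combination e0
  · linear_combination e2

lemma mod5_T (w : V3) :
    p0 (TT w) = p0 w.x ^ 2 - p0 w.y ^ 2 - 3 * p0 w.z ^ 2 ∧
    p1 (TT w) = 2 * p0 w.x * p1 w.x - 2 * p0 w.y * p1 w.y - 6 * p0 w.z * p1 w.z ∧
    p2 (TT w) = (2 * p0 w.x * p2 w.x + p1 w.x ^ 2) - (2 * p0 w.y * p2 w.y + p1 w.y ^ 2)
      - (3 * (2 * p0 w.z * p2 w.z + p1 w.z ^ 2) - p0 w.z ^ 2) := by
  have f0 : p0 ph = 3 := by decide
  have f1 : p1 ph = 0 := by decide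
  have f2 : p2 ph = -1 := by decide
  refine ⟨?_, ?_, ?_⟩
  · simp only [TT, p0_mul, p0_sub, f0]; ring
  · simp only [TT, p1_mul, p1_sub, p0_mul, f0, f1]; ring
  · simp only [TT, p2_mul, p2_sub, p0_mul, p1_mul, f0, f1, f2]; ring

lemma mod5_case1 (w : V3) (h : dnorm w = ⟨4, 0, 0, 0⟩) :
    p0 (TT w) ≠ 0 ∧ p0 (TT w) ≠ 3 := by
  have h1 := (mod5_norm w h).1
  rw [(mod5_T w).1]
  generalize p0 w.x = a at *
  generalize p0 w.y = b at *
  generalize p0 w.z = c at *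
  revert a b c
  decide

lemma mod5_aux : ∀ a b c : ZMod 5, a ^ 2 + b ^ 2 - 3 * c ^ 2 = 4 → a ^ 2 - b ^ 2 - 3 * c ^ 2 = 1 →
    a = 0 ∧ c = 0 ∧ b ^ 2 = 4 := by decide

lemma mod5_case2 (w : V3) (h : dnorm w = ⟨4, 0, 0, 0⟩) (h1 : p0 (TT w) = 1) :
    p2 (TT w) = 3 * p1 (TT w) ^ 2 := by
  obtain ⟨n0, n2⟩ := mod5_norm w h
  obtain ⟨t0, t1, t2⟩ := mod5_T w
  rw [t0] at h1
  obtain ⟨ha, hc, hb⟩ := mod5_aux _ _ _ n0 h1
  rw [t1, t2]
  rw [ha, hc] at n2 ⊢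
  have h5 := h5
  linear_combination -n2 - (12 * p1 w.y ^ 2) * hb - (10 * p1 w.y ^ 2) * h5

lemma mod5_aux2 : ∀ a b c : ZMod 5, a ^ 2 + b ^ 2 - 3 * c ^ 2 = 4 → a ^ 2 - b ^ 2 - 3 * c ^ 2 = 4 →
    b = 0 ∧ a ^ 2 - 3 * c ^ 2 = 4 := by decide

lemma mod5_aux3 : ∀ a c a' c' : ZMod 5, a ^ 2 - 3 * c ^ 2 = 4 → a' ^ 2 - 3 * c' ^ 2 = 0 →
    a' = 0 ∧ c' = 0 := by decide

/-- if `TT w ≡ -1` then several coordinates vanish -/
lemma mod5_case3 (w : V3) (h : dnorm w = ⟨4, 0, 0, 0⟩) (h0 : p0 (TT w) = 4) (h2 : p2 (TT w) = 0) :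
    p0 w.y = 0 ∧ p1 w.x = 0 ∧ p1 w.z = 0 := by
  obtain ⟨n0, n2⟩ := mod5_norm w h
  obtain ⟨t0, t1, t2⟩ := mod5_T w
  rw [t0] at h0
  rw [t2] at h2
  obtain ⟨hb, hac⟩ := mod5_aux2 _ _ _ n0 h0
  rw [hb] at n2 h2
  have key : p1 w.x ^ 2 - 3 * p1 w.z ^ 2 = 0 := by
    have : (2 : ZMod 5) * (p1 w.x ^ 2 - 3 * p1 w.z ^ 2) = 0 := by
      linear_combination h2 - n2
    have h3 : (3 : ZMod 5) * 2 = 1 := by decide
    linear_combination 3 * this - (p1 w.x ^ 2 - 3 * p1 w.z ^ 2) * h3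
  obtain ⟨k1, k2⟩ := mod5_aux3 _ _ _ _ hac key
  exact ⟨hb, k1, k2⟩


lemma conj_TT (w : V3) : (TT w).conj =
    w.x.conj * w.x.conj - w.y.conj * w.y.conj - ph * (w.z.conj * w.z.conj) := by
  have : ph.conj = ph := by decide
  simp only [TT, Z5.conj_sub, Z5.conj_mul, this]

/-- twice the negative part -/
lemma minus_part (w : V3) : (dnorm w + dnorm w) - (TT w + (TT w).conj) =
    (w.y + w.y.conj) * (w.y + w.y.conj) - (w.x - w.x.conj) * (w.x - w.x.conj)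
      + ph * ((w.z - w.z.conj) * (w.z - w.z.conj)) := by
  rw [conj_TT]; simp only [dnorm, TT]; ring

lemma plus_part (w : V3) : (dnorm w + dnorm w) + (TT w + (TT w).conj) =
    (w.x + w.x.conj) * (w.x + w.x.conj) - (w.y - w.y.conj) * (w.y - w.y.conj)
      - ph * ((w.z + w.z.conj) * (w.z + w.z.conj)) := by
  rw [conj_TT]; simp only [dnorm, TT]; ring

lemma sq_ne_three : ∀ x : ZMod 5, x ^ 2 ≠ 3 := by decide

lemma T_ne_neg_one (w : V3) (h : dnorm w = ⟨4, 0, 0, 0⟩) : TT w ≠ -1 := by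
  intro hT
  have q0 : p0 (TT w) = 4 := by rw [hT]; decide
  have q2 : p2 (TT w) = 0 := by rw [hT]; decide
  obtain ⟨hb, ha, hc⟩ := mod5_case3 w h q0 q2
  have e := minus_part w
  rw [h, hT] at e
  obtain ⟨⟨a0, a1, a2, a3⟩, ⟨b0, b1, b2, b3⟩, ⟨c0, c1, c2, c3⟩⟩ := w
  simp only [p0, p1] at ha hb hc
  have hb' : ((b0 + b1 + b2 + b3 : ℤ) : ZMod 5) = 0 := by push_cast; exact hb
  have ha' : ((3 * a1 + a2 + 4 * a3 : ℤ) : ZMod 5) = 0 := by push_cast; exact ha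
  have hc' : ((3 * c1 + c2 + 4 * c3 : ℤ) : ZMod 5) = 0 := by push_cast; exact hc
  rw [ZMod.intCast_zmod_eq_zero_iff_dvd] at ha' hb' hc'
  obtain ⟨j, hj⟩ := hb'
  obtain ⟨k, hk⟩ := ha'
  obtain ⟨l, hl⟩ := hc'
  have eb : b0 = 5 * j - b1 - b2 - b3 := by push_cast at hj; linarith
  have ea : a2 = 5 * k - 3 * a1 - 4 * a3 := by push_cast at hk; linarith
  have ec : c2 = 5 * l - 3 * c1 - 4 * c3 := by push_cast at hl; linarith
  have e1 := congrArg Z5.a e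
  have e3 := congrArg Z5.c e
  subst eb ea ec
  simp [ph] at e1 e3
  have key : 5 * (b1 - b2 - b3) ^ 2 = 5 * (5 * ((2 * j - b2 - b3) ^ 2 + a1 * (2 * k - a1 - 2 * a3)
      - 2 * (4 * c1 + 5 * c3 - 5 * l) * (2 * l - c1 - 2 * c3) - (5 * l - 3 * c1 - 5 * c3) ^ 2) - 2) := by
    linear_combination e1 - 3 * e3
  have key2 : (b1 - b2 - b3) ^ 2 = 5 * ((2 * j - b2 - b3) ^ 2 + a1 * (2 * k - a1 - 2 * a3)
      - 2 * (4 * c1 + 5 * c3 - 5 * l) * (2 * l - c1 - 2 * c3) - (5 * l - 3 * c1 - 5 * c3) ^ 2) - 2 := by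
    linarith
  have key3 := congrArg (fun x : ℤ => (x : ZMod 5)) key2
  simp only [Int.cast_sub, Int.cast_mul, Int.cast_pow, Int.cast_ofNat, h5, zero_mul, zero_sub] at key3
  have h23 : (-2 : ZMod 5) = 3 := by decide
  rw [h23] at key3
  exact sq_ne_three _ key3


/-- If `w = CC v` then `BB w = 4 v`. -/
lemma BB_CC_app (v : V3) : M3.app BB (M3.app CC v) = V3.smul ⟨4, 0, 0, 0⟩ v := by
  rw [← M3.app_mul, BB_CC]
  ext1 <;> simp only [M3.app, V3.smul] <;> ring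

lemma aux_real (p q u v g h e3 e4 e5 e6 e7 e8 e9 e10 : ℤ)
    (h3 : 2 * p - q - v = 4 * e3) (h7 : -2 * p + q - 2 * u + v = 4 * e7)
    (h8 : p + u + 2 * v + g = 4 * e8) (h9 : p + 3 * u + 2 * v + g + h = 4 * e9)
    (h10 : 2 * v + g + h = 4 * e10) (h5 : -2 * p - 2 * u + g + 2 * h = 4 * e5)
    (h4 : -p - u + g + h = 4 * e4) (h6 : -q - v + g + h = 4 * e6) :
    ∃ p' q' u' v' g' h', p = 2 * p' ∧ q = 2 * q' ∧ u = 2 * p' + 4 * u' ∧ v = 2 * q' + 4 * v' ∧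
      g = 4 * g' ∧ h = 4 * h' := by
  obtain ⟨H, hH⟩ : ∃ H, H = e9 - e8 + e3 + e7 := ⟨_, rfl⟩
  obtain ⟨A, hA⟩ : ∃ A, A = e10 - H := ⟨_, rfl⟩
  obtain ⟨G, hG⟩ : ∃ G, G = e8 + e4 - H - A := ⟨_, rfl⟩
  obtain ⟨P, hP⟩ : ∃ P, P = G + (e3 + e7) + 2 * H - e5 := ⟨_, rfl⟩
  obtain ⟨V, hV⟩ : ∃ V, V = A - G := ⟨_, rfl⟩
  have c1 : u = -2 * (e3 + e7) := by linarith
  have c2 : h = 4 * H := by linarith
  have c3 : g = 4 * G := by linarith
  have c4 : v = 2 * V := by linarith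
  have c5 : p = 2 * P := by linarith
  exact ⟨P, -V + 2 * (G + H - e6), G + H - e4 - P, V - (G + H - e6), G, H, c5, by linarith,
    by linarith, by linarith, c3, c2⟩
lemma aux_imag (p q u v g h e0 e1 e2 e3 e4 e10 : ℤ)
    (h0 : -3 * p + q - v - h = 4 * e0) (h1 : g + h = 4 * e1)
    (h2 : -p + 2 * q + u + v + 2 * g + 3 * h = 4 * e2)
    (h3 : -p + 2 * q + u + v + 2 * g + 2 * h = 4 * e3)
    (h4 : 3 * p - q - 2 * u + v - h = 4 * e4)
    (h10 : 2 * q - 2 * v + h = 4 * e10) :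
    ∃ p' q' u' v' g' h', p = 2 * p' ∧ q = 2 * q' ∧ u = 2 * q' + 4 * u' ∧ v = 2 * (p' + q') + 4 * v' ∧
      g = 4 * g' ∧ h = 4 * h' := by
  obtain ⟨H, hH⟩ : ∃ H, H = e2 - e3 := ⟨_, rfl⟩
  obtain ⟨G, hG⟩ : ∃ G, G = e1 - H := ⟨_, rfl⟩
  have c1 : h = 4 * H := by linarith
  have c2 : g = 4 * G := by linarith
  obtain ⟨U, hU⟩ : ∃ U, U = - (e0 + e4) - 2 * H := ⟨_, rfl⟩
  have c3 : u = 2 * U := by linarith
  obtain ⟨D, hD⟩ : ∃ D, D = e10 - H := ⟨_, rfl⟩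
  have c4 : q = v + 2 * D := by linarith
  obtain ⟨P, hP⟩ : ∃ P, P = D - 2 * H - 2 * e0 - p := ⟨_, rfl⟩
  have c5 : p = 2 * P := by linarith
  obtain ⟨V, hV⟩ : ∃ V, V = 2 * e3 + P - q - U - g - h := ⟨_, rfl⟩
  have c6 : v = 2 * V := by linarith
  obtain ⟨Q, hQ⟩ : ∃ Q, Q = V + D := ⟨_, rfl⟩
  have c7 : q = 2 * Q := by linarith
  exact ⟨P, Q, e3 + 2 * P - 2 * Q - H + e0 - 2 * G, -2 * P - H - e0, G, H, c5, c7, by linarith,
    by linarith, c2, c1⟩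

lemma zmod4_a : ∀ P Q : ZMod 4, P ^ 2 + Q ^ 2 = 0 → 3 * P ^ 2 + 2 * P * Q ≠ 1 := by decide

/-- No real vector of norm one. -/
lemma real_case (p q u v g h : ℤ) (e : V3)
    (hB : M3.app BB ⟨⟨p, 0, -q, -q⟩, ⟨u + v, 2 * (u + v), u + 2 * v, u⟩, ⟨g, 0, -h, -h⟩⟩ =
      V3.smul ⟨4, 0, 0, 0⟩ e)
    (hn : dnorm ⟨⟨p, 0, -q, -q⟩, ⟨u + v, 2 * (u + v), u + 2 * v, u⟩, ⟨g, 0, -h, -h⟩⟩ =
      ⟨4, 0, 0, 0⟩) : False := by
  have k4 := congrArg (fun v => v.x.d) hB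
  have l1 := congrArg (fun v => v.y.a) hB
  have l2 := congrArg (fun v => v.y.b) hB
  have l3 := congrArg (fun v => v.y.c) hB
  have l4 := congrArg (fun v => v.y.d) hB
  have m1 := congrArg (fun v => v.z.a) hB
  have m2 := congrArg (fun v => v.z.b) hB
  have m3 := congrArg (fun v => v.z.c) hB
  simp [M3.app, V3.smul, BB] at k4 l1 l2 l3 l4 m1 m2 m3
  obtain ⟨P, Q, U, V, G, H, rfl, rfl, rfl, rfl, rfl, rfl⟩ := aux_real p q u v g h
    e.x.d e.y.a e.y.b e.y.c e.y.d e.z.a e.z.b e.z.c (by linarith) (by linarith) (by linarith)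
    (by linarith) (by linarith) (by linarith) (by linarith) (by linarith)
  have n1 := congrArg Z5.a hn
  have n3 := congrArg Z5.c hn
  simp [dnorm, ph] at n1 n3
  have s1 : 4 * (3 * P ^ 2 + 2 * P * Q) = 4 * (1 - 4 * (Q ^ 2 + 2 * P * U + 2 * U ^ 2 + 3 * Q * V
      + 3 * V ^ 2 + P * V + U * Q + 2 * U * V - 2 * G * H - H ^ 2)) := by
    linear_combination n1
  have s2 : 4 * (P ^ 2 + Q ^ 2) = 4 * (- 4 * (Q ^ 2 + 2 * P * Q + P * U + U ^ 2 + 4 * Q * V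
      + 4 * V ^ 2 + 3 * P * V + 3 * U * Q + 6 * U * V - G ^ 2 - 2 * H ^ 2 - 2 * G * H)) := by
    linear_combination -n3
  have s1' := congrArg (fun x : ℤ => (x : ZMod 4)) (mul_left_cancel₀ (by norm_num) s1)
  have s2' := congrArg (fun x : ℤ => (x : ZMod 4)) (mul_left_cancel₀ (by norm_num) s2)
  have h4 : (4 : ZMod 4) = 0 := by decide
  simp only [Int.cast_sub, Int.cast_mul, Int.cast_add, Int.cast_pow, Int.cast_ofNat, Int.cast_one,
    Int.cast_neg, h4, zero_mul, neg_zero, sub_zero] at s1' s2'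
  exact zmod4_a _ _ s2' s1'

lemma zmod4_b : ∀ P Q : ZMod 4, 3 * P ^ 2 + Q ^ 2 = 1 → 2 * P ^ 2 + 3 * Q ^ 2 + 2 * P * Q ≠ 0 := by
  decide

/-- No imaginary vector of norm one. -/
lemma imag_case (p q u v g h : ℤ) (e : V3)
    (hB : M3.app BB ⟨⟨p + q, 2 * (p + q), p + 2 * q, p⟩, ⟨u, 0, -v, -v⟩,
      ⟨g + h, 2 * (g + h), g + 2 * h, g⟩⟩ = V3.smul ⟨4, 0, 0, 0⟩ e)
    (hn : dnorm ⟨⟨p + q, 2 * (p + q), p + 2 * q, p⟩, ⟨u, 0, -v, -v⟩,
      ⟨g + h, 2 * (g + h), g + 2 * h, g⟩⟩ = ⟨4, 0, 0, 0⟩) : False := by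
  have k0 := congrArg (fun v => v.x.a) hB
  have k1 := congrArg (fun v => v.x.b) hB
  have k2 := congrArg (fun v => v.x.c) hB
  have k3 := congrArg (fun v => v.x.d) hB
  have l0 := congrArg (fun v => v.y.a) hB
  have m2 := congrArg (fun v => v.z.c) hB
  simp [M3.app, V3.smul, BB] at k0 k1 k2 k3 l0 m2
  obtain ⟨P, Q, U, V, G, H, rfl, rfl, rfl, rfl, rfl, rfl⟩ := aux_imag p q u v g h
    e.x.a e.x.b e.x.c e.x.d e.y.a e.z.c (by linarith) (by linarith) (by linarith)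
    (by linarith) (by linarith) (by linarith)
  have n1 := congrArg Z5.a hn
  have n3 := congrArg Z5.c hn
  simp [dnorm, ph] at n1 n3
  have s1 : 4 * (3 * P ^ 2 + Q ^ 2) = 4 * (1 - 4 * (Q ^ 2 + P * Q + Q * U + U ^ 2 + (P + Q) * V
      + V ^ 2 - G ^ 2 - 4 * H ^ 2 - 6 * G * H)) := by
    linear_combination n1
  have s2 : 4 * (2 * P ^ 2 + 3 * Q ^ 2 + 2 * P * Q) = 4 * (- 4 * (Q ^ 2 + 2 * P * Q + Q * V + U * P
      + U * Q + 2 * U * V + (P + Q) * V + V ^ 2 - 3 * G ^ 2 - 7 * H ^ 2 - 8 * G * H)) := by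
    linear_combination -n3
  have s1' := congrArg (fun x : ℤ => (x : ZMod 4)) (mul_left_cancel₀ (by norm_num) s1)
  have s2' := congrArg (fun x : ℤ => (x : ZMod 4)) (mul_left_cancel₀ (by norm_num) s2)
  have h4 : (4 : ZMod 4) = 0 := by decide
  simp only [Int.cast_sub, Int.cast_mul, Int.cast_add, Int.cast_pow, Int.cast_ofNat, Int.cast_one,
    Int.cast_neg, h4, zero_mul, neg_zero, sub_zero] at s1' s2'
  exact zmod4_b _ _ s1' s2'


/-! ### the finite list of small values -/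

def N0 (x : Z5) : ℤ :=
  x.a * x.a + x.b * x.b + x.c * x.c + x.d * x.d - (x.a * x.b + x.b * x.c + x.c * x.d)
def N1 (x : Z5) : ℤ :=
  (x.a * x.b + x.b * x.c + x.c * x.d) - (x.a * x.c + x.b * x.d + x.a * x.d)

lemma mul_conj_self (x : Z5) : x * x.conj = ⟨N0 x, 0, -N1 x, -N1 x⟩ := by
  ext <;> simp [N0, N1] <;> ring

def isUnitMultiple (x : Z5) (k : ℤ) : Bool :=
  x == ⟨k, 0, 0, 0⟩ || x == ⟨0, k, 0, 0⟩ || x == ⟨0, 0, k, 0⟩ || x == ⟨0, 0, 0, k⟩ ||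
    x == ⟨-k, -k, -k, -k⟩

def chk (x : Z5) : Bool :=
  decide (32 < 2 * N0 x + N1 x) ||
    decide ((16 - N0 x) * (16 - N0 x) - (16 - N0 x) * N1 x - N1 x * N1 x < 0) ||
    (x.a + x.b + x.c + x.d) % 5 == 0 || (x.a + x.b + x.c + x.d) % 5 == 3 ||
    ((x.a + x.b + x.c + x.d) % 5 == 1 &&
      !((2 * x.b + 3 * x.c + 3 * x.d - 3 * (3 * x.b + x.c + 4 * x.d) * (3 * x.b + x.c + 4 * x.d)) % 5
        == 0)) ||
    isUnitMultiple x (-1) || isUnitMultiple x 4 || isUnitMultiple x (-4)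

/-- the residues modulo `4` of `κ s²` -/
def resList : List Z5 := [⟨0, 0, 0, 0⟩, ⟨0, 0, 0, 3⟩, ⟨0, 0, 3, 0⟩, ⟨0, 1, 3, 1⟩, ⟨0, 3, 0, 0⟩,
  ⟨0, 3, 2, 3⟩, ⟨1, 1, 0, 3⟩, ⟨1, 1, 1, 1⟩, ⟨1, 2, 2, 1⟩, ⟨1, 3, 1, 0⟩, ⟨2, 0, 3, 3⟩, ⟨2, 1, 1, 2⟩,
  ⟨3, 0, 0, 0⟩, ⟨3, 0, 1, 1⟩, ⟨3, 2, 3, 0⟩, ⟨3, 3, 0, 2⟩]

def chkAll : Bool :=
  resList.all fun r => (List.range 4).all fun i => (List.range 4).all fun j =>
    (List.range 4).all fun k => (List.range 4).all fun l =>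
      chk ⟨r.a + (4 * (i : ℤ) - 8), r.b + (4 * (j : ℤ) - 8), r.c + (4 * (k : ℤ) - 8),
        r.d + (4 * (l : ℤ) - 8)⟩

lemma chkAll_true : chkAll = true := by decide +kernel


lemma chk_of_res (r : Z5) (hr : r ∈ resList) (i j k l : ℕ) (hi : i < 4) (hj : j < 4) (hk : k < 4)
    (hl : l < 4) : chk ⟨r.a + (4 * (i : ℤ) - 8), r.b + (4 * (j : ℤ) - 8), r.c + (4 * (k : ℤ) - 8),
        r.d + (4 * (l : ℤ) - 8)⟩ = true := by
  have h := chkAll_true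
  unfold chkAll at h
  rw [List.all_eq_true] at h
  have h1 := h r hr
  rw [List.all_eq_true] at h1
  have h2 := h1 i (List.mem_range.2 hi)
  rw [List.all_eq_true] at h2
  have h3 := h2 j (List.mem_range.2 hj)
  rw [List.all_eq_true] at h3
  have h4 := h3 k (List.mem_range.2 hk)
  rw [List.all_eq_true] at h4
  exact h4 l (List.mem_range.2 hl)

/-- size bound for the coordinates -/
lemma coord_bound (x : Z5) (h : 2 * N0 x + N1 x ≤ 32) :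
    (-5 ≤ x.a ∧ x.a ≤ 5) ∧ (-5 ≤ x.b ∧ x.b ≤ 5) ∧ (-5 ≤ x.c ∧ x.c ≤ 5) ∧ (-5 ≤ x.d ∧ x.d ≤ 5) := by
  obtain ⟨a, b, c, d⟩ := x
  simp only [N0, N1] at h
  have key : ∀ p q r s : ℤ, 5 * (p ^ 2 + q ^ 2 + r ^ 2 + s ^ 2) - (p + q + r + s) ^ 2 ≤ 64 →
      -5 ≤ p ∧ p ≤ 5 := by
    intro p q r s h
    have : 5 * p ^ 2 ≤ 128 := by
      nlinarith [sq_nonneg (q - r), sq_nonneg (q - s), sq_nonneg (r - s),
        sq_nonneg (3 * p - 2 * (q + r + s))]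
    constructor <;> nlinarith
  refine ⟨key a b c d ?_, key b a c d ?_, key c a b d ?_, key d a b c ?_⟩ <;> nlinarith

def kap : Z5 := ⟨2, 1, 1, 2⟩
def rhoA : Z5 := ⟨1, 0, 1, 1⟩
def rhoC : Z5 := ⟨1, 0, 0, 1⟩

lemma kap_eq : rhoA * rhoA - 1 - ph * (rhoC * rhoC) = kap := by decide

/-- rank one modulo 2 -/
lemma rank_one (e : V3) : ∃ a' c' : Z5, (M3.app CC e).x = rhoA * (M3.app CC e).y + (a' + a') ∧
    (M3.app CC e).z = rhoC * (M3.app CC e).y + (c' + c') := by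
  refine ⟨⟨0, -1, 0, 0⟩ * e.x + ⟨1, 1, 1, 1⟩ * e.y + ⟨0, 0, -1, 0⟩ * e.z,
    ⟨1, 0, 0, 1⟩ * e.x + ⟨1, 0, 0, 1⟩ * e.y, ?_, ?_⟩
  · ext <;> simp [M3.app, CC, rhoA] <;> ring
  · ext <;> simp [M3.app, CC, rhoC] <;> ring

lemma T_form (e : V3) : ∃ s S : Z5, (s.a = 0 ∨ s.a = 1) ∧ (s.b = 0 ∨ s.b = 1) ∧
    (s.c = 0 ∨ s.c = 1) ∧ (s.d = 0 ∨ s.d = 1) ∧ TT (M3.app CC e) = kap * (s * s) + 4 * S := by
  obtain ⟨a', c', ha, hc⟩ := rank_one e
  set b := (M3.app CC e).y with hb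
  refine ⟨⟨b.a % 2, b.b % 2, b.c % 2, b.d % 2⟩,
    kap * (⟨b.a % 2, b.b % 2, b.c % 2, b.d % 2⟩ * ⟨b.a / 2, b.b / 2, b.c / 2, b.d / 2⟩ +
      ⟨b.a / 2, b.b / 2, b.c / 2, b.d / 2⟩ * ⟨b.a / 2, b.b / 2, b.c / 2, b.d / 2⟩) +
      (rhoA * b * a' + a' * a') - ph * (rhoC * b * c' + c' * c'),
    by simp only; omega, by simp only; omega, by simp only; omega, by simp only; omega, ?_⟩
  have hb2 : b = ⟨b.a % 2, b.b % 2, b.c % 2, b.d % 2⟩ +
      (⟨b.a / 2, b.b / 2, b.c / 2, b.d / 2⟩ + ⟨b.a / 2, b.b / 2, b.c / 2, b.d / 2⟩) := by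
    ext <;> simp <;> omega
  generalize (⟨b.a % 2, b.b % 2, b.c % 2, b.d % 2⟩ : Z5) = s at *
  generalize (⟨b.a / 2, b.b / 2, b.c / 2, b.d / 2⟩ : Z5) = m at *
  have hT : TT (M3.app CC e) = (rhoA * b + (a' + a')) * (rhoA * b + (a' + a')) - b * b
      - ph * ((rhoC * b + (c' + c')) * (rhoC * b + (c' + c'))) := by
    rw [TT, ha, hc]
  rw [hT, ← kap_eq]
  have e1 : b * b = s * s + 4 * (s * m + m * m) := by rw [hb2]; ring
  linear_combination (rhoA * rhoA - 1 - ph * (rhoC * rhoC)) * e1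

lemma res_mem : ∀ i ∈ ([0, 1] : List ℤ), ∀ j ∈ ([0, 1] : List ℤ), ∀ k ∈ ([0, 1] : List ℤ),
    ∀ l ∈ ([0, 1] : List ℤ),
    (⟨(kap * (⟨i, j, k, l⟩ * ⟨i, j, k, l⟩)).a % 4, (kap * (⟨i, j, k, l⟩ * ⟨i, j, k, l⟩)).b % 4,
      (kap * (⟨i, j, k, l⟩ * ⟨i, j, k, l⟩)).c % 4,
      (kap * (⟨i, j, k, l⟩ * ⟨i, j, k, l⟩)).d % 4⟩ : Z5) ∈ resList := by
  decide +kernel

lemma four_mul_comp (S : Z5) : (4 * S).a = 4 * S.a ∧ (4 * S).b = 4 * S.b ∧ (4 * S).c = 4 * S.c ∧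
    (4 * S).d = 4 * S.d := by
  have : (4 : Z5) * S = S + S + S + S := by ring
  rw [this]
  refine ⟨?_, ?_, ?_, ?_⟩ <;> simp <;> ring

lemma T_res (e : V3) : (⟨(TT (M3.app CC e)).a % 4, (TT (M3.app CC e)).b % 4,
    (TT (M3.app CC e)).c % 4, (TT (M3.app CC e)).d % 4⟩ : Z5) ∈ resList := by
  obtain ⟨⟨i, j, k, l⟩, S, hi, hj, hk, hl, hT⟩ := T_form e
  simp only at hi hj hk hl
  obtain ⟨f1, f2, f3, f4⟩ := four_mul_comp S
  have g1 : (TT (M3.app CC e)).a % 4 = (kap * (⟨i, j, k, l⟩ * ⟨i, j, k, l⟩)).a % 4 := by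
    rw [hT, Z5.add_a, f1]; omega
  have g2 : (TT (M3.app CC e)).b % 4 = (kap * (⟨i, j, k, l⟩ * ⟨i, j, k, l⟩)).b % 4 := by
    rw [hT, Z5.add_b, f2]; omega
  have g3 : (TT (M3.app CC e)).c % 4 = (kap * (⟨i, j, k, l⟩ * ⟨i, j, k, l⟩)).c % 4 := by
    rw [hT, Z5.add_c, f3]; omega
  have g4 : (TT (M3.app CC e)).d % 4 = (kap * (⟨i, j, k, l⟩ * ⟨i, j, k, l⟩)).d % 4 := by
    rw [hT, Z5.add_d, f4]; omega
  rw [g1, g2, g3, g4]
  exact res_mem i (by simpa using hi) j (by simpa using hj) k (by simpa using hk) l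
    (by simpa using hl)

lemma chk_T (e : V3) (hb : 2 * N0 (TT (M3.app CC e)) + N1 (TT (M3.app CC e)) ≤ 32) :
    chk (TT (M3.app CC e)) = true := by
  obtain ⟨⟨a1, a2⟩, ⟨b1, b2⟩, ⟨c1, c2⟩, ⟨d1, d2⟩⟩ := coord_bound _ hb
  have hr := T_res e
  generalize TT (M3.app CC e) = T at *
  have := chk_of_res _ hr (T.a / 4 + 2).toNat (T.b / 4 + 2).toNat (T.c / 4 + 2).toNat
    (T.d / 4 + 2).toNat (by omega) (by omega) (by omega) (by omega)
  convert this using 1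
  congr 1
  ext <;> simp only <;> omega


/-! ### degenerate values -/

lemma int_golden (p q : ℤ) (h : (p : ℝ) + q * Real.goldenConj = 0) : p = 0 ∧ q = 0 := by
  by_cases hq : q = 0
  · subst hq
    simp at h
    exact ⟨by exact_mod_cast h, rfl⟩
  · exfalso
    have hq' : (q : ℝ) ≠ 0 := by exact_mod_cast hq
    have hirr : Irrational Real.goldenConj := Real.goldenConj_irrational
    obtain ⟨s, hs⟩ : ∃ s : ℝ, s = Real.goldenConj := ⟨_, rfl⟩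
    rw [← hs] at h hirr
    have : s = ((-p / q : ℚ) : ℝ) := by
      push_cast
      field_simp
      linarith
    exact hirr ⟨_, this.symm⟩

lemma golden_place2 : ∃ s : ℝ, s ^ 2 = s + 1 ∧ s < 0 ∧ -1 < s ∧
    (∀ p q : ℤ, (p : ℝ) + q * s = 0 → p = 0 ∧ q = 0) :=
  ⟨Real.goldenConj, Real.goldenConj_sq, Real.goldenConj_neg, Real.neg_one_lt_goldenConj,
    int_golden⟩

lemma sum_zero_place2 (b b' u v g h : ℤ)
    (e1 : b ^ 2 + b' ^ 2 + (2 * (u ^ 2 + v ^ 2) + (2 * u * v + v ^ 2))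
      - ((g ^ 2 + h ^ 2) + 3 * (2 * g * h + h ^ 2)) = 0)
    (e2 : 2 * b * b' + b' ^ 2 + ((u ^ 2 + v ^ 2) + 3 * (2 * u * v + v ^ 2))
      - (3 * (g ^ 2 + h ^ 2) + 4 * (2 * g * h + h ^ 2)) = 0) :
    b = 0 ∧ b' = 0 ∧ u = 0 ∧ v = 0 ∧ g = 0 ∧ h = 0 := by
  obtain ⟨s, hsq, hneg, hlt, hirr⟩ := golden_place2
  have e1' : (b : ℝ) ^ 2 + b' ^ 2 + (2 * (u ^ 2 + v ^ 2) + (2 * u * v + v ^ 2))
      - ((g ^ 2 + h ^ 2) + 3 * (2 * g * h + h ^ 2)) = 0 := by exact_mod_cast e1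
  have e2' : 2 * (b : ℝ) * b' + b' ^ 2 + ((u ^ 2 + v ^ 2) + 3 * (2 * u * v + v ^ 2))
      - (3 * (g ^ 2 + h ^ 2) + 4 * (2 * g * h + h ^ 2)) = 0 := by exact_mod_cast e2
  have key : ((b : ℝ) + b' * s) ^ 2 + (2 + s) * (u + v * s) ^ 2
      + (-s) * (2 + s) * (g + h * s) ^ 2 = 0 := by
    linear_combination e1' + s * e2' + (((b' : ℝ) ^ 2 + 2 * v ^ 2 + 2 * u * v - 4 * g * h - g ^ 2)
      + (v ^ 2 - 2 * h ^ 2 - 2 * g * h) * (s + 1) - h ^ 2 * (s ^ 2 + s + 2)) * hsq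
  have t1 : 0 ≤ ((b : ℝ) + b' * s) ^ 2 := sq_nonneg _
  have t2 : 0 ≤ (2 + s) * ((u : ℝ) + v * s) ^ 2 := mul_nonneg (by linarith) (sq_nonneg _)
  have t3 : 0 ≤ (-s) * (2 + s) * ((g : ℝ) + h * s) ^ 2 :=
    mul_nonneg (mul_nonneg (by linarith) (by linarith)) (sq_nonneg _)
  have z1 : ((b : ℝ) + b' * s) ^ 2 = 0 := by linarith
  have z2 : (2 + s) * ((u : ℝ) + v * s) ^ 2 = 0 := by linarith
  have z3 : (-s) * (2 + s) * ((g : ℝ) + h * s) ^ 2 = 0 := by linarith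
  have y1 : (b : ℝ) + b' * s = 0 := by simpa using z1
  have y2 : (u : ℝ) + v * s = 0 := by
    rcases mul_eq_zero.1 z2 with h | h
    · linarith
    · simpa using h
  have y3 : (g : ℝ) + h * s = 0 := by
    rcases mul_eq_zero.1 z3 with h | h
    · rcases mul_eq_zero.1 h with h | h <;> linarith
    · simpa using h
  obtain ⟨r1, r2⟩ := hirr _ _ y1
  obtain ⟨r3, r4⟩ := hirr _ _ y2
  obtain ⟨r5, r6⟩ := hirr _ _ y3
  exact ⟨r1, r2, r3, r4, r5, r6⟩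

lemma T_ne_four (e : V3) (he : hnorm e = 1) : TT (M3.app CC e) ≠ ⟨4, 0, 0, 0⟩ := by
  intro hT
  have hd : dnorm (M3.app CC e) = ⟨4, 0, 0, 0⟩ := by rw [dnorm_CC, he, mul_one]
  have hB := BB_CC_app e
  generalize M3.app CC e = w at *
  have em := minus_part w
  rw [hd, hT] at em
  obtain ⟨⟨a0, a1, a2, a3⟩, ⟨b0, b1, b2, b3⟩, ⟨c0, c1, c2, c3⟩⟩ := w
  have e1 := congrArg Z5.a em
  have e3 := congrArg Z5.c em
  simp [ph] at e1 e3
  obtain ⟨r1, r2, r3, r4, r5, r6⟩ := sum_zero_place2 (2 * b0 - b1) (b1 - b2 - b3)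
    (a1 - a2 + a3) (a2 - a3) (c1 - c2 + c3) (c2 - c3) (by linear_combination -e1)
    (by linear_combination e3)
  have q1 : a1 = 0 := by omega
  have q2 : a2 = a3 := by omega
  have q3 : c1 = 0 := by omega
  have q4 : c2 = c3 := by omega
  have q5 : b1 = 2 * b0 := by omega
  have q6 : b3 = 2 * b0 - b2 := by omega
  subst q1 q2 q3 q4 q5 q6
  refine real_case a0 (-a2) (2 * b0 - b2) (b2 - b0) c0 (-c2) e ?_ ?_
  · rw [← hB]; congr 3 <;> ring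
  · rw [← hd]; congr 2 <;> ring_nf

lemma sum_zero_place2' (b b' u v g h : ℤ)
    (e1 : b ^ 2 + b' ^ 2 + (2 * (u ^ 2 + v ^ 2) + (2 * u * v + v ^ 2))
      - (2 * g * h + h ^ 2) = 0)
    (e2 : 2 * b * b' + b' ^ 2 + ((u ^ 2 + v ^ 2) + 3 * (2 * u * v + v ^ 2))
      - (g ^ 2 + 2 * h ^ 2 + 2 * g * h) = 0) :
    b = 0 ∧ b' = 0 ∧ u = 0 ∧ v = 0 ∧ g = 0 ∧ h = 0 := by
  obtain ⟨s, hsq, hneg, hlt, hirr⟩ := golden_place2
  have e1' : (b : ℝ) ^ 2 + b' ^ 2 + (2 * (u ^ 2 + v ^ 2) + (2 * u * v + v ^ 2))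
      - (2 * g * h + h ^ 2) = 0 := by exact_mod_cast e1
  have e2' : 2 * (b : ℝ) * b' + b' ^ 2 + ((u ^ 2 + v ^ 2) + 3 * (2 * u * v + v ^ 2))
      - (g ^ 2 + 2 * h ^ 2 + 2 * g * h) = 0 := by exact_mod_cast e2
  have key : ((b : ℝ) + b' * s) ^ 2 + (2 + s) * (u + v * s) ^ 2
      + (-s) * (g + h * s) ^ 2 = 0 := by
    linear_combination e1' + s * e2' + (((b' : ℝ) ^ 2 + 2 * v ^ 2 + 2 * u * v - 2 * g * h)
      + (v ^ 2 - h ^ 2) * (s + 1)) * hsq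
  have t1 : 0 ≤ ((b : ℝ) + b' * s) ^ 2 := sq_nonneg _
  have t2 : 0 ≤ (2 + s) * ((u : ℝ) + v * s) ^ 2 := mul_nonneg (by linarith) (sq_nonneg _)
  have t3 : 0 ≤ (-s) * ((g : ℝ) + h * s) ^ 2 := mul_nonneg (by linarith) (sq_nonneg _)
  have z1 : ((b : ℝ) + b' * s) ^ 2 = 0 := by linarith
  have z2 : (2 + s) * ((u : ℝ) + v * s) ^ 2 = 0 := by linarith
  have z3 : (-s) * ((g : ℝ) + h * s) ^ 2 = 0 := by linarith
  have y1 : (b : ℝ) + b' * s = 0 := by simpa using z1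
  have y2 : (u : ℝ) + v * s = 0 := by
    rcases mul_eq_zero.1 z2 with h | h
    · linarith
    · simpa using h
  have y3 : (g : ℝ) + h * s = 0 := by
    rcases mul_eq_zero.1 z3 with h | h
    · linarith
    · simpa using h
  obtain ⟨r1, r2⟩ := hirr _ _ y1
  obtain ⟨r3, r4⟩ := hirr _ _ y2
  obtain ⟨r5, r6⟩ := hirr _ _ y3
  exact ⟨r1, r2, r3, r4, r5, r6⟩

lemma T_ne_neg_four (e : V3) (he : hnorm e = 1) : TT (M3.app CC e) ≠ ⟨-4, 0, 0, 0⟩ := by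
  intro hT
  have hd : dnorm (M3.app CC e) = ⟨4, 0, 0, 0⟩ := by rw [dnorm_CC, he, mul_one]
  have hB := BB_CC_app e
  generalize M3.app CC e = w at *
  have em := plus_part w
  rw [hd, hT] at em
  obtain ⟨⟨a0, a1, a2, a3⟩, ⟨b0, b1, b2, b3⟩, ⟨c0, c1, c2, c3⟩⟩ := w
  have e1 := congrArg Z5.a em
  have e3 := congrArg Z5.c em
  simp [ph] at e1 e3
  obtain ⟨r1, r2, r3, r4, r5, r6⟩ := sum_zero_place2' (2 * a0 - a1) (a1 - a2 - a3)
    (b1 - b2 + b3) (b2 - b3) (2 * c0 - c1) (c1 - c2 - c3) (by linear_combination -e1)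
    (by linear_combination e3)
  have q1 : b1 = 0 := by omega
  have q2 : b2 = b3 := by omega
  have q3 : a1 = 2 * a0 := by omega
  have q4 : a3 = 2 * a0 - a2 := by omega
  have q5 : c1 = 2 * c0 := by omega
  have q6 : c3 = 2 * c0 - c2 := by omega
  subst q1 q2 q3 q4 q5 q6
  refine imag_case (2 * a0 - a2) (a2 - a0) b0 (-b2) (2 * c0 - c2) (c2 - c0) e ?_ ?_
  · rw [← hB]; congr 3 <;> ring
  · rw [← hd]; congr 2 <;> ring_nf

/-! ### no small value -/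

lemma TT_smul (c : Z5) (e : V3) : TT (M3.app CC (V3.smul c e)) = c * c * TT (M3.app CC e) := by
  simp only [TT, M3.app, V3.smul]; ring

lemma hnorm_smul (c : Z5) (hc : c * c.conj = 1) (e : V3) : hnorm (V3.smul c e) = hnorm e := by
  have : hnorm (V3.smul c e) = c * c.conj * hnorm e := by
    simp only [hnorm, V3.smul, Z5.conj_mul]; ring
  rw [this, hc, one_mul]

lemma unit_multiple (x : Z5) (k : ℤ) (h : isUnitMultiple x k = true) :
    ∃ c : Z5, c * c.conj = 1 ∧ c * c * x = ⟨k, 0, 0, 0⟩ := by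
  simp only [isUnitMultiple, Bool.or_eq_true, beq_iff_eq] at h
  rcases h with (((h | h) | h) | h) | h
  · exact ⟨1, by decide, by subst h; ext <;> simp⟩
  · exact ⟨⟨0, 0, 1, 0⟩, by decide, by subst h; ext <;> simp⟩
  · exact ⟨⟨-1, -1, -1, -1⟩, by decide, by subst h; ext <;> simp <;> ring⟩
  · exact ⟨⟨0, 1, 0, 0⟩, by decide, by subst h; ext <;> simp⟩
  · exact ⟨⟨0, 0, 0, 1⟩, by decide, by subst h; ext <;> simp⟩

theorem no_small (e : V3) (he : hnorm e = 1)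
    (h1 : 2 * N0 (TT (M3.app CC e)) + N1 (TT (M3.app CC e)) ≤ 32)
    (h2 : 0 ≤ (16 - N0 (TT (M3.app CC e))) * (16 - N0 (TT (M3.app CC e)))
      - (16 - N0 (TT (M3.app CC e))) * N1 (TT (M3.app CC e))
      - N1 (TT (M3.app CC e)) * N1 (TT (M3.app CC e))) : False := by
  have hc := chk_T e h1
  have hd : dnorm (M3.app CC e) = ⟨4, 0, 0, 0⟩ := by rw [dnorm_CC, he, mul_one]
  obtain ⟨c0, c3⟩ := mod5_case1 _ hd
  have c1 := mod5_case2 _ hd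
  simp only [chk, Bool.or_eq_true, decide_eq_true_eq, beq_iff_eq, Bool.and_eq_true,
    Bool.not_eq_true', beq_eq_false_iff_ne] at hc
  have hp0 : ∀ k : ℤ, (((TT (M3.app CC e)).a + (TT (M3.app CC e)).b + (TT (M3.app CC e)).c
      + (TT (M3.app CC e)).d) % 5 = k) → p0 (TT (M3.app CC e)) = (k : ZMod 5) := by
    intro k hk
    rw [← hk]
    simp only [p0]
    have := ZMod.intCast_mod ((TT (M3.app CC e)).a + (TT (M3.app CC e)).b + (TT (M3.app CC e)).c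
      + (TT (M3.app CC e)).d) 5
    push_cast at this ⊢
    rw [this]
  rcases hc with (((((((hc | hc) | hc) | hc) | hc) | hc) | hc) | hc)
  · omega
  · linarith
  · exact c0 (by simpa using hp0 0 hc)
  · exact c3 (by simpa using hp0 3 hc)
  · obtain ⟨h3, h4⟩ := hc
    have h5 := c1 (by simpa using hp0 1 h3)
    apply h4
    simp only [p1, p2] at h5
    have h6 : ((2 * (TT (M3.app CC e)).b + 3 * (TT (M3.app CC e)).c + 3 * (TT (M3.app CC e)).d -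
        3 * (3 * (TT (M3.app CC e)).b + (TT (M3.app CC e)).c + 4 * (TT (M3.app CC e)).d) *
        (3 * (TT (M3.app CC e)).b + (TT (M3.app CC e)).c + 4 * (TT (M3.app CC e)).d) : ℤ)
        : ZMod 5) = 0 := by
      push_cast
      linear_combination h5
    rw [ZMod.intCast_zmod_eq_zero_iff_dvd] at h6
    exact Int.emod_eq_zero_of_dvd (by exact_mod_cast h6)
  · obtain ⟨c, hcc, hx⟩ := unit_multiple _ _ hc
    have hd' : dnorm (M3.app CC (V3.smul c e)) = ⟨4, 0, 0, 0⟩ := by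
      rw [dnorm_CC, hnorm_smul c hcc, he, mul_one]
    refine T_ne_neg_one _ hd' ?_
    rw [TT_smul, hx]; rfl
  · obtain ⟨c, hcc, hx⟩ := unit_multiple _ _ hc
    exact T_ne_four (V3.smul c e) (by rw [hnorm_smul c hcc, he]) (by rw [TT_smul, hx])
  · obtain ⟨c, hcc, hx⟩ := unit_multiple _ _ hc
    exact T_ne_neg_four (V3.smul c e) (by rw [hnorm_smul c hcc, he]) (by rw [TT_smul, hx])



open scoped ComplexConjugate

/-! ### the two places -/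

lemma mu_ne : mu + 1 ≠ 0 := by
  intro h
  have h1 := mu_add_conj
  have h2 : mu = -1 := by linear_combination h
  rw [h2] at h1
  have h3 : (Real.goldenRatio : ℂ) = ((-2 : ℝ) : ℂ) := by
    have : phi = -1 + conj (-1 : ℂ) := h1.symm
    simp only [map_neg, map_one] at this
    unfold phi at this
    rw [this]; push_cast; norm_num
  have h4 : Real.goldenRatio = -2 := by exact_mod_cast h3
  have := Real.goldenRatio_pos
  linarith

lemma mu_cyc : 1 - mu + mu ^ 2 - mu ^ 3 + mu ^ 4 = 0 := by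
  have h : (mu + 1) * (1 - mu + mu ^ 2 - mu ^ 3 + mu ^ 4) = 0 := by
    linear_combination mu_pow_five
  exact (mul_eq_zero.1 h).resolve_left mu_ne

lemma conj_mu : conj mu = -mu ^ 4 := by
  have h1 := mu_mul_conj
  have h2 := mu_pow_five
  linear_combination (conj mu) * h2 - mu ^ 4 * h1

lemma phi_eq : phi = mu - mu ^ 4 := by
  rw [← mu_add_conj, conj_mu]; ring

/-- first place -/
noncomputable def z1 : ℂ := mu ^ 2
/-- second place -/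
noncomputable def z2 : ℂ := mu ^ 4

lemma cyc1 : 1 + z1 + z1 ^ 2 + z1 ^ 3 + z1 ^ 4 = 0 := by
  have h1 := mu_pow_five
  have h2 := mu_cyc
  unfold z1
  linear_combination h2 + (mu + mu ^ 3) * h1

lemma cyc2 : 1 + z2 + z2 ^ 2 + z2 ^ 3 + z2 ^ 4 = 0 := by
  have h1 := mu_pow_five
  have h2 := mu_cyc
  unfold z2
  linear_combination h2 + (mu ^ 3 + mu ^ 7 - mu ^ 2 + mu ^ 11 - mu ^ 6 + mu) * h1

lemma conj_z1 : conj z1 = z1 ^ 4 := by
  have h1 := mu_pow_five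
  unfold z1; rw [map_pow, conj_mu]; ring

lemma conj_z2 : conj z2 = z2 ^ 4 := by
  have h1 := mu_pow_five
  unfold z2; rw [map_pow, conj_mu]; ring

lemma conj_ev {z : ℂ} (hz : 1 + z + z ^ 2 + z ^ 3 + z ^ 4 = 0) (hc : conj z = z ^ 4) (x : Z5) :
    conj (Z5.ev z x) = Z5.ev z x.conj := by
  simp only [Z5.ev, Z5.conj_a, Z5.conj_b, Z5.conj_c, Z5.conj_d, map_add, map_mul, map_pow,
    map_intCast, hc]
  have h5 : z ^ 5 = 1 := by linear_combination (z - 1) * hz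
  push_cast
  have h8 : (z ^ 4) ^ 2 = z ^ 3 := by
    linear_combination (z ^ 3) * h5
  have h12 : (z ^ 4) ^ 3 = z ^ 2 := by
    linear_combination (z ^ 7 + z ^ 2) * h5
  rw [h8, h12]
  linear_combination (x.b : ℂ) * hz

lemma ev1_ph : Z5.ev z1 ph = phi := by
  have h1 := mu_pow_five
  rw [phi_eq]; simp only [Z5.ev, ph, z1]; push_cast
  linear_combination (-mu) * h1

lemma ev2_ph : Z5.ev z2 ph = 1 - phi := by
  have h1 := mu_pow_five
  have h2 := mu_cyc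
  rw [phi_eq]; simp only [Z5.ev, ph, z2]; push_cast
  linear_combination -h2 + (- mu ^ 3 - mu ^ 7 + mu ^ 2) * h1

lemma normSq_ev1 (x : Z5) : Complex.normSq (Z5.ev z1 x) = N0 x + N1 x * Real.goldenRatio := by
  have h : ((Complex.normSq (Z5.ev z1 x) : ℝ) : ℂ) = N0 x + N1 x * phi := by
    rw [← Complex.mul_conj, conj_ev cyc1 conj_z1, ← Z5.ev_mul cyc1, mul_conj_self, ← ev1_ph]
    simp only [Z5.ev, ph]; push_cast; ring
  unfold phi at h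
  exact_mod_cast h

lemma normSq_ev2 (x : Z5) :
    Complex.normSq (Z5.ev z2 x) = N0 x + N1 x * (1 - Real.goldenRatio) := by
  have h : ((Complex.normSq (Z5.ev z2 x) : ℝ) : ℂ) = N0 x + N1 x * (1 - phi) := by
    rw [← Complex.mul_conj, conj_ev cyc2 conj_z2, ← Z5.ev_mul cyc2, mul_conj_self, ← ev2_ph]
    simp only [Z5.ev, ph]; push_cast; ring
  unfold phi at h
  exact_mod_cast h

/-- the bound at the second place -/
lemma bound_place2 (w : V3) (hd : dnorm w = ⟨4, 0, 0, 0⟩) :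
    Complex.normSq (Z5.ev z2 (TT w)) ≤ 16 := by
  have h4 : Z5.ev z2 ⟨4, 0, 0, 0⟩ = 4 := by simp [Z5.ev]
  have hD : Z5.ev z2 (dnorm w) = 4 := by rw [hd, h4]
  simp only [dnorm, Z5.ev_add, Z5.ev_sub, Z5.ev_mul cyc2, ← conj_ev cyc2 conj_z2, ev2_ph] at hD
  simp only [TT, Z5.ev_add, Z5.ev_sub, Z5.ev_mul cyc2, ev2_ph]
  generalize Z5.ev z2 w.x = a at *
  generalize Z5.ev z2 w.y = b at *
  generalize Z5.ev z2 w.z = c at *
  rw [Complex.mul_conj, Complex.mul_conj, Complex.mul_conj] at hD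
  have hD' : Complex.normSq a + Complex.normSq b - (1 - Real.goldenRatio) * Complex.normSq c = 4 := by
    unfold phi at hD
    exact_mod_cast hD
  have hg : (1 : ℝ) < Real.goldenRatio := Real.one_lt_goldenRatio
  have hn : ‖a * a - b * b - (1 - phi) * (c * c)‖ ≤ 4 := by
    have e1 : a * a - b * b - (1 - phi) * (c * c) = a * a - b * b + ((Real.goldenRatio - 1 : ℝ) : ℂ) * (c * c) := by
      unfold phi; push_cast; ring
    rw [e1]
    calc ‖a * a - b * b + ((Real.goldenRatio - 1 : ℝ) : ℂ) * (c * c)‖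
        ≤ ‖a * a‖ + ‖b * b‖ + ‖((Real.goldenRatio - 1 : ℝ) : ℂ) * (c * c)‖ := by
          refine (norm_add_le _ _).trans ?_
          gcongr
          exact norm_sub_le _ _
      _ = Complex.normSq a + Complex.normSq b - (1 - Real.goldenRatio) * Complex.normSq c := by
          rw [norm_mul, norm_mul, norm_mul, norm_mul, Complex.norm_real, Real.norm_eq_abs,
            abs_of_pos (by linarith), Complex.normSq_eq_norm_sq, Complex.normSq_eq_norm_sq,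
            Complex.normSq_eq_norm_sq]
          ring
      _ = 4 := hD'
  rw [Complex.normSq_eq_norm_sq]
  nlinarith [norm_nonneg (a * a - b * b - (1 - phi) * (c * c))]

/-- no norm-one lattice vector has a small value at both places -/
theorem no_small' (e : V3) (he : hnorm e = 1)
    (h1 : Complex.normSq (Z5.ev z1 (TT (M3.app CC e))) ≤ 16) : False := by
  have hd : dnorm (M3.app CC e) = ⟨4, 0, 0, 0⟩ := by rw [dnorm_CC, he, mul_one]
  have h2 := bound_place2 _ hd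
  rw [normSq_ev1] at h1
  rw [normSq_ev2] at h2
  have hg : Real.goldenRatio ^ 2 = Real.goldenRatio + 1 := Real.goldenRatio_sq
  refine no_small e he ?_ ?_
  · have : (2 * (N0 (TT (M3.app CC e)) : ℝ) + N1 (TT (M3.app CC e))) ≤ 32 := by linarith
    exact_mod_cast this
  · generalize N0 (TT (M3.app CC e)) = n0 at *
    generalize N1 (TT (M3.app CC e)) = n1 at *
    generalize Real.goldenRatio = g at *
    have h3 : 0 ≤ (16 - (n0 + n1 * g)) * (16 - (n0 + n1 * (1 - g))) :=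
      mul_nonneg (by linarith) (by linarith)
    have h4 : (16 - ((n0 : ℝ) + n1 * g)) * (16 - (n0 + n1 * (1 - g))) =
        (16 - n0) * (16 - n0) - (16 - n0) * n1 - n1 * n1 := by
      linear_combination (-(n1 : ℝ) ^ 2) * hg
    rw [h4] at h3
    exact_mod_cast h3


/-! ### the plane -/

lemma ev_eq_of_eq {z : ℂ} {x y : Z5} (h : x = y) : Z5.ev z x = Z5.ev z y := by rw [h]

lemma herm_act_BB (y v : Fin 3 → ℂ) : herm (M3.act z1 BB y) v =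
    y 0 * conj (M3.act z1 CC v 0) + y 1 * conj (M3.act z1 CC v 1)
      - phi * (y 2 * conj (M3.act z1 CC v 2)) := by
  have c := fun x => conj_ev cyc1 conj_z1 x
  have a00 := ev_eq_of_eq (z := z1) (show BB.m00 - ph * BB.m10 = CC.m00.conj by decide)
  have a01 := ev_eq_of_eq (z := z1) (show BB.m10 - ph * (BB.m00 + BB.m20) = CC.m01.conj by decide)
  have a02 := ev_eq_of_eq (z := z1) (show BB.m20 - ph * BB.m10 = CC.m02.conj by decide)
  have a10 := ev_eq_of_eq (z := z1) (show BB.m01 - ph * BB.m11 = CC.m10.conj by decide)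
  have a11 := ev_eq_of_eq (z := z1) (show BB.m11 - ph * (BB.m01 + BB.m21) = CC.m11.conj by decide)
  have a12 := ev_eq_of_eq (z := z1) (show BB.m21 - ph * BB.m11 = CC.m12.conj by decide)
  have a20 := ev_eq_of_eq (z := z1) (show BB.m02 - ph * BB.m12 = -(ph * CC.m20.conj) by decide)
  have a21 := ev_eq_of_eq (z := z1)
    (show BB.m12 - ph * (BB.m02 + BB.m22) = -(ph * CC.m21.conj) by decide)
  have a22 := ev_eq_of_eq (z := z1) (show BB.m22 - ph * BB.m12 = -(ph * CC.m22.conj) by decide)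
  simp only [Z5.ev_sub, Z5.ev_add, Z5.ev_neg, Z5.ev_mul cyc1, ev1_ph] at a00 a01 a02 a10 a11 a12 a20 a21 a22
  simp only [herm, M3.act, Matrix.cons_val_zero, Matrix.cons_val_one, Matrix.cons_val, map_add,
    map_mul, c]
  linear_combination (y 0 * conj (v 0)) * a00 + (y 0 * conj (v 1)) * a01
    + (y 0 * conj (v 2)) * a02 + (y 1 * conj (v 0)) * a10 + (y 1 * conj (v 1)) * a11
    + (y 1 * conj (v 2)) * a12 + (y 2 * conj (v 0)) * a20 + (y 2 * conj (v 1)) * a21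
    + (y 2 * conj (v 2)) * a22

lemma act_CC_BB (y : Fin 3 → ℂ) : M3.act z1 CC (M3.act z1 BB y) = (4 : ℂ) • y := by
  rw [← M3.act_mul cyc1, CC_BB]
  ext j; fin_cases j <;> simp [M3.act, Z5.ev_zero, Z5.ev]

lemma act_BB_CC (y : Fin 3 → ℂ) : M3.act z1 BB (M3.act z1 CC y) = (4 : ℂ) • y := by
  rw [← M3.act_mul cyc1, BB_CC]
  ext j; fin_cases j <;> simp [M3.act, Z5.ev_zero, Z5.ev]

lemma herm_BB_BB (y y' : Fin 3 → ℂ) : herm (M3.act z1 BB y) (M3.act z1 BB y') =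
    4 * (y 0 * conj (y' 0) + y 1 * conj (y' 1) - phi * (y 2 * conj (y' 2))) := by
  rw [herm_act_BB, act_CC_BB]
  simp only [Pi.smul_apply, smul_eq_mul, map_mul, Complex.conj_ofNat]
  ring

/-- `θ` as a complex number -/
noncomputable def tz : ℂ := Z5.ev z1 th

lemma conj_tz : conj tz = -tz := by
  unfold tz
  rw [conj_ev cyc1 conj_z1, ← Z5.ev_neg]
  exact ev_eq_of_eq (by decide)

lemma tz_mul_self : tz * tz = -(2 + phi) := by
  unfold tz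
  rw [← Z5.ev_mul cyc1, ← ev1_ph]
  have h2 : Z5.ev z1 ⟨2, 0, 0, 0⟩ = 2 := by simp [Z5.ev]
  rw [← h2, ← Z5.ev_add, ← Z5.ev_neg]
  exact ev_eq_of_eq (by decide)

lemma tz_re : tz.re = 0 := by
  have h := congrArg Complex.re conj_tz
  simp at h
  linarith

lemma tz_im_sq : tz.im ^ 2 = 2 + Real.goldenRatio := by
  have h := congrArg Complex.re tz_mul_self
  have h2 : (-(2 + phi) : ℂ).re = -(2 + Real.goldenRatio) := by
    unfold phi
    simp only [Complex.neg_re, Complex.add_re, Complex.ofReal_re, Complex.re_ofNat]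
  rw [h2, Complex.mul_re, tz_re] at h
  linarith

/-- the real-linear parametrisation of the plane -/
noncomputable def wmap : (Fin 3 → ℝ) →ₗ[ℝ] (Fin 3 → ℂ) where
  toFun y := M3.act z1 BB ![(y 0 : ℂ), tz * y 1, (y 2 : ℂ)]
  map_add' x y := by
    ext j; fin_cases j <;> simp [M3.act] <;> ring
  map_smul' c y := by
    ext j; fin_cases j <;> simp [M3.act] <;> ring

lemma wmap_apply (y : Fin 3 → ℝ) : wmap y = M3.act z1 BB ![(y 0 : ℂ), tz * y 1, (y 2 : ℂ)] := rfl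

/-- the quadratic form of the plane -/
noncomputable def qf (y : Fin 3 → ℝ) : ℝ :=
  y 0 ^ 2 + (2 + Real.goldenRatio) * y 1 ^ 2 - Real.goldenRatio * y 2 ^ 2

lemma herm_wmap (x y : Fin 3 → ℝ) : herm (wmap x) (wmap y) =
    ((4 * (x 0 * y 0 + (2 + Real.goldenRatio) * (x 1 * y 1) - Real.goldenRatio * (x 2 * y 2)) : ℝ) : ℂ) := by
  rw [wmap_apply, wmap_apply, herm_BB_BB]
  simp only [Matrix.cons_val_zero, Matrix.cons_val_one, Matrix.cons_val, map_mul, conj_tz,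
    Complex.conj_ofReal]
  have h := tz_mul_self
  unfold phi at h ⊢
  generalize Real.goldenRatio = g at h ⊢
  push_cast
  linear_combination (-4 * (x 1 : ℂ) * y 1) * h

lemma herm_wmap_self (x : Fin 3 → ℝ) : (herm (wmap x) (wmap x)).re = 4 * qf x := by
  rw [herm_wmap, Complex.ofReal_re, qf]; ring

/-- Cauchy–Schwarz on the orthogonal complement of a negative vector -/
lemma cs_real (Y X Z a1 b1 c1 a2 b2 c2 g : ℝ) (hg : 0 < g) (hn : Y ^ 2 + X ^ 2 < g * Z ^ 2)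
    (h1 : Y * a1 + X * b1 = g * Z * c1) (h2 : Y * a2 + X * b2 = g * Z * c2) :
    (a1 * a2 + b1 * b2 - g * (c1 * c2)) ^ 2 ≤
      (a1 ^ 2 + b1 ^ 2 - g * c1 ^ 2) * (a2 ^ 2 + b2 ^ 2 - g * c2 ^ 2) := by
  have hZ : 0 < g * Z ^ 2 := lt_of_le_of_lt (by positivity) hn
  have key : g * Z ^ 2 * ((a1 ^ 2 + b1 ^ 2 - g * c1 ^ 2) * (a2 ^ 2 + b2 ^ 2 - g * c2 ^ 2)
      - (a1 * a2 + b1 * b2 - g * (c1 * c2)) ^ 2) =
      (g * Z ^ 2 - Y ^ 2 - X ^ 2) * (a1 * b2 - a2 * b1) ^ 2 := by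
    have e1 : a1 * (g * Z * c2) - a2 * (g * Z * c1) = X * (a1 * b2 - a2 * b1) := by
      rw [← h1, ← h2]; ring
    have e2 : b1 * (g * Z * c2) - b2 * (g * Z * c1) = -(Y * (a1 * b2 - a2 * b1)) := by
      rw [← h1, ← h2]; ring
    calc g * Z ^ 2 * ((a1 ^ 2 + b1 ^ 2 - g * c1 ^ 2) * (a2 ^ 2 + b2 ^ 2 - g * c2 ^ 2)
      - (a1 * a2 + b1 * b2 - g * (c1 * c2)) ^ 2)
        = g * Z ^ 2 * (a1 * b2 - a2 * b1) ^ 2 - (a1 * (g * Z * c2) - a2 * (g * Z * c1)) ^ 2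
          - (b1 * (g * Z * c2) - b2 * (g * Z * c1)) ^ 2 := by ring
      _ = _ := by rw [e1, e2]; ring
  have : 0 ≤ (g * Z ^ 2 - Y ^ 2 - X ^ 2) * (a1 * b2 - a2 * b1) ^ 2 :=
    mul_nonneg (by linarith) (sq_nonneg _)
  rw [← key] at this
  have := nonneg_of_mul_nonneg_right this hZ
  linarith


/-- no norm-one lattice vector is orthogonal to a negative vector of the plane -/
theorem no_orth (y : Fin 3 → ℝ) (hq : qf y < 0) (e : V3) (he : hnorm e = 1)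
    (h : herm (wmap y) (V3.ev z1 e) = 0) : False := by
  have hd : dnorm (M3.app CC e) = ⟨4, 0, 0, 0⟩ := by rw [dnorm_CC, he, mul_one]
  have h4 : Z5.ev z1 ⟨4, 0, 0, 0⟩ = 4 := by simp [Z5.ev]
  have hD : Z5.ev z1 (dnorm (M3.app CC e)) = 4 := by rw [hd, h4]
  refine no_small' e he ?_
  rw [wmap_apply, herm_act_BB, M3.act_ev cyc1] at h
  simp only [dnorm, Z5.ev_add, Z5.ev_sub, Z5.ev_mul cyc1, ← conj_ev cyc1 conj_z1, ev1_ph] at hD
  simp only [TT, Z5.ev_add, Z5.ev_sub, Z5.ev_mul cyc1, ev1_ph]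
  simp only [V3.ev, Matrix.cons_val_zero, Matrix.cons_val_one, Matrix.cons_val] at h
  generalize Z5.ev z1 (M3.app CC e).x = a at *
  generalize Z5.ev z1 (M3.app CC e).y = b at *
  generalize Z5.ev z1 (M3.app CC e).z = c at *
  have hs := tz_im_sq
  have hr := tz_re
  have hg0 : 0 < Real.goldenRatio := Real.goldenRatio_pos
  unfold qf at hq
  unfold phi at hD h ⊢
  generalize Real.goldenRatio = g at *
  have hDr := congrArg Complex.re hD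
  have hre := congrArg Complex.re h
  have him := congrArg Complex.im h
  simp only [Complex.add_re, Complex.sub_re, Complex.mul_re, Complex.conj_re, Complex.conj_im,
    Complex.add_im, Complex.sub_im, Complex.mul_im, Complex.ofReal_re, Complex.ofReal_im,
    Complex.zero_re, Complex.zero_im, Complex.re_ofNat, hr] at hDr hre him
  have cs := cs_real (y 0) (tz.im * y 1) (y 2) a.re b.im c.re a.im (-b.re) c.im g hg0
    (by nlinarith) (by linarith) (by linarith)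
  rw [Complex.normSq_apply]
  simp only [Complex.add_re, Complex.sub_re, Complex.mul_re,
    Complex.add_im, Complex.sub_im, Complex.mul_im, Complex.ofReal_re, Complex.ofReal_im]
  have e1 : a.re * a.re - a.im * a.im - (b.re * b.re - b.im * b.im) -
      (g * (c.re * c.re - c.im * c.im) - 0 * (c.re * c.im + c.im * c.re)) =
      (a.re ^ 2 + b.im ^ 2 - g * c.re ^ 2) - (a.im ^ 2 + (-b.re) ^ 2 - g * c.im ^ 2) := by ring
  have e2 : a.re * a.im + a.im * a.re - (b.re * b.im + b.im * b.re) -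
      (g * (c.re * c.im + c.im * c.re) + 0 * (c.re * c.re - c.im * c.im)) =
      2 * (a.re * a.im + b.im * -b.re - g * (c.re * c.im)) := by ring
  have e3 : (a.re ^ 2 + b.im ^ 2 - g * c.re ^ 2) + (a.im ^ 2 + (-b.re) ^ 2 - g * c.im ^ 2) = 4 := by
    linarith
  rw [e1, e2]
  generalize a.re ^ 2 + b.im ^ 2 - g * c.re ^ 2 = Q1 at *
  generalize a.im ^ 2 + (-b.re) ^ 2 - g * c.im ^ 2 = Q2 at *
  generalize a.re * a.im + b.im * -b.re - g * (c.re * c.im) = Q12 at *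
  have e4 : (Q1 + Q2) ^ 2 = 16 := by rw [e3]; norm_num
  linarith


/-! ### the lattice acts by integral matrices -/

lemma herm_symm (x y : Fin 3 → ℂ) : conj (herm x y) = herm y x := by
  have hc := conj_phi
  simp only [herm, map_add, map_sub, map_mul, Complex.conj_conj, hc]
  ring

lemma herm_add_right (x y z : Fin 3 → ℂ) : herm x (y + z) = herm x y + herm x z := by
  simp only [herm, Pi.add_apply, map_add]; ring

lemma herm_smul_right (c : ℂ) (x z : Fin 3 → ℂ) : herm x (c • z) = conj c * herm x z := by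
  simp only [herm, Pi.smul_apply, smul_eq_mul, map_mul]; ring

lemma halfTwist_apply (i : Fin 4) (x : Fin 3 → ℂ) :
    halfTwist i x = x + ((mu - 1) * herm x (root i)) • root i := rfl

lemma halfTwist_symm_apply (i : Fin 4) (x : Fin 3 → ℂ) :
    (halfTwist i)⁻¹ x = x + ((conj mu - 1) * herm x (root i)) • root i := rfl

lemma herm_halfTwist (i : Fin 4) (x y : Fin 3 → ℂ) :
    herm (halfTwist i x) (halfTwist i y) = herm x y := by
  have h := mu_mul_conj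
  rw [halfTwist_apply, halfTwist_apply, herm_add_left, herm_add_right, herm_add_right,
    herm_smul_left, herm_smul_left, herm_smul_right, herm_smul_right, herm_root_self,
    map_mul, map_sub, map_one, herm_symm, ← herm_symm y (root i)]
  rw [herm_symm y (root i)]
  linear_combination (herm x (root i) * herm (root i) y) * h

lemma herm_full {g : (Fin 3 → ℂ) ≃ₗ[ℂ] (Fin 3 → ℂ)} (hg : g ∈ DeltaFull) :
    ∀ x y : Fin 3 → ℂ, herm (g x) (g y) = herm x y := by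
  unfold DeltaFull at hg
  induction hg using Subgroup.closure_induction with
  | mem g hg =>
    obtain ⟨i, rfl⟩ := hg
    exact herm_halfTwist i
  | one => intro x y; rfl
  | mul a b _ _ ha hb => intro x y; rw [LinearEquiv.mul_apply, LinearEquiv.mul_apply, ha, hb]
  | inv a _ ha =>
    intro x y
    rw [← ha (a⁻¹ x) (a⁻¹ y), ← LinearEquiv.mul_apply, ← LinearEquiv.mul_apply, mul_inv_cancel]
    rfl

/-- integral matrices of the half twists -/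
def RM : Fin 4 → M3 :=
  ![⟨⟨0, 0, 0, -1⟩, ⟨-1, -1, -1, -1⟩, 0, 0, 1, 0, 0, 0, 1⟩,
    ⟨1, 0, 0, ⟨-1, -1, -1, -1⟩, ⟨0, 0, 0, -1⟩, ⟨-1, -1, -1, -1⟩, 0, 0, 1⟩,
    ⟨1, 0, 0, 0, 1, 0, 0, ⟨-1, -1, -1, -1⟩, ⟨0, 0, 0, -1⟩⟩,
    ⟨1, 0, ⟨-1, -1, -1, -1⟩, 0, 1, ⟨1, 0, 0, 1⟩, 0, 0, ⟨0, 0, 0, -1⟩⟩]

/-- integral roots -/
def rootZ : Fin 4 → V3 :=
  ![⟨1, 0, 0⟩, ⟨0, 1, 0⟩, ⟨0, 0, 1⟩, ⟨1, ⟨-1, 0, -1, -1⟩, ⟨1, 0, 1, 1⟩⟩]

lemma rootZ_ev (i : Fin 4) : V3.ev z1 (rootZ i) = root i := by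
  have h := ev1_ph
  simp only [Z5.ev, ph] at h
  fin_cases i <;> ext j <;> fin_cases j <;>
    simp [V3.ev, rootZ, root, Z5.ev_one, Z5.ev_zero] <;> simp [Z5.ev] <;>
    push_cast at h <;> first | linear_combination h | linear_combination -h

lemma hnorm_rootZ (i : Fin 4) : hnorm (rootZ i) = 1 := by
  revert i; decide

lemma ev1_mu : Z5.ev z1 ⟨0, 0, 0, -1⟩ = mu := by
  have h1 := mu_pow_five
  simp only [Z5.ev, z1]; push_cast
  linear_combination (-mu) * h1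

lemma ev1_nu : Z5.ev z1 ⟨-1, -1, -1, -1⟩ = -phi * (mu - 1) := by
  have h1 := mu_pow_five
  rw [phi_eq]
  simp only [Z5.ev, z1]; push_cast
  linear_combination (-mu - 1) * h1

lemma ev1_om : Z5.ev z1 ⟨1, 0, 0, 1⟩ = 1 - mu := by
  have h1 := mu_pow_five
  simp only [Z5.ev, z1]; push_cast
  linear_combination mu * h1

/-- `g` acts by the integral matrix `G` -/
def Rep (g : (Fin 3 → ℂ) ≃ₗ[ℂ] (Fin 3 → ℂ)) (G : M3) : Prop := ∀ x, g x = M3.act z1 G x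

lemma Rep.mul {g h : (Fin 3 → ℂ) ≃ₗ[ℂ] (Fin 3 → ℂ)} {G H : M3} (hg : Rep g G) (hh : Rep h H) :
    Rep (g * h) (M3.mul G H) := by
  intro x
  rw [LinearEquiv.mul_apply, hh, hg, M3.act_mul cyc1]

lemma Rep.one : Rep 1 M3.one := by
  intro x
  rw [M3.act_one]; rfl

lemma rep_halfTwist (i : Fin 4) : Rep (halfTwist i) (RM i) := by
  intro x
  have h1 := ev1_mu
  have h2 := ev1_nu
  have h3 := ev1_om
  have hp := phi_sq
  have hc := conj_phi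
  rw [halfTwist_apply]
  fin_cases i <;> ext j <;> fin_cases j <;>
    simp [M3.act, RM, herm, root, Z5.ev_one, Z5.ev_zero, h1, h2, h3, hc]
  all_goals first
    | ring1
    | linear_combination ((mu - 1) * (-x 0 + x 1 - x 2)) * hp
    | linear_combination ((mu - 1) * ((-x 0 + x 1 - x 2) * (phi - 1) - x 2)) * hp
    | linear_combination (-(mu - 1) * ((-x 0 + x 1 - x 2) * (phi - 1) - x 2)) * hp

/-- integral matrices of the inverse half twists -/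
def RN : Fin 4 → M3 :=
  ![⟨⟨0, 0, -1, 0⟩, ⟨0, 1, 0, 0⟩, 0, 0, 1, 0, 0, 0, 1⟩,
    ⟨1, 0, 0, ⟨0, 1, 0, 0⟩, ⟨0, 0, -1, 0⟩, ⟨0, 1, 0, 0⟩, 0, 0, 1⟩,
    ⟨1, 0, 0, 0, 1, 0, 0, ⟨0, 1, 0, 0⟩, ⟨0, 0, -1, 0⟩⟩,
    ⟨1, 0, ⟨0, 1, 0, 0⟩, 0, 1, ⟨1, 0, 1, 0⟩, 0, 0, ⟨0, 0, -1, 0⟩⟩]

lemma RM_RN (i : Fin 4) : M3.mul (RM i) (RN i) = M3.one := by
  revert i; decide +kernel
lemma RN_RM (i : Fin 4) : M3.mul (RN i) (RM i) = M3.one := by
  revert i; decide +kernel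

lemma Rep.inv {g : (Fin 3 → ℂ) ≃ₗ[ℂ] (Fin 3 → ℂ)} {G H : M3} (hg : Rep g G)
    (h : M3.mul G H = M3.one) : Rep g⁻¹ H := by
  intro x
  have h1 : g (M3.act z1 H x) = x := by
    rw [hg, ← M3.act_mul cyc1, h, M3.act_one]
  calc g⁻¹ x = g⁻¹ (g (M3.act z1 H x)) := by rw [h1]
    _ = M3.act z1 H x := by rw [← LinearEquiv.mul_apply, inv_mul_cancel]; rfl

lemma rep_halfTwist_inv (i : Fin 4) : Rep (halfTwist i)⁻¹ (RN i) :=
  (rep_halfTwist i).inv (RM_RN i)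

lemma hnorm_RM (i : Fin 4) (v : V3) : hnorm (M3.app (RM i) v) = hnorm v := by
  obtain ⟨⟨x0, x1, x2, x3⟩, ⟨y0, y1, y2, y3⟩, ⟨w0, w1, w2, w3⟩⟩ := v
  fin_cases i <;> ext <;> simp [hnorm, M3.app, RM, ph] <;> ring

lemma hnorm_RN (i : Fin 4) (v : V3) : hnorm (M3.app (RN i) v) = hnorm v := by
  obtain ⟨⟨x0, x1, x2, x3⟩, ⟨y0, y1, y2, y3⟩, ⟨w0, w1, w2, w3⟩⟩ := v
  fin_cases i <;> ext <;> simp [hnorm, M3.app, RN, ph] <;> ring

/-- every element of the lattice is an integral matrix preserving the integral norm -/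
lemma full_rep {g : (Fin 3 → ℂ) ≃ₗ[ℂ] (Fin 3 → ℂ)} (hg : g ∈ DeltaFull) :
    (∃ G, Rep g G ∧ ∀ v, hnorm (M3.app G v) = hnorm v) ∧
      (∃ G, Rep g⁻¹ G ∧ ∀ v, hnorm (M3.app G v) = hnorm v) := by
  unfold DeltaFull at hg
  induction hg using Subgroup.closure_induction with
  | mem g hg =>
    obtain ⟨i, rfl⟩ := hg
    exact ⟨⟨RM i, rep_halfTwist i, hnorm_RM i⟩, ⟨RN i, rep_halfTwist_inv i, hnorm_RN i⟩⟩
  | one =>
    have h : ∀ v, hnorm (M3.app M3.one v) = hnorm v := by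
      intro v
      have : M3.app M3.one v = v := by
        ext1 <;> simp only [M3.app, M3.one] <;> ring
      rw [this]
    exact ⟨⟨M3.one, Rep.one, h⟩, ⟨M3.one, by rw [inv_one]; exact Rep.one, h⟩⟩
  | mul a b _ _ ha hb =>
    obtain ⟨⟨A, hA, hA'⟩, ⟨A1, hA1, hA1'⟩⟩ := ha
    obtain ⟨⟨B, hB, hB'⟩, ⟨B1, hB1, hB1'⟩⟩ := hb
    refine ⟨⟨M3.mul A B, hA.mul hB, fun v => ?_⟩, ⟨M3.mul B1 A1, ?_, fun v => ?_⟩⟩
    · rw [M3.app_mul, hA', hB']
    · rw [mul_inv_rev]; exact hB1.mul hA1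
    · rw [M3.app_mul, hB1', hA1']
  | inv a _ ha =>
    exact ⟨ha.2, by rw [inv_inv]; exact ha.1⟩

/-- an orbit point of a root is never orthogonal to a negative vector of the plane -/
theorem miss {g : (Fin 3 → ℂ) ≃ₗ[ℂ] (Fin 3 → ℂ)} (hg : g ∈ DeltaFull) (i : Fin 4)
    (y : Fin 3 → ℝ) (hq : qf y < 0) : herm (wmap y) (g (root i)) ≠ 0 := by
  intro h
  obtain ⟨⟨G, hG, hG'⟩, -⟩ := full_rep hg
  rw [hG, ← rootZ_ev, M3.act_ev cyc1] at h
  exact no_orth y hq _ (by rw [hG', hnorm_rootZ]) h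

/-! ### the real form -/

/-- the real form -/
noncomputable def WW : Submodule ℝ (Fin 3 → ℂ) := LinearMap.range wmap

lemma wmap_mem (y : Fin 3 → ℝ) : wmap y ∈ WW := ⟨y, rfl⟩

lemma tz_ne : tz ≠ 0 := by
  intro h
  have h1 := tz_mul_self
  rw [h] at h1
  have h2 := congrArg Complex.re h1
  have h3 : (-(2 + phi) : ℂ).re = -(2 + Real.goldenRatio) := by
    unfold phi
    simp only [Complex.neg_re, Complex.add_re, Complex.ofReal_re, Complex.re_ofNat]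
  rw [h3] at h2
  have := Real.goldenRatio_pos
  simp at h2
  linarith

lemma wmap_inj : Function.Injective wmap := by
  intro x y h
  have h1 := congrArg (M3.act z1 CC) h
  rw [wmap_apply, wmap_apply, act_CC_BB, act_CC_BB] at h1
  have h0 := tz_ne
  have e0 := congrFun h1 0
  have e1 := congrFun h1 1
  have e2 := congrFun h1 2
  simp [h0] at e0 e1 e2
  ext j; fin_cases j
  · exact e0
  · exact e1
  · exact e2

lemma isRealPlane_WW : IsRealPlane WW := by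
  refine ⟨?_, ?_, ?_, ?_⟩
  · unfold WW
    rw [LinearMap.finrank_range_of_inj wmap_inj]
    simp
  · rw [eq_top_iff]
    rintro v -
    have h0 := tz_ne
    have h : v = (M3.act z1 CC v 0 / 4) • wmap ![1, 0, 0] + (M3.act z1 CC v 1 / (4 * tz)) • wmap ![0, 1, 0]
        + (M3.act z1 CC v 2 / 4) • wmap ![0, 0, 1] := by
      have h1 := act_BB_CC v
      have h2 : v = (1 / 4 : ℂ) • M3.act z1 BB (M3.act z1 CC v) := by
        rw [h1, smul_smul]; norm_num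
      conv_lhs => rw [h2]
      rw [wmap_apply, wmap_apply, wmap_apply]
      ext j
      fin_cases j <;> simp [M3.act] <;> field_simp
    rw [h]
    refine Submodule.add_mem _ (Submodule.add_mem _ ?_ ?_) ?_ <;>
      exact Submodule.smul_mem _ _ (Submodule.subset_span (wmap_mem _))
  · rintro _ ⟨x, rfl⟩ _ ⟨y, rfl⟩
    rw [herm_wmap, Complex.ofReal_im]
  · refine ⟨wmap ![0, 0, 1], wmap_mem _, ?_⟩
    rw [herm_wmap_self]
    have := Real.goldenRatio_pos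
    unfold qf
    generalize Real.goldenRatio = g at *
    simp
    linarith

theorem disjoint_WW : Disjoint (planeOf WW) collisionLocus := by
  rw [Set.disjoint_left]
  rintro p ⟨hp, w, ⟨y, rfl⟩, hw0, rfl⟩ ⟨-, g, hg, i, h⟩
  obtain ⟨c, hc⟩ := Projectivization.exists_smul_eq_mk_rep ℂ (wmap y) hw0
  unfold hypPlane at hp
  change (herm (Projectivization.mk ℂ (wmap y) hw0).rep
    (Projectivization.mk ℂ (wmap y) hw0).rep).re < 0 at hp
  rw [← hc] at hp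
  rw [← hc] at h
  have hc0 : (c : ℂ) ≠ 0 := c.ne_zero
  change herm ((c : ℂ) • wmap y) (g (root i)) = 0 at h
  change (herm ((c : ℂ) • wmap y) ((c : ℂ) • wmap y)).re < 0 at hp
  rw [herm_smul_left] at h
  rw [herm_smul_left, herm_smul_right, herm_wmap, ← mul_assoc, Complex.mul_conj,
    ← Complex.ofReal_mul, Complex.ofReal_re] at hp
  have hn : 0 < Complex.normSq c := Complex.normSq_pos.2 hc0
  refine miss hg i y ?_ ((mul_eq_zero.1 h).resolve_left hc0)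
  have h1 : Complex.normSq c * (4 * qf y) < 0 := by
    refine lt_of_eq_of_lt ?_ hp
    unfold qf; ring
  by_contra h2
  push Not at h2
  have := mul_nonneg hn.le (mul_nonneg (by norm_num : (0 : ℝ) ≤ 4) h2)
  linarith


/-! ### the stabiliser of the real form and its action -/

/-- the four reflections of the plane, in coordinates `(Y, θ X, Z)` -/
def refl : Fin 4 → M3 :=
  ![⟨⟨-1, 0, 0, 0⟩, 0, 0, 0, 1, 0, 0, 0, 1⟩,
    ⟨1, 0, 0, 0, ⟨-1, 0, 0, 0⟩, 0, 0, 0, 1⟩,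
    ⟨⟨0, 0, 1, 1⟩, 0, ⟨0, 0, -1, -1⟩, 0, 1, 0, ⟨-1, 0, 0, 0⟩, 0, ⟨0, 0, -1, -1⟩⟩,
    ⟨1, 0, 0, 0, ⟨-1, 0, 1, 1⟩, ⟨1, 2, 2, 0⟩, 0, ⟨1, 2, 1, 1⟩, ⟨1, 0, -1, -1⟩⟩]

/-- coset representatives -/
def Wi : Fin 24 → M3 :=
  ![⟨1, 0, 0, 0, 1, 0, 0, 0, 1⟩,
    ⟨⟨-1, 0, 0, 0⟩, 0, 0, 0, 1, 0, 0, 0, 1⟩,
    ⟨1, 0, 0, 0, ⟨-1, 0, 0, 0⟩, 0, 0, 0, 1⟩,
    ⟨⟨0, 0, 1, 1⟩, 0, ⟨0, 0, -1, -1⟩, 0, 1, 0, ⟨-1, 0, 0, 0⟩, 0, ⟨0, 0, -1, -1⟩⟩,
    ⟨1, 0, 0, 0, ⟨-1, 0, 1, 1⟩, ⟨1, 2, 2, 0⟩, 0, ⟨1, 2, 1, 1⟩, ⟨1, 0, -1, -1⟩⟩,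
    ⟨⟨-1, 0, 0, 0⟩, 0, 0, 0, ⟨-1, 0, 0, 0⟩, 0, 0, 0, 1⟩,
    ⟨⟨0, 0, -1, -1⟩, 0, ⟨0, 0, 1, 1⟩, 0, 1, 0, ⟨-1, 0, 0, 0⟩, 0, ⟨0, 0, -1, -1⟩⟩,
    ⟨⟨-1, 0, 0, 0⟩, 0, 0, 0, ⟨-1, 0, 1, 1⟩, ⟨1, 2, 2, 0⟩, 0, ⟨1, 2, 1, 1⟩, ⟨1, 0, -1, -1⟩⟩,
    ⟨⟨0, 0, 1, 1⟩, 0, ⟨0, 0, -1, -1⟩, 0, ⟨-1, 0, 0, 0⟩, 0, ⟨-1, 0, 0, 0⟩, 0, ⟨0, 0, -1, -1⟩⟩,
    ⟨1, 0, 0, 0, ⟨1, 0, -1, -1⟩, ⟨-1, -2, -2, 0⟩, 0, ⟨1, 2, 1, 1⟩, ⟨1, 0, -1, -1⟩⟩,
    ⟨⟨0, 0, -1, -1⟩, 0, ⟨0, 0, -1, -1⟩, 0, 1, 0, 1, 0, ⟨0, 0, -1, -1⟩⟩,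
    ⟨⟨0, 0, 1, 1⟩, ⟨1, 2, 2, 0⟩, ⟨1, 0, -2, -2⟩, 0, ⟨-1, 0, 1, 1⟩, ⟨1, 2, 2, 0⟩, ⟨-1, 0, 0, 0⟩, ⟨1, 2, 2, 0⟩, ⟨1, 0, -2, -2⟩⟩,
    ⟨⟨0, 0, 1, 1⟩, 0, ⟨0, 0, -1, -1⟩, ⟨-1, -2, -2, 0⟩, ⟨-1, 0, 1, 1⟩, ⟨2, 4, 3, 1⟩, ⟨-1, 0, 1, 1⟩, ⟨1, 2, 1, 1⟩, ⟨1, 0, -2, -2⟩⟩,
    ⟨⟨-1, 0, 0, 0⟩, 0, 0, 0, ⟨1, 0, -1, -1⟩, ⟨-1, -2, -2, 0⟩, 0, ⟨1, 2, 1, 1⟩, ⟨1, 0, -1, -1⟩⟩,
    ⟨⟨0, 0, -1, -1⟩, ⟨-1, -2, -2, 0⟩, ⟨-1, 0, 2, 2⟩, 0, ⟨-1, 0, 1, 1⟩, ⟨1, 2, 2, 0⟩, ⟨-1, 0, 0, 0⟩, ⟨1, 2, 2, 0⟩, ⟨1, 0, -2, -2⟩⟩,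
    ⟨⟨0, 0, -1, -1⟩, 0, ⟨0, 0, 1, 1⟩, ⟨-1, -2, -2, 0⟩, ⟨-1, 0, 1, 1⟩, ⟨2, 4, 3, 1⟩, ⟨-1, 0, 1, 1⟩, ⟨1, 2, 1, 1⟩, ⟨1, 0, -2, -2⟩⟩,
    ⟨⟨0, 0, 1, 1⟩, ⟨1, 2, 2, 0⟩, ⟨1, 0, -2, -2⟩, 0, ⟨1, 0, -1, -1⟩, ⟨-1, -2, -2, 0⟩, ⟨-1, 0, 0, 0⟩, ⟨1, 2, 2, 0⟩, ⟨1, 0, -2, -2⟩⟩,
    ⟨⟨0, 0, 1, 1⟩, 0, ⟨0, 0, -1, -1⟩, ⟨1, 2, 2, 0⟩, ⟨1, 0, -1, -1⟩, ⟨-2, -4, -3, -1⟩, ⟨-1, 0, 1, 1⟩, ⟨1, 2, 1, 1⟩, ⟨1, 0, -2, -2⟩⟩,
    ⟨⟨0, 0, -1, -1⟩, ⟨1, 2, 2, 0⟩, ⟨1, 0, -2, -2⟩, 0, ⟨-1, 0, 1, 1⟩, ⟨1, 2, 2, 0⟩, 1, ⟨1, 2, 2, 0⟩, ⟨1, 0, -2, -2⟩⟩,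
    ⟨⟨0, 0, 1, 1⟩, ⟨1, 2, 2, 0⟩, ⟨1, 0, -2, -2⟩, ⟨-1, -2, -2, 0⟩, ⟨-1, 0, 1, 1⟩, ⟨2, 4, 3, 1⟩, ⟨-1, 0, 1, 1⟩, ⟨1, 2, 2, 0⟩, ⟨2, 0, -2, -2⟩⟩,
    ⟨⟨0, 0, -1, -1⟩, 0, ⟨0, 0, 1, 1⟩, ⟨1, 2, 2, 0⟩, ⟨1, 0, -1, -1⟩, ⟨-2, -4, -3, -1⟩, ⟨-1, 0, 1, 1⟩, ⟨1, 2, 1, 1⟩, ⟨1, 0, -2, -2⟩⟩,
    ⟨⟨0, 0, -1, -1⟩, ⟨-1, -2, -2, 0⟩, ⟨-1, 0, 2, 2⟩, ⟨-1, -2, -2, 0⟩, ⟨-1, 0, 1, 1⟩, ⟨2, 4, 3, 1⟩, ⟨-1, 0, 1, 1⟩, ⟨1, 2, 2, 0⟩, ⟨2, 0, -2, -2⟩⟩,
    ⟨⟨0, 0, 1, 1⟩, ⟨1, 2, 2, 0⟩, ⟨1, 0, -2, -2⟩, ⟨1, 2, 2, 0⟩, ⟨1, 0, -1, -1⟩, ⟨-2, -4, -3, -1⟩, ⟨-1, 0, 1, 1⟩, ⟨1, 2, 2, 0⟩, ⟨2, 0, -2, -2⟩⟩,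
    ⟨⟨-2, 0, 3, 3⟩, ⟨1, 2, 2, 0⟩, ⟨3, 0, -4, -4⟩, ⟨-1, -2, -2, 0⟩, ⟨-1, 0, 1, 1⟩, ⟨2, 4, 3, 1⟩, ⟨-1, 0, 3, 3⟩, ⟨1, 2, 2, 0⟩, ⟨2, 0, -4, -4⟩⟩]

/-- stabiliser elements -/
def tm : Fin 15 → M3 :=
  ![⟨1, 0, 0, 0, 1, 0, 0, 0, 1⟩,
    ⟨1, 0, 0, 0, ⟨3, 0, -6, -6⟩, ⟨-6, -12, -10, -2⟩, 0, ⟨4, 8, 6, 2⟩, ⟨3, 0, -6, -6⟩⟩,
    ⟨⟨1, 0, -2, -2⟩, 0, ⟨2, 0, -2, -2⟩, 0, ⟨-1, 0, 0, 0⟩, 0, ⟨0, 0, -2, -2⟩, 0, ⟨1, 0, -2, -2⟩⟩,
    ⟨⟨1, 0, -2, -2⟩, 0, ⟨-2, 0, 2, 2⟩, 0, ⟨-1, 0, 0, 0⟩, 0, ⟨0, 0, 2, 2⟩, 0, ⟨1, 0, -2, -2⟩⟩,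
    ⟨1, 0, 0, 0, ⟨3, 0, -6, -6⟩, ⟨6, 12, 10, 2⟩, 0, ⟨-4, -8, -6, -2⟩, ⟨3, 0, -6, -6⟩⟩,
    ⟨⟨-5, 0, 8, 8⟩, ⟨6, 12, 10, 2⟩, ⟨8, 0, -14, -14⟩, ⟨6, 12, 10, 2⟩, ⟨3, 0, -6, -6⟩, ⟨-10, -20, -16, -4⟩, ⟨-6, 0, 8, 8⟩, ⟨6, 12, 10, 2⟩, ⟨9, 0, -14, -14⟩⟩,
    ⟨⟨1, 0, -2, -2⟩, ⟨-4, -8, -6, -2⟩, ⟨-4, 0, 6, 6⟩, ⟨-4, -8, -6, -2⟩, ⟨-5, 0, 8, 8⟩, ⟨10, 20, 16, 4⟩, ⟨-2, 0, 4, 4⟩, ⟨6, 12, 10, 2⟩, ⟨7, 0, -10, -10⟩⟩,
    ⟨⟨7, 0, -10, -10⟩, ⟨6, 12, 10, 2⟩, ⟨10, 0, -16, -16⟩, ⟨6, 12, 10, 2⟩, ⟨-3, 0, 6, 6⟩, ⟨10, 20, 16, 4⟩, ⟨6, 0, -10, -10⟩, ⟨6, 12, 10, 2⟩, ⟨9, 0, -16, -16⟩⟩,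
    ⟨⟨1, 0, -2, -2⟩, ⟨4, 8, 6, 2⟩, ⟨4, 0, -6, -6⟩, ⟨4, 8, 6, 2⟩, ⟨-5, 0, 8, 8⟩, ⟨10, 20, 16, 4⟩, ⟨2, 0, -4, -4⟩, ⟨6, 12, 10, 2⟩, ⟨7, 0, -10, -10⟩⟩,
    ⟨⟨-5, 0, 8, 8⟩, ⟨-6, -12, -10, -2⟩, ⟨8, 0, -14, -14⟩, ⟨-6, -12, -10, -2⟩, ⟨3, 0, -6, -6⟩, ⟨10, 20, 16, 4⟩, ⟨-6, 0, 8, 8⟩, ⟨-6, -12, -10, -2⟩, ⟨9, 0, -14, -14⟩⟩,
    ⟨⟨1, 0, -2, -2⟩, ⟨4, 8, 6, 2⟩, ⟨-4, 0, 6, 6⟩, ⟨4, 8, 6, 2⟩, ⟨-5, 0, 8, 8⟩, ⟨-10, -20, -16, -4⟩, ⟨-2, 0, 4, 4⟩, ⟨-6, -12, -10, -2⟩, ⟨7, 0, -10, -10⟩⟩,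
    ⟨⟨7, 0, -10, -10⟩, ⟨-6, -12, -10, -2⟩, ⟨-10, 0, 16, 16⟩, ⟨-6, -12, -10, -2⟩, ⟨-3, 0, 6, 6⟩, ⟨10, 20, 16, 4⟩, ⟨-6, 0, 10, 10⟩, ⟨6, 12, 10, 2⟩, ⟨9, 0, -16, -16⟩⟩,
    ⟨⟨1, 0, -2, -2⟩, ⟨-4, -8, -6, -2⟩, ⟨4, 0, -6, -6⟩, ⟨-4, -8, -6, -2⟩, ⟨-5, 0, 8, 8⟩, ⟨-10, -20, -16, -4⟩, ⟨2, 0, -4, -4⟩, ⟨-6, -12, -10, -2⟩, ⟨7, 0, -10, -10⟩⟩,
    ⟨⟨-7, 0, 12, 12⟩, ⟨-16, -32, -26, -6⟩, ⟨18, 0, -28, -28⟩, ⟨-4, -8, -6, -2⟩, ⟨5, 0, -8, -8⟩, ⟨10, 20, 16, 4⟩, ⟨-6, 0, 10, 10⟩, ⟨-14, -28, -22, -6⟩, ⟨15, 0, -24, -24⟩⟩,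
    ⟨⟨-7, 0, 12, 12⟩, ⟨4, 8, 6, 2⟩, ⟨10, 0, -16, -16⟩, ⟨16, 32, 26, 6⟩, ⟨5, 0, -8, -8⟩, ⟨-22, -44, -36, -8⟩, ⟨-10, 0, 18, 18⟩, ⟨6, 12, 10, 2⟩, ⟨15, 0, -24, -24⟩⟩]

/-- index of the new coset -/
def jx : Fin 24 → Fin 4 → Fin 24 :=
  ![![1, 2, 3, 4],
    ![0, 5, 6, 7],
    ![5, 0, 8, 9],
    ![10, 8, 0, 11],
    ![7, 9, 12, 0],
    ![2, 1, 10, 13],
    ![8, 10, 1, 14],
    ![4, 13, 15, 1],
    ![6, 3, 2, 16],
    ![13, 4, 17, 2],
    ![3, 6, 5, 18],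
    ![18, 16, 19, 3],
    ![15, 17, 4, 19],
    ![9, 7, 20, 5],
    ![16, 18, 21, 6],
    ![12, 20, 7, 21],
    ![14, 11, 22, 8],
    ![20, 12, 9, 22],
    ![11, 14, 23, 10],
    ![21, 22, 11, 12],
    ![17, 15, 13, 23],
    ![19, 23, 14, 15],
    ![23, 19, 16, 17],
    ![22, 21, 18, 20]]

/-- index of the stabiliser element -/
def tx : Fin 24 → Fin 4 → Fin 15 :=
  ![![0, 0, 0, 0],
    ![0, 0, 0, 0],
    ![0, 0, 0, 0],
    ![0, 0, 0, 0],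
    ![0, 4, 0, 0],
    ![0, 0, 3, 0],
    ![3, 3, 0, 0],
    ![0, 4, 0, 0],
    ![2, 0, 0, 0],
    ![0, 1, 0, 0],
    ![0, 2, 2, 0],
    ![0, 9, 0, 0],
    ![8, 4, 0, 0],
    ![0, 1, 0, 0],
    ![3, 11, 0, 0],
    ![6, 4, 0, 0],
    ![2, 5, 0, 0],
    ![12, 1, 0, 0],
    ![0, 7, 0, 0],
    ![8, 9, 0, 0],
    ![10, 1, 0, 3],
    ![6, 11, 0, 0],
    ![14, 5, 0, 0],
    ![13, 7, 0, 2]]

lemma table (i : Fin 24) (k : Fin 4) :
    M3.mul (Wi i) (refl k) = M3.mul (tm (tx i k)) (Wi (jx i k)) := by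
  revert i k; decide +kernel

/-- powers of matrices -/
def powM (A : M3) : ℕ → M3
  | 0 => M3.one
  | n + 1 => M3.mul A (powM A n)

/-- matrix of a word in the half twists -/
def wordM : List (Fin 4 × ℕ) → M3
  | [] => M3.one
  | p :: l => M3.mul (powM (RM p.1) p.2) (wordM l)

/-- element of a word in the half twists -/
noncomputable def wordG : List (Fin 4 × ℕ) → ((Fin 3 → ℂ) ≃ₗ[ℂ] (Fin 3 → ℂ))
  | [] => 1
  | p :: l => halfTwist p.1 ^ p.2 * wordG l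

lemma halfTwist_mem (i : Fin 4) : halfTwist i ∈ DeltaFull :=
  Subgroup.subset_closure ⟨i, rfl⟩

lemma rep_pow (i : Fin 4) (n : ℕ) : Rep (halfTwist i ^ n) (powM (RM i) n) := by
  induction n with
  | zero => exact Rep.one
  | succ n ih => rw [pow_succ']; exact (rep_halfTwist i).mul ih

lemma rep_word (l : List (Fin 4 × ℕ)) : Rep (wordG l) (wordM l) := by
  induction l with
  | nil => exact Rep.one
  | cons p l ih => exact (rep_pow p.1 p.2).mul ih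

lemma wordG_mem (l : List (Fin 4 × ℕ)) : wordG l ∈ DeltaFull := by
  induction l with
  | nil => exact one_mem _
  | cons p l ih => exact mul_mem (pow_mem (halfTwist_mem _) _) ih

/-- `h` is a lattice element acting on the adapted coordinates by `A` -/
def Tw (h : (Fin 3 → ℂ) ≃ₗ[ℂ] (Fin 3 → ℂ)) (A : M3) : Prop :=
  h ∈ DeltaFull ∧ ∀ v, h (M3.act z1 BB v) = M3.act z1 BB (M3.act z1 A v)

lemma Tw.mul {g h : (Fin 3 → ℂ) ≃ₗ[ℂ] (Fin 3 → ℂ)} {A B : M3} (hg : Tw g A) (hh : Tw h B) :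
    Tw (g * h) (M3.mul A B) := by
  refine ⟨mul_mem hg.1 hh.1, fun v => ?_⟩
  rw [LinearEquiv.mul_apply, hh.2, hg.2, M3.act_mul cyc1]

lemma Tw.inv {g : (Fin 3 → ℂ) ≃ₗ[ℂ] (Fin 3 → ℂ)} {A B : M3} (hg : Tw g A)
    (h : M3.mul A B = M3.one) : Tw g⁻¹ B := by
  refine ⟨inv_mem hg.1, fun v => ?_⟩
  have h1 : g (M3.act z1 BB (M3.act z1 B v)) = M3.act z1 BB v := by
    rw [hg.2, ← M3.act_mul cyc1 A B, h, M3.act_one]
  calc g⁻¹ (M3.act z1 BB v) = g⁻¹ (g (M3.act z1 BB (M3.act z1 B v))) := by rw [h1]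
    _ = M3.act z1 BB (M3.act z1 B v) := by rw [← LinearEquiv.mul_apply, inv_mul_cancel]; rfl

lemma Tw.of_word (l : List (Fin 4 × ℕ)) (A : M3) (h : M3.mul (wordM l) BB = M3.mul BB A) :
    Tw (wordG l) A := by
  refine ⟨wordG_mem l, fun v => ?_⟩
  rw [rep_word l, ← M3.act_mul cyc1, h, M3.act_mul cyc1]

lemma ex_tm (n : Fin 15) : ∃ h, Tw h (tm n) := by
  have e0 : ∃ h, Tw h (tm 0) := ⟨1, one_mem _, fun v => by
    have : tm 0 = M3.one := by decide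
    rw [this, M3.act_one]; rfl⟩
  have e1 : ∃ h, Tw h (tm 1) := ⟨_, Tw.of_word
    [(3, 3), (2, 3), (3, 4), (0, 4), (1, 8), (2, 9), (3, 9)] _ (by decide +kernel)⟩
  have e2 : ∃ h, Tw h (tm 2) := ⟨_, Tw.of_word
    [(2, 7), (3, 9), (0, 8), (1, 1), (0, 1), (2, 1), (1, 9), (3, 9)] _ (by decide +kernel)⟩
  have e5 : ∃ h, Tw h (tm 5) := ⟨_, Tw.of_word
    [(0, 6), (1, 2), (2, 8), (3, 2), (0, 2), (2, 4),
      (0, 1), (1, 1), (2, 1), (3, 2), (2, 1), (1, 1), (0, 1),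
      (0, 1), (1, 1), (2, 1), (3, 2), (2, 1), (1, 1), (0, 1)] _ (by decide +kernel)⟩
  have e6 : ∃ h, Tw h (tm 6) := ⟨_, Tw.of_word
    [(2, 7), (1, 9), (2, 8), (1, 8), (0, 7), (1, 1), (3, 2), (2, 4),
      (0, 1), (1, 1), (2, 1), (3, 2), (2, 1), (1, 1), (0, 1),
      (0, 1), (1, 1), (2, 1), (3, 2), (2, 1), (1, 1), (0, 1),
      (0, 1), (1, 1), (2, 1), (3, 2), (2, 1), (1, 1), (0, 1)] _ (by decide +kernel)⟩
  have e10 : ∃ h, Tw h (tm 10) := ⟨_, Tw.of_word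
    [(3, 2), (2, 8), (1, 6), (2, 1), (0, 7), (1, 9), (0, 3),
      (0, 1), (1, 1), (2, 1), (3, 2), (2, 1), (1, 1), (0, 1),
      (0, 1), (1, 1), (2, 1), (3, 2), (2, 1), (1, 1), (0, 1),
      (0, 1), (1, 1), (2, 1), (3, 2), (2, 1), (1, 1), (0, 1)] _ (by decide +kernel)⟩
  have hinv : ∀ m n : Fin 15, M3.mul (tm m) (tm n) = M3.one → (∃ h, Tw h (tm m)) →
      ∃ h, Tw h (tm n) := fun m n h hm => by
    obtain ⟨g, hg⟩ := hm
    exact ⟨g⁻¹, hg.inv h⟩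
  have hmul : ∀ m n k : Fin 15, M3.mul (tm m) (tm n) = tm k → (∃ h, Tw h (tm m)) →
      (∃ h, Tw h (tm n)) → ∃ h, Tw h (tm k) := fun m n k h hm hn => by
    obtain ⟨g, hg⟩ := hm
    obtain ⟨g', hg'⟩ := hn
    exact ⟨g * g', h ▸ hg.mul hg'⟩
  have e4 := hinv 1 4 (by decide +kernel) e1
  have e3 := hinv 2 3 (by decide +kernel) e2
  have e9 := hinv 5 9 (by decide +kernel) e5
  have e8 := hinv 6 8 (by decide +kernel) e6
  have e12 := hinv 10 12 (by decide +kernel) e10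
  have e11 := hmul 3 5 11 (by decide +kernel) e3 e5
  have e7 := hinv 11 7 (by decide +kernel) e11
  have e13 := hmul 2 10 13 (by decide +kernel) e2 e10
  have e14 := hinv 13 14 (by decide +kernel) e13
  fin_cases n
  · exact e0
  · exact e1
  · exact e2
  · exact e3
  · exact e4
  · exact e5
  · exact e6
  · exact e7
  · exact e8
  · exact e9
  · exact e10
  · exact e11
  · exact e12
  · exact e13
  · exact e14

/-- matrices that are real in the adapted coordinates -/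
def RealM (A : M3) : Prop :=
  A.m00.conj = A.m00 ∧ A.m01.conj = -A.m01 ∧ A.m02.conj = A.m02 ∧
  A.m10.conj = -A.m10 ∧ A.m11.conj = A.m11 ∧ A.m12.conj = -A.m12 ∧
  A.m20.conj = A.m20 ∧ A.m21.conj = -A.m21 ∧ A.m22.conj = A.m22

instance (A : M3) : Decidable (RealM A) := by unfold RealM; infer_instance

/-- adapted coordinates of a point of the real form -/
noncomputable def emb (y : Fin 3 → ℝ) : Fin 3 → ℂ := ![(y 0 : ℂ), tz * y 1, (y 2 : ℂ)]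

lemma wmap_emb (y : Fin 3 → ℝ) : wmap y = M3.act z1 BB (emb y) := rfl

lemma tz_im_ne : tz.im ≠ 0 := by
  intro h
  exact tz_ne (Complex.ext tz_re h)

lemma exists_emb (v : Fin 3 → ℂ) (h0 : conj (v 0) = v 0) (h1 : conj (v 1) = -v 1)
    (h2 : conj (v 2) = v 2) : ∃ y, v = emb y := by
  refine ⟨![(v 0).re, (v 1).im / tz.im, (v 2).re], ?_⟩
  have hz := tz_im_ne
  have hr := tz_re
  have h0' := Complex.conj_eq_iff_im.1 h0
  have h2' := Complex.conj_eq_iff_im.1 h2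
  have h1' : (v 1).re = 0 := by
    have := congrArg Complex.re h1
    simp only [Complex.conj_re, Complex.neg_re] at this
    linarith
  ext j
  fin_cases j
  · simp only [emb, Fin.zero_eta, Matrix.cons_val_zero]
    exact Complex.ext (by simp) (by simp [h0'])
  · simp only [emb, Fin.mk_one, Matrix.cons_val_one, Matrix.cons_val_zero]
    apply Complex.ext
    · rw [Complex.mul_re, Complex.ofReal_re, Complex.ofReal_im, hr, h1']; ring
    · rw [Complex.mul_im, Complex.ofReal_re, Complex.ofReal_im, hr]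
      field_simp; ring
  · simp only [emb, Fin.reduceFinMk, Matrix.cons_val]
    exact Complex.ext (by simp) (by simp [h2'])

lemma exists_act_emb {A : M3} (hA : RealM A) (y : Fin 3 → ℝ) :
    ∃ y', M3.act z1 A (emb y) = emb y' := by
  obtain ⟨a00, a01, a02, a10, a11, a12, a20, a21, a22⟩ := hA
  have c := fun x => conj_ev cyc1 conj_z1 x
  apply exists_emb <;>
    simp only [M3.act, emb, Matrix.cons_val_zero, Matrix.cons_val_one, Matrix.cons_val, map_add,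
      map_mul, c, a00, a01, a02, a10, a11, a12, a20, a21, a22, Z5.ev_neg, conj_tz,
      Complex.conj_ofReal] <;> ring

lemma realM_tm (n : Fin 15) : RealM (tm n) := by
  revert n; decide +kernel

/-- the stabiliser of a real form -/
def stab (W : Submodule ℝ (Fin 3 → ℂ)) : Subgroup ((Fin 3 → ℂ) ≃ₗ[ℂ] (Fin 3 → ℂ)) where
  carrier := {g | ∀ w, g w ∈ W ↔ w ∈ W}
  mul_mem' {a b} ha hb := fun w => by
    rw [LinearEquiv.mul_apply]; exact (ha _).trans (hb w)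
  one_mem' := fun w => Iff.rfl
  inv_mem' {a} ha := fun w => by
    rw [← ha (a⁻¹ w), ← LinearEquiv.mul_apply, mul_inv_cancel]; rfl

lemma Tw.mem_stab {h : (Fin 3 → ℂ) ≃ₗ[ℂ] (Fin 3 → ℂ)} {A B : M3} (hh : Tw h A)
    (hAB : M3.mul A B = M3.one) (hA : RealM A) (hB : RealM B) : h ∈ stab WW := by
  have key : ∀ {h : (Fin 3 → ℂ) ≃ₗ[ℂ] (Fin 3 → ℂ)} {A : M3}, Tw h A → RealM A →
      ∀ w ∈ WW, h w ∈ WW := by
    rintro h A hh hA _ ⟨y, rfl⟩
    obtain ⟨y', hy'⟩ := exists_act_emb hA y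
    rw [wmap_emb, hh.2, hy', ← wmap_emb]
    exact wmap_mem _
  intro w
  refine ⟨fun hw => ?_, key hh hA w⟩
  have := key (hh.inv hAB) hB _ hw
  rw [← LinearEquiv.mul_apply, inv_mul_cancel] at this
  exact this

/-- inverse indices -/
def ti : Fin 15 → Fin 15 := ![0, 4, 3, 2, 1, 9, 8, 11, 6, 5, 12, 7, 10, 14, 13]

lemma tm_ti (n : Fin 15) : M3.mul (tm n) (tm (ti n)) = M3.one := by
  revert n; decide +kernel

/-- the stabiliser of the real form in the full lattice -/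
noncomputable def FF : Subgroup ((Fin 3 → ℂ) ≃ₗ[ℂ] (Fin 3 → ℂ)) := DeltaFull ⊓ stab WW

lemma ex_tm_FF (n : Fin 15) :
    ∃ h ∈ FF, ∀ v, h (M3.act z1 BB v) = M3.act z1 BB (M3.act z1 (tm n) v) := by
  obtain ⟨h, hh⟩ := ex_tm n
  exact ⟨h, ⟨hh.1, hh.mem_stab (tm_ti n) (realM_tm n) (realM_tm (ti n))⟩, hh.2⟩


/-! ### the descent -/

/-- the four reflections in real coordinates -/
noncomputable def rho : Fin 4 → (Fin 3 → ℝ) → (Fin 3 → ℝ) :=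
  ![fun y => ![-y 0, y 1, y 2],
    fun y => ![y 0, -y 1, y 2],
    fun y => ![-Real.goldenRatio * y 0 + Real.goldenRatio * y 2, y 1,
      -y 0 + Real.goldenRatio * y 2],
    fun y => ![y 0, -(1 + Real.goldenRatio) * y 1 + Real.goldenRatio * y 2,
      -(2 + Real.goldenRatio) * y 1 + (1 + Real.goldenRatio) * y 2]]

lemma qf_rho (k : Fin 4) (y : Fin 3 → ℝ) : qf (rho k y) = qf y := by
  have hg : Real.goldenRatio ^ 2 = Real.goldenRatio + 1 := Real.goldenRatio_sq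
  unfold qf rho
  generalize Real.goldenRatio = g at *
  fin_cases k <;> simp
  · linear_combination (y 0 ^ 2 - g * y 2 ^ 2) * hg
  · ring

lemma ev1_neg_one : Z5.ev z1 ⟨-1, 0, 0, 0⟩ = -1 := by simp [Z5.ev]

lemma refl_emb (k : Fin 4) (y : Fin 3 → ℝ) : M3.act z1 (refl k) (emb (rho k y)) = emb y := by
  have hg : phi ^ 2 = phi + 1 := phi_sq
  have ht := tz_mul_self
  have h0 := ev1_neg_one
  have h1 := ev1_ph
  have h2 : Z5.ev z1 ⟨0, 0, 1, 1⟩ = -phi := by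
    rw [← ev1_ph, ← Z5.ev_neg]; exact ev_eq_of_eq (by decide)
  have h3 : Z5.ev z1 ⟨-1, 0, 1, 1⟩ = -(1 + phi) := by
    rw [← ev1_ph, ← Z5.ev_one z1, ← Z5.ev_add, ← Z5.ev_neg]; exact ev_eq_of_eq (by decide)
  have h4 : Z5.ev z1 ⟨1, 0, -1, -1⟩ = 1 + phi := by
    rw [← ev1_ph, ← Z5.ev_one z1, ← Z5.ev_add]; exact ev_eq_of_eq (by decide)
  have h5 : Z5.ev z1 ⟨1, 2, 1, 1⟩ = tz := rfl
  have h6 : Z5.ev z1 ⟨1, 2, 2, 0⟩ = phi * tz := by
    rw [← ev1_ph, tz, ← Z5.ev_mul cyc1]; exact ev_eq_of_eq (by decide)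
  unfold ph at h1
  unfold phi at *
  unfold rho
  generalize Real.goldenRatio = g at *
  fin_cases k <;> ext j <;> fin_cases j <;>
    simp [M3.act, emb, refl, Z5.ev_zero, Z5.ev_one, h0, h1, h2, h3, h4, h5, h6]
  · linear_combination (y 0 : ℂ) * hg
  · linear_combination (y 2 : ℂ) * hg
  · ring
  · linear_combination (-(g + 1) * (y 1 : ℂ) + g * (y 2 : ℂ)) * ht

/-- the fundamental region of the reflection group, in the cone over the plane -/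
def Region (c : Fin 3 → ℝ) : Prop := 0 < c 2 ∧ |c 0| ≤ 2 / 3 * c 2 ∧ |c 1| ≤ 1 / 2 * c 2

/-- the statement proved by descent -/
def Reach (y : Fin 3 → ℝ) : Prop :=
  ∀ i : Fin 24, ∃ h ∈ FF, ∃ j : Fin 24, ∃ c, Region c ∧ qf c = qf y ∧
    M3.act z1 BB (M3.act z1 (Wi i) (emb y)) = h (M3.act z1 BB (M3.act z1 (Wi j) (emb c)))

lemma reach_base {y : Fin 3 → ℝ} (hy : Region y) : Reach y := fun i =>
  ⟨1, one_mem _, i, y, hy, rfl, rfl⟩

lemma reach_step (k : Fin 4) {y : Fin 3 → ℝ} (hy : Reach (rho k y)) : Reach y := by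
  intro i
  obtain ⟨h, hh, j, c, hc, hq, he⟩ := hy (jx i k)
  obtain ⟨t, ht, ht'⟩ := ex_tm_FF (tx i k)
  refine ⟨t * h, mul_mem ht hh, j, c, hc, by rw [hq, qf_rho], ?_⟩
  have h2 := M3.act_mul cyc1 (tm (tx i k)) (Wi (jx i k)) (emb (rho k y))
  rw [LinearEquiv.mul_apply, ← he, ht', ← h2, ← table, M3.act_mul cyc1, refl_emb]

lemma golden_bounds : (8 / 5 : ℝ) < Real.goldenRatio ∧ Real.goldenRatio < 169 / 100 ∧
    Real.goldenRatio < 162 / 100 := by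
  have hg : Real.goldenRatio ^ 2 = Real.goldenRatio + 1 := Real.goldenRatio_sq
  have h0 : 0 < Real.goldenRatio := Real.goldenRatio_pos
  generalize Real.goldenRatio = g at *
  refine ⟨?_, ?_, ?_⟩ <;> nlinarith

lemma reach_of_pow (n : ℕ) : ∀ y : Fin 3 → ℝ, 0 < y 2 → qf y < 0 →
    Real.goldenRatio * y 2 ^ 2 ≤ -qf y * (625 / 576) ^ n → Reach y := by
  obtain ⟨g1, -, g3⟩ := golden_bounds
  induction n with
  | zero =>
    intro y hy hq h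
    apply reach_base
    unfold qf at h
    generalize Real.goldenRatio = g at *
    have e0 : y 0 = 0 := by nlinarith [sq_nonneg (y 0), sq_nonneg (y 1)]
    have e1 : y 1 = 0 := by nlinarith [sq_nonneg (y 0), sq_nonneg (y 1)]
    refine ⟨hy, ?_, ?_⟩
    · rw [e0, abs_zero]; linarith
    · rw [e1, abs_zero]; linarith
  | succ n ih =>
    intro y hy hq h
    -- the two rotations
    have s2 : ∀ y : Fin 3 → ℝ, 0 < y 2 → qf y < 0 →
        Real.goldenRatio * y 2 ^ 2 ≤ -qf y * (625 / 576) ^ (n + 1) → 2 / 3 * y 2 < y 0 →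
        Reach y := by
      intro y hy hq h h0
      apply reach_step 2
      have b1 : y 0 < 13 / 10 * y 2 := by
        unfold qf at hq
        generalize Real.goldenRatio = g at *
        have : y 0 ^ 2 < (13 / 10 * y 2) ^ 2 := by nlinarith [sq_nonneg (y 1), sq_nonneg (y 2)]
        exact lt_of_pow_lt_pow_left₀ 2 (by linarith) this
      have e2 : rho 2 y 2 = -y 0 + Real.goldenRatio * y 2 := rfl
      apply ih
      · rw [e2]; nlinarith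
      · rw [qf_rho]; exact hq
      · rw [qf_rho, e2]
        generalize qf y = q at *
        generalize Real.goldenRatio = g at *
        have c1 : 0 < -y 0 + g * y 2 := by nlinarith
        have c2 : -y 0 + g * y 2 ≤ 24 / 25 * y 2 := by nlinarith
        have c3 : (-y 0 + g * y 2) ^ 2 ≤ (24 / 25 * y 2) ^ 2 := by
          gcongr
        have c4 : g * (-y 0 + g * y 2) ^ 2 ≤ g * (24 / 25 * y 2) ^ 2 :=
          mul_le_mul_of_nonneg_left c3 (by linarith)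
        rw [pow_succ (625 / 576 : ℝ) n] at h
        generalize (625 / 576 : ℝ) ^ n = P at *
        linarith
    have s3 : ∀ y : Fin 3 → ℝ, 0 < y 2 → qf y < 0 →
        Real.goldenRatio * y 2 ^ 2 ≤ -qf y * (625 / 576) ^ (n + 1) → 1 / 2 * y 2 < y 1 →
        Reach y := by
      intro y hy hq h h0
      apply reach_step 3
      have b1 : y 1 < 7 / 10 * y 2 := by
        unfold qf at hq
        generalize Real.goldenRatio = g at *
        have : y 1 ^ 2 < (7 / 10 * y 2) ^ 2 := by nlinarith [sq_nonneg (y 0), sq_nonneg (y 2)]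
        exact lt_of_pow_lt_pow_left₀ 2 (by linarith) this
      have e2 : rho 3 y 2 = -(2 + Real.goldenRatio) * y 1 + (1 + Real.goldenRatio) * y 2 := rfl
      apply ih
      · rw [e2]; nlinarith
      · rw [qf_rho]; exact hq
      · rw [qf_rho, e2]
        generalize qf y = q at *
        generalize Real.goldenRatio = g at *
        have c1 : 0 < -(2 + g) * y 1 + (1 + g) * y 2 := by nlinarith
        have c2 : -(2 + g) * y 1 + (1 + g) * y 2 ≤ 24 / 25 * y 2 := by nlinarith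
        have c3 : (-(2 + g) * y 1 + (1 + g) * y 2) ^ 2 ≤ (24 / 25 * y 2) ^ 2 := by
          gcongr
        have c4 : g * (-(2 + g) * y 1 + (1 + g) * y 2) ^ 2 ≤ g * (24 / 25 * y 2) ^ 2 :=
          mul_le_mul_of_nonneg_left c3 (by linarith)
        rw [pow_succ (625 / 576 : ℝ) n] at h
        generalize (625 / 576 : ℝ) ^ n = P at *
        linarith
    by_cases h0 : |y 0| ≤ 2 / 3 * y 2
    · by_cases h1 : |y 1| ≤ 1 / 2 * y 2
      · exact reach_base ⟨hy, h0, h1⟩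
      · push Not at h1
        rcases le_total 0 (y 1) with h2 | h2
        · rw [abs_of_nonneg h2] at h1
          exact s3 y hy hq h h1
        · rw [abs_of_nonpos h2] at h1
          apply reach_step 1
          exact s3 (rho 1 y) hy (by rw [qf_rho]; exact hq) (by rw [qf_rho]; exact h) h1
    · push Not at h0
      rcases le_total 0 (y 0) with h2 | h2
      · rw [abs_of_nonneg h2] at h0
        exact s2 y hy hq h h0
      · rw [abs_of_nonpos h2] at h0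
        apply reach_step 0
        exact s2 (rho 0 y) hy (by rw [qf_rho]; exact hq) (by rw [qf_rho]; exact h) h0

lemma reach_all (y : Fin 3 → ℝ) (hy : 0 < y 2) (hq : qf y < 0) : Reach y := by
  obtain ⟨n, hn⟩ := pow_unbounded_of_one_lt (Real.goldenRatio * y 2 ^ 2 / -qf y)
    (by norm_num : (1 : ℝ) < 625 / 576)
  refine reach_of_pow n y hy hq ?_
  rw [div_lt_iff₀ (by linarith)] at hn
  linarith


/-! ### cocompactness -/

lemma continuous_act (z : ℂ) (A : M3) : Continuous (M3.act z A) := by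
  apply continuous_pi
  intro j
  fin_cases j <;> simp [M3.act] <;> fun_prop

lemma continuous_emb1 : Continuous (fun p : ℝ × ℝ => emb ![p.1, p.2, 1]) := by
  apply continuous_pi
  intro j
  fin_cases j <;> simp [emb] <;> fun_prop

lemma continuous_herm : Continuous (fun w : Fin 3 → ℂ => (herm w w).re) := by
  unfold herm
  fun_prop

/-- a compact set meeting every orbit -/
noncomputable def KK : Set (Fin 3 → ℂ) :=
  (⋃ j : Fin 24, (fun p : ℝ × ℝ => M3.act z1 BB (M3.act z1 (Wi j) (emb ![p.1, p.2, 1]))) ''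
     (Set.Icc (-(2 / 3)) (2 / 3) ×ˢ Set.Icc (-(1 / 2)) (1 / 2))) ∩
    ((WW : Set (Fin 3 → ℂ)) ∩ {w | (herm w w).re ≤ -1})

lemma isCompact_KK : IsCompact KK := by
  apply IsCompact.inter_right
  · apply isCompact_iUnion
    intro j
    apply IsCompact.image
    · exact isCompact_Icc.prod isCompact_Icc
    · exact (continuous_act z1 BB).comp ((continuous_act z1 (Wi j)).comp continuous_emb1)
  · apply IsClosed.inter
    · exact Submodule.closed_of_finiteDimensional WW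
    · exact isClosed_le continuous_herm continuous_const

lemma act_smul (z : ℂ) (A : M3) (c : ℂ) (v : Fin 3 → ℂ) :
    M3.act z A (c • v) = c • M3.act z A v := by
  ext j
  fin_cases j <;> simp [M3.act] <;> ring

lemma emb_smul (r : ℝ) (y : Fin 3 → ℝ) : emb (r • y) = (r : ℂ) • emb y := by
  ext j
  fin_cases j <;> simp [emb] <;> ring

lemma qf_smul (r : ℝ) (y : Fin 3 → ℝ) : qf (r • y) = r ^ 2 * qf y := by
  simp only [qf, Pi.smul_apply, smul_eq_mul]; ring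

lemma cocompact_FF : ActsCocompactly FF WW := by
  refine ⟨KK, isCompact_KK, ?_, ?_⟩
  · rintro w ⟨-, hw, hw'⟩
    refine ⟨hw, ?_⟩
    have : (herm w w).re ≤ -1 := hw'
    linarith
  · -- first the case of positive last coordinate
    have pos : ∀ y : Fin 3 → ℝ, 0 < y 2 → qf y < 0 →
        ∃ g ∈ FF, ∃ r : ℝ, r ≠ 0 ∧ r • g (wmap y) ∈ KK := by
      intro y hy hq
      obtain ⟨h, hh, j, c, ⟨hc0, hc1, hc2⟩, hqc, he⟩ := reach_all y hy hq 0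
      have hW0 : Wi 0 = M3.one := by decide
      rw [hW0, M3.act_one, ← wmap_emb] at he
      have hinv : h⁻¹ (wmap y) = M3.act z1 BB (M3.act z1 (Wi j) (emb c)) := by
        rw [he, ← LinearEquiv.mul_apply, inv_mul_cancel]; rfl
      refine ⟨h⁻¹, inv_mem hh, (c 2)⁻¹, inv_ne_zero hc0.ne', ?_⟩
      have hherm : (herm ((c 2)⁻¹ • h⁻¹ (wmap y)) ((c 2)⁻¹ • h⁻¹ (wmap y))).re =
          ((c 2)⁻¹) ^ 2 * (4 * qf c) := by
        change (herm ((((c 2)⁻¹ : ℝ) : ℂ) • h⁻¹ (wmap y)) ((((c 2)⁻¹ : ℝ) : ℂ) • h⁻¹ (wmap y))).re = _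
        rw [herm_smul_left, herm_smul_right, herm_full (inv_mem hh.1), Complex.conj_ofReal,
          ← mul_assoc, ← Complex.ofReal_mul, Complex.re_ofReal_mul, herm_wmap_self, hqc]
        ring
      refine ⟨?_, ?_, ?_⟩
      · rw [Set.mem_iUnion]
        refine ⟨j, (c 0 / c 2, c 1 / c 2), ⟨⟨?_, ?_⟩, ⟨?_, ?_⟩⟩, ?_⟩
        · rw [abs_le] at hc1
          rw [le_div_iff₀ hc0]; linarith [hc1.1]
        · rw [abs_le] at hc1
          rw [div_le_iff₀ hc0]; linarith [hc1.2]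
        · rw [abs_le] at hc2
          rw [le_div_iff₀ hc0]; linarith [hc2.1]
        · rw [abs_le] at hc2
          rw [div_le_iff₀ hc0]; linarith [hc2.2]
        · have hc : (![c 0 / c 2, c 1 / c 2, 1] : Fin 3 → ℝ) = (c 2)⁻¹ • c := by
            ext i
            fin_cases i
            · simp [div_eq_inv_mul]
            · simp [div_eq_inv_mul]
            · simp [inv_mul_cancel₀ hc0.ne']
          beta_reduce
          rw [hc, emb_smul, act_smul, act_smul, hinv]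
          rfl
      · exact WW.smul_mem _ ((inv_mem hh).2 _ |>.2 (wmap_mem y))
      · change (herm _ _).re ≤ -1
        rw [hherm]
        obtain ⟨g1, -, -⟩ := golden_bounds
        have hb : qf c ≤ -(1 / 4) * (c 2) ^ 2 := by
          unfold qf
          generalize Real.goldenRatio = g at *
          have a1 : c 0 ^ 2 ≤ (2 / 3 * c 2) ^ 2 := sq_le_sq' (by rw [abs_le] at hc1; linarith [hc1.1]) (by rw [abs_le] at hc1; linarith [hc1.2])
          have a2 : c 1 ^ 2 ≤ (1 / 2 * c 2) ^ 2 := sq_le_sq' (by rw [abs_le] at hc2; linarith [hc2.1]) (by rw [abs_le] at hc2; linarith [hc2.2])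
          nlinarith [mul_le_mul_of_nonneg_left a2 (by linarith : (0 : ℝ) ≤ 2 + g), sq_nonneg (c 2)]
        have hp : 0 < (c 2)⁻¹ ^ 2 := by positivity
        have e : (c 2)⁻¹ ^ 2 * (c 2) ^ 2 = 1 := by
          field_simp
        nlinarith [mul_le_mul_of_nonneg_left hb hp.le]
    rintro _ ⟨y, rfl⟩ hy
    rw [herm_wmap_self] at hy
    have hq : qf y < 0 := by linarith
    have hy2 : y 2 ≠ 0 := by
      intro h0
      unfold qf at hq
      rw [h0] at hq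
      have := Real.goldenRatio_pos
      generalize Real.goldenRatio = g at *
      nlinarith [sq_nonneg (y 0), mul_nonneg (by linarith : (0 : ℝ) ≤ 2 + g) (sq_nonneg (y 1))]
    rcases lt_or_gt_of_ne hy2 with h | h
    · obtain ⟨g, hg, r, hr, hK⟩ := pos (-y) (by simpa using h) (by
        have : qf (-y) = qf y := by simp [qf]
        rw [this]; exact hq)
      refine ⟨g, hg, -r, neg_ne_zero.2 hr, ?_⟩
      have : (-r) • g (wmap y) = r • g (wmap (-y)) := by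
        rw [map_neg, map_neg, neg_smul, smul_neg]
      rw [this]
      exact hK
    · exact pos y h hq

lemma cocompact_of_relIndex {F F' : Subgroup ((Fin 3 → ℂ) ≃ₗ[ℂ] (Fin 3 → ℂ))}
    {W : Submodule ℝ (Fin 3 → ℂ)} (hfin : F'.relIndex F ≠ 0) (hD : F ≤ DeltaFull)
    (hS : F ≤ stab W) (h : ActsCocompactly F W) : ActsCocompactly (F' ⊓ F) W := by
  obtain ⟨K, hK, hK1, hK2⟩ := h
  have hfi : (F'.subgroupOf F).FiniteIndex := ⟨hfin⟩
  have : Finite (F ⧸ F'.subgroupOf F) := Subgroup.finite_quotient_of_finiteIndex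
  refine ⟨⋃ q : F ⧸ F'.subgroupOf F, (fun w => ((q.out : F) : (Fin 3 → ℂ) ≃ₗ[ℂ] (Fin 3 → ℂ))⁻¹ w) '' K,
    ?_, ?_, ?_⟩
  · apply isCompact_iUnion
    intro q
    apply hK.image
    exact LinearMap.continuous_of_finiteDimensional
      (((q.out : F) : (Fin 3 → ℂ) ≃ₗ[ℂ] (Fin 3 → ℂ))⁻¹ : (Fin 3 → ℂ) ≃ₗ[ℂ] (Fin 3 → ℂ)).toLinearMap
  · intro w hw
    rw [Set.mem_iUnion] at hw
    obtain ⟨q, k, hk, rfl⟩ := hw
    have hq : ((q.out : F) : (Fin 3 → ℂ) ≃ₗ[ℂ] (Fin 3 → ℂ))⁻¹ ∈ F := inv_mem (q.out : F).2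
    refine ⟨(hS hq k).2 (hK1 k hk).1, ?_⟩
    beta_reduce
    rw [herm_full (hD hq)]
    exact (hK1 k hk).2
  · intro w hw hw'
    obtain ⟨g, hg, r, hr, hgk⟩ := hK2 w hw hw'
    set q : F ⧸ F'.subgroupOf F := QuotientGroup.mk ⟨g, hg⟩ with hqdef
    have hmem : (q.out : F)⁻¹ * ⟨g, hg⟩ ∈ F'.subgroupOf F := by
      rw [← QuotientGroup.eq, ← hqdef]
      exact Quotient.out_eq q
    rw [Subgroup.mem_subgroupOf] at hmem
    refine ⟨((q.out : F) : (Fin 3 → ℂ) ≃ₗ[ℂ] (Fin 3 → ℂ))⁻¹ * g,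
      Subgroup.mem_inf.2 ⟨hmem, F.mul_mem (F.inv_mem (q.out : F).2) hg⟩, r, hr, ?_⟩
    rw [Set.mem_iUnion]
    refine ⟨q, _, hgk, ?_⟩
    beta_reduce
    rw [LinearEquiv.mul_apply]
    exact (((q.out : F) : (Fin 3 → ℂ) ≃ₗ[ℂ] (Fin 3 → ℂ))⁻¹ : (Fin 3 → ℂ) ≃ₗ[ℂ] (Fin 3 → ℂ)).map_smul_of_tower r (g w)


/-! ### the labelled lattice has finite index -/

/-- products of an element of `H` and an element of the list -/
def prodSet {Q : Type*} [Group Q] (H : Set Q) (l : List Q) : Set Q := {x | ∃ h ∈ H, ∃ u ∈ l, x = h * u}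

lemma prodSet_finite {Q : Type*} [Group Q] {H : Set Q} (hH : H.Finite) (l : List Q) :
    (prodSet H l).Finite := by
  have h2 : {u | u ∈ l}.Finite := List.finite_toSet l
  refine ((hH.prod h2).image (fun p => p.1 * p.2)).subset ?_
  rintro x ⟨h, hh, u, hu, rfl⟩
  exact ⟨(h, u), ⟨hh, hu⟩, rfl⟩

lemma prodSet_stable {Q : Type*} [Group Q] {H : Set Q} {l : List Q} {S' : List Q} {s : Q}
    (hH : ∀ h ∈ H, ∀ s' ∈ S', h * s' ∈ H)
    (hl : ∀ u ∈ l, u * s ∈ l ∨ ∃ s' ∈ S', ∃ u' ∈ l, u * s = s' * u') :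
    ∀ x ∈ prodSet H l, x * s ∈ prodSet H l := by
  rintro x ⟨h, hh, u, hu, rfl⟩
  rcases hl u hu with h1 | ⟨s', hs', u', hu', h1⟩
  · exact ⟨h, hh, u * s, h1, by rw [mul_assoc]⟩
  · exact ⟨h * s', hH h hh s' hs', u', hu', by rw [mul_assoc, h1, mul_assoc]⟩

lemma finite_of_relations {Q : Type*} [Group Q] (a b c d : Q) (haa : a * a = 1) (hbb : b * b = 1)
    (hcc : c * c = 1) (hdd : d * d = 1) (hab : a * b * a = b * a * b) (hbc : b * c * b = c * b * c)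
    (hcd : c * d * c = d * c * d) (hac : a * c = c * a) (had : a * d = d * a)
    (hbd : b * d = d * b) (htop : Subgroup.closure ({a, b, c, d} : Set Q) = ⊤) : Finite Q := by
  have haa' : ∀ x, a * (a * x) = x := fun x => by rw [← mul_assoc, haa, one_mul]
  have hbb' : ∀ x, b * (b * x) = x := fun x => by rw [← mul_assoc, hbb, one_mul]
  have hcc' : ∀ x, c * (c * x) = x := fun x => by rw [← mul_assoc, hcc, one_mul]
  have hdd' : ∀ x, d * (d * x) = x := fun x => by rw [← mul_assoc, hdd, one_mul]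
  have rca : c * a = a * c := hac.symm
  have rca' : ∀ x, c * (a * x) = a * (c * x) := fun x => by rw [← mul_assoc, rca, mul_assoc]
  have rda : d * a = a * d := had.symm
  have rda' : ∀ x, d * (a * x) = a * (d * x) := fun x => by rw [← mul_assoc, rda, mul_assoc]
  have rdb : d * b = b * d := hbd.symm
  have rdb' : ∀ x, d * (b * x) = b * (d * x) := fun x => by rw [← mul_assoc, rdb, mul_assoc]
  have rbab : b * (a * b) = a * (b * a) := by rw [← mul_assoc, ← hab, mul_assoc]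
  have rcbc : c * (b * c) = b * (c * b) := by rw [← mul_assoc, ← hbc, mul_assoc]
  have rdcd : d * (c * d) = c * (d * c) := by rw [← mul_assoc, ← hcd, mul_assoc]
  have rbab' : ∀ x, b * (a * (b * x)) = a * (b * (a * x)) := fun x => by
    have := congrArg (· * x) rbab
    simpa only [mul_assoc] using this
  have rcbc' : ∀ x, c * (b * (c * x)) = b * (c * (b * x)) := fun x => by
    have := congrArg (· * x) rcbc
    simpa only [mul_assoc] using this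
  have rdcd' : ∀ x, d * (c * (d * x)) = c * (d * (c * x)) := fun x => by
    have := congrArg (· * x) rdcd
    simpa only [mul_assoc] using this
  have rcbac : c * (b * (a * c)) = b * (c * (b * a)) := by rw [hac, rcbc']
  have rdcbd : d * (c * (b * d)) = c * (d * (c * b)) := by rw [hbd, rdcd']
  have rdcbad : d * (c * (b * (a * d))) = c * (d * (c * (b * a))) := by
    rw [had, ← rdb', rdcd']
  -- the chain of finite sets
  set H0 : Set Q := {1} with hH0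
  set H1 := prodSet H0 [1, a] with hH1
  set H2 := prodSet H1 [1, b, b * a] with hH2
  set H3 := prodSet H2 [1, c, c * b, c * (b * a)] with hH3
  set H4 := prodSet H3 [1, d, d * c, d * (c * b), d * (c * (b * a))] with hH4
  have s1 : ∀ h ∈ H1, ∀ s ∈ [a], h * s ∈ H1 := by
    intro h hh s hs
    simp only [List.mem_singleton] at hs
    subst hs
    refine prodSet_stable (S' := []) (by simp) ?_ h hh
    simp [haa]
  have s2 : ∀ h ∈ H2, ∀ s ∈ [a, b], h * s ∈ H2 := by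
    intro h hh s hs
    refine prodSet_stable (S' := [a]) s1 ?_ h hh
    simp only [List.mem_cons, List.not_mem_nil, or_false] at hs ⊢
    rcases hs with rfl | rfl <;> rintro u (rfl | rfl | rfl) <;>
      simp [mul_assoc, haa, hbb, haa', hbb', rbab]
  have s3 : ∀ h ∈ H3, ∀ s ∈ [a, b, c], h * s ∈ H3 := by
    intro h hh s hs
    refine prodSet_stable (S' := [a, b]) s2 ?_ h hh
    simp only [List.mem_cons, List.not_mem_nil, or_false] at hs ⊢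
    rcases hs with rfl | rfl | rfl <;> rintro u (rfl | rfl | rfl | rfl) <;>
      simp [mul_assoc, haa, hbb, hcc, haa', hbb', hcc', rbab, rca, rca', rcbc, rcbac]
  have s4 : ∀ h ∈ H4, ∀ s ∈ [a, b, c, d], h * s ∈ H4 := by
    intro h hh s hs
    refine prodSet_stable (S' := [a, b, c]) s3 ?_ h hh
    simp only [List.mem_cons, List.not_mem_nil, or_false] at hs ⊢
    rcases hs with rfl | rfl | rfl | rfl <;> rintro u (rfl | rfl | rfl | rfl | rfl) <;>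
      simp [mul_assoc, haa, hbb, hcc, hdd, haa', hbb', hcc', hdd', rbab, rca, rca', rcbc, rcbac,
        rda, rda', rdb, rdb', rdcd, rdcd', rdcbd, rdcbad]
  have hfin : H4.Finite := by
    rw [hH4]
    apply prodSet_finite
    rw [hH3]
    apply prodSet_finite
    rw [hH2]
    apply prodSet_finite
    rw [hH1]
    apply prodSet_finite
    exact Set.finite_singleton 1
  have hone : (1 : Q) ∈ H4 := by
    refine ⟨1, ⟨1, ⟨1, ⟨1, rfl, 1, ?_, ?_⟩, 1, ?_, ?_⟩, 1, ?_, ?_⟩, 1, ?_, ?_⟩ <;> simp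
  have hall : ∀ x : Q, x ∈ H4 := by
    intro x
    have hx : x ∈ Subgroup.closure ({a, b, c, d} : Set Q) := htop ▸ Subgroup.mem_top x
    induction hx using Subgroup.closure_induction_right with
    | one => exact hone
    | mul_right x _ y hy ih =>
      refine s4 x ih y ?_
      simpa using hy
    | mul_inv_cancel x _ y hy ih =>
      have hy2 : y⁻¹ = y := by
        rw [inv_eq_iff_mul_eq_one]
        simp only [Set.mem_insert_iff, Set.mem_singleton_iff] at hy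
        rcases hy with rfl | rfl | rfl | rfl
        · exact haa
        · exact hbb
        · exact hcc
        · exact hdd
      rw [hy2]
      refine s4 x ih y ?_
      simpa using hy
  exact Set.finite_univ_iff.1 (hfin.subset fun x _ => hall x)

lemma pure_le_full : DeltaPure ≤ DeltaFull := by
  unfold DeltaPure
  rw [Subgroup.closure_le]
  rintro g ⟨h, hh, i, rfl⟩
  exact mul_mem (mul_mem hh (pow_mem (halfTwist_mem i) 2)) (inv_mem hh)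

lemma pure_conj {g n : (Fin 3 → ℂ) ≃ₗ[ℂ] (Fin 3 → ℂ)} (hg : g ∈ DeltaFull)
    (hn : n ∈ DeltaPure) : g * n * g⁻¹ ∈ DeltaPure := by
  unfold DeltaPure at hn
  induction hn using Subgroup.closure_induction with
  | mem x hx =>
    obtain ⟨h, hh, i, rfl⟩ := hx
    refine Subgroup.subset_closure ⟨g * h, mul_mem hg hh, i, ?_⟩
    group
  | one => rw [mul_one, mul_inv_cancel]; exact one_mem _
  | mul x y _ _ hx hy =>
    have : g * (x * y) * g⁻¹ = (g * x * g⁻¹) * (g * y * g⁻¹) := by group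
    rw [this]; exact mul_mem hx hy
  | inv x _ hx =>
    have : g * x⁻¹ * g⁻¹ = (g * x * g⁻¹)⁻¹ := by group
    rw [this]; exact inv_mem hx

instance : (DeltaPure.subgroupOf DeltaFull).Normal where
  conj_mem n hn g := by
    rw [Subgroup.mem_subgroupOf] at hn ⊢
    exact pure_conj g.2 hn

lemma sq_mem_pure (i : Fin 4) : halfTwist i * halfTwist i ∈ DeltaPure := by
  refine Subgroup.subset_closure ⟨1, one_mem _, i, ?_⟩
  rw [inv_one, mul_one, one_mul, pow_two]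

lemma Rep.eq {g h : (Fin 3 → ℂ) ≃ₗ[ℂ] (Fin 3 → ℂ)} {G : M3} (hg : Rep g G) (hh : Rep h G) :
    g = h := by
  apply LinearEquiv.ext
  intro x
  rw [hg, hh]

/-- the braid relations -/
lemma braid_rel (i j : Fin 4) (h : M3.mul (M3.mul (RM i) (RM j)) (RM i) =
    M3.mul (M3.mul (RM j) (RM i)) (RM j)) :
    halfTwist i * halfTwist j * halfTwist i = halfTwist j * halfTwist i * halfTwist j :=
  Rep.eq (((rep_halfTwist i).mul (rep_halfTwist j)).mul (rep_halfTwist i))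
    (h ▸ (((rep_halfTwist j).mul (rep_halfTwist i)).mul (rep_halfTwist j)))

lemma comm_rel (i j : Fin 4) (h : M3.mul (RM i) (RM j) = M3.mul (RM j) (RM i)) :
    halfTwist i * halfTwist j = halfTwist j * halfTwist i :=
  Rep.eq ((rep_halfTwist i).mul (rep_halfTwist j)) (h ▸ (rep_halfTwist j).mul (rep_halfTwist i))

lemma braid01 : halfTwist 0 * halfTwist 1 * halfTwist 0 = halfTwist 1 * halfTwist 0 * halfTwist 1 :=
  braid_rel 0 1 (by decide +kernel)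
lemma braid12 : halfTwist 1 * halfTwist 2 * halfTwist 1 = halfTwist 2 * halfTwist 1 * halfTwist 2 :=
  braid_rel 1 2 (by decide +kernel)
lemma braid23 : halfTwist 2 * halfTwist 3 * halfTwist 2 = halfTwist 3 * halfTwist 2 * halfTwist 3 :=
  braid_rel 2 3 (by decide +kernel)
lemma comm02 : halfTwist 0 * halfTwist 2 = halfTwist 2 * halfTwist 0 :=
  comm_rel 0 2 (by decide +kernel)
lemma comm03 : halfTwist 0 * halfTwist 3 = halfTwist 3 * halfTwist 0 :=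
  comm_rel 0 3 (by decide +kernel)
lemma comm13 : halfTwist 1 * halfTwist 3 = halfTwist 3 * halfTwist 1 :=
  comm_rel 1 3 (by decide +kernel)

/-- the labelled lattice has finite index in the unlabelled lattice -/
theorem relIndex_pure : DeltaPure.relIndex DeltaFull ≠ 0 := by
  set N := DeltaPure.subgroupOf DeltaFull with hN
  set q : DeltaFull →* DeltaFull ⧸ N := QuotientGroup.mk' N with hq
  set t : Fin 4 → DeltaFull := fun i => ⟨halfTwist i, halfTwist_mem i⟩ with ht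
  have hsq : ∀ i, q (t i) * q (t i) = 1 := by
    intro i
    rw [← map_mul]
    exact (QuotientGroup.eq_one_iff _).2 (by
      rw [hN, Subgroup.mem_subgroupOf]; exact sq_mem_pure i)
  have hbr : ∀ i j, halfTwist i * halfTwist j * halfTwist i =
      halfTwist j * halfTwist i * halfTwist j →
      q (t i) * q (t j) * q (t i) = q (t j) * q (t i) * q (t j) := by
    intro i j h
    simp only [← map_mul]
    exact congrArg q (Subtype.ext h)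
  have hcm : ∀ i j, halfTwist i * halfTwist j = halfTwist j * halfTwist i →
      q (t i) * q (t j) = q (t j) * q (t i) := by
    intro i j h
    simp only [← map_mul]
    exact congrArg q (Subtype.ext h)
  have htop : Subgroup.closure ({q (t 0), q (t 1), q (t 2), q (t 3)} : Set (DeltaFull ⧸ N)) = ⊤ := by
    rw [eq_top_iff]
    rintro x -
    obtain ⟨⟨g, hg⟩, rfl⟩ := QuotientGroup.mk'_surjective N x
    change q ⟨g, hg⟩ ∈ _
    have key : ∀ (g) (hg : g ∈ DeltaFull), q ⟨g, hg⟩ ∈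
        Subgroup.closure ({q (t 0), q (t 1), q (t 2), q (t 3)} : Set (DeltaFull ⧸ N)) := by
      intro g hg
      have hg' := hg
      unfold DeltaFull at hg'
      induction hg' using Subgroup.closure_induction with
      | mem x hx =>
        obtain ⟨i, rfl⟩ := hx
        apply Subgroup.subset_closure
        fin_cases i
        · exact Or.inl rfl
        · exact Or.inr (Or.inl rfl)
        · exact Or.inr (Or.inr (Or.inl rfl))
        · exact Or.inr (Or.inr (Or.inr rfl))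
      | one =>
        have : q ⟨1, hg⟩ = 1 := map_one q
        rw [this]; exact one_mem _
      | mul x y hx hy ihx ihy =>
        have : q ⟨x * y, hg⟩ = q ⟨x, hx⟩ * q ⟨y, hy⟩ := map_mul q ⟨x, hx⟩ ⟨y, hy⟩
        rw [this]; exact mul_mem (ihx hx) (ihy hy)
      | inv x hx ihx =>
        have : q ⟨x⁻¹, hg⟩ = (q ⟨x, hx⟩)⁻¹ := map_inv q ⟨x, hx⟩
        rw [this]; exact inv_mem (ihx hx)
    exact key g hg
  have hfin : Finite (DeltaFull ⧸ N) :=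
    finite_of_relations (q (t 0)) (q (t 1)) (q (t 2)) (q (t 3)) (hsq 0) (hsq 1) (hsq 2) (hsq 3)
      (hbr 0 1 braid01) (hbr 1 2 braid12) (hbr 2 3 braid23) (hcm 0 2 comm02) (hcm 0 3 comm03)
      (hcm 1 3 comm13) htop
  have : N.FiniteIndex := Subgroup.finiteIndex_of_finite_quotient
  exact this.index_ne_zero

theorem cocompact_pure : ActsCocompactly (DeltaPure ⊓ FF) WW := by
  apply cocompact_of_relIndex _ inf_le_left inf_le_right cocompact_FF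
  intro h
  exact relIndex_pure (Subgroup.relIndex_eq_zero_of_le_right inf_le_left h)


/-! ### discreteness -/

lemma hnorm_bound (v : V3) (h : hnorm v = 1) :
    Complex.normSq (Z5.ev z2 v.x) ≤ 10 ∧ Complex.normSq (Z5.ev z2 v.y) ≤ 10 ∧
      Complex.normSq (Z5.ev z2 v.z) ≤ 10 := by
  have hD : Z5.ev z2 (hnorm v) = 1 := by rw [h, Z5.ev_one]
  simp only [hnorm, Z5.ev_add, Z5.ev_sub, Z5.ev_mul cyc2, ← conj_ev cyc2 conj_z2, ev2_ph] at hD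
  generalize Z5.ev z2 v.x = a at *
  generalize Z5.ev z2 v.y = b at *
  generalize Z5.ev z2 v.z = c at *
  obtain ⟨g1, -, g2⟩ := golden_bounds
  unfold phi at hD
  generalize Real.goldenRatio = g at *
  have hD' := congrArg Complex.re hD
  simp only [Complex.add_re, Complex.sub_re, Complex.mul_re, Complex.conj_re, Complex.conj_im,
    Complex.add_im, Complex.sub_im, Complex.mul_im, Complex.ofReal_re, Complex.ofReal_im,
    Complex.one_re, Complex.one_im] at hD'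
  rw [Complex.normSq_apply, Complex.normSq_apply, Complex.normSq_apply]
  have k1 : 0 ≤ (g - 1) * ((7 * a.re + 5 * b.re) ^ 2 + (7 * a.im + 5 * b.im) ^ 2) :=
    mul_nonneg (by linarith) (by positivity)
  have k2 : 0 ≤ (g - 1) * ((7 * c.re + 5 * b.re) ^ 2 + (7 * c.im + 5 * b.im) ^ 2) :=
    mul_nonneg (by linarith) (by positivity)
  have k3 : 0 ≤ (162 / 100 - g) * (a.re ^ 2 + a.im ^ 2) :=
    mul_nonneg (by linarith) (by positivity)
  have k4 : 0 ≤ (162 / 100 - g) * (b.re ^ 2 + b.im ^ 2) :=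
    mul_nonneg (by linarith) (by positivity)
  have k5 : 0 ≤ (162 / 100 - g) * (c.re ^ 2 + c.im ^ 2) :=
    mul_nonneg (by linarith) (by positivity)
  have n1 := sq_nonneg a.re
  have n2 := sq_nonneg a.im
  have n3 := sq_nonneg b.re
  have n4 := sq_nonneg b.im
  have n5 := sq_nonneg c.re
  have n6 := sq_nonneg c.im
  refine ⟨?_, ?_, ?_⟩ <;> nlinarith

lemma coord_le (x : Z5) (M : ℝ) (h1 : Complex.normSq (Z5.ev z1 x) ≤ M)
    (h2 : Complex.normSq (Z5.ev z2 x) ≤ M) :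
    ((x.a : ℝ) ^ 2 ≤ 4 * M ∧ (x.b : ℝ) ^ 2 ≤ 4 * M) ∧ ((x.c : ℝ) ^ 2 ≤ 4 * M ∧
      (x.d : ℝ) ^ 2 ≤ 4 * M) := by
  rw [normSq_ev1] at h1
  rw [normSq_ev2] at h2
  have h3 : (2 * (N0 x : ℝ) + N1 x) ≤ 2 * M := by linarith
  unfold N0 N1 at h3
  push_cast at h3
  generalize (x.a : ℝ) = a at *
  generalize (x.b : ℝ) = b at *
  generalize (x.c : ℝ) = c at *
  generalize (x.d : ℝ) = d at *
  have k1 : (a + b + c + d) ^ 2 ≤ 4 * (a ^ 2 + b ^ 2 + c ^ 2 + d ^ 2) := by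
    nlinarith [sq_nonneg (a - b), sq_nonneg (a - c), sq_nonneg (a - d), sq_nonneg (b - c),
      sq_nonneg (b - d), sq_nonneg (c - d)]
  have k2 : a ^ 2 + b ^ 2 + c ^ 2 + d ^ 2 ≤ 4 * M := by nlinarith
  refine ⟨⟨?_, ?_⟩, ⟨?_, ?_⟩⟩ <;> nlinarith [sq_nonneg a, sq_nonneg b, sq_nonneg c, sq_nonneg d]

/-- the integers of bounded square -/
def smallInts (M : ℝ) : Set ℤ := {n | (n : ℝ) ^ 2 ≤ 4 * M}

lemma smallInts_finite (M : ℝ) : (smallInts M).Finite := by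
  have h : smallInts M ⊆ Set.Icc (-⌈4 * M⌉) ⌈4 * M⌉ := by
    intro n hn
    have hn' : (n : ℝ) ^ 2 ≤ 4 * M := hn
    have h1 : (n : ℝ) ^ 2 ≤ (⌈4 * M⌉ : ℤ) := hn'.trans (Int.le_ceil _)
    have h2 : n ^ 2 ≤ ⌈4 * M⌉ := by exact_mod_cast h1
    constructor <;> nlinarith [sq_nonneg (n - 1), sq_nonneg (n + 1), Int.le_self_sq n,
      Int.le_self_sq (-n)]
  exact (Set.finite_Icc _ _).subset h

/-- elements of `Z5` with small coordinates -/
def smallZ (M : ℝ) : Set Z5 :=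
  {x | (x.a ∈ smallInts M ∧ x.b ∈ smallInts M) ∧ (x.c ∈ smallInts M ∧ x.d ∈ smallInts M)}

lemma smallZ_finite (M : ℝ) : (smallZ M).Finite := by
  have h := ((smallInts_finite M).prod (smallInts_finite M)).prod
    ((smallInts_finite M).prod (smallInts_finite M))
  refine (h.image (fun p => (⟨p.1.1, p.1.2, p.2.1, p.2.2⟩ : Z5))).subset ?_
  rintro x hx
  exact ⟨((x.a, x.b), (x.c, x.d)), hx, rfl⟩

/-- matrices with small entries -/
def smallM (M : ℝ) : Set M3 :=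
  {A | ((A.m00 ∈ smallZ M ∧ A.m10 ∈ smallZ M ∧ A.m20 ∈ smallZ M) ∧
    (A.m01 ∈ smallZ M ∧ A.m11 ∈ smallZ M ∧ A.m21 ∈ smallZ M)) ∧
    (A.m02 ∈ smallZ M ∧ A.m12 ∈ smallZ M ∧ A.m22 ∈ smallZ M)}

lemma smallM_finite (M : ℝ) : (smallM M).Finite := by
  have s := smallZ_finite M
  have c := s.prod (s.prod s)
  refine (((c.prod c).prod c).image (fun p => (⟨p.1.1.1, p.1.2.1, p.2.1, p.1.1.2.1, p.1.2.2.1,
    p.2.2.1, p.1.1.2.2, p.1.2.2.2, p.2.2.2⟩ : M3))).subset ?_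
  rintro A hA
  exact ⟨(((A.m00, A.m10, A.m20), (A.m01, A.m11, A.m21)), (A.m02, A.m12, A.m22)), hA, rfl⟩

lemma discrete_full : IsDiscreteGroup DeltaFull := by
  intro R
  set M : ℝ := max (R ^ 2) 10 with hM
  have hsub : {g : (Fin 3 → ℂ) ≃ₗ[ℂ] (Fin 3 → ℂ) | g ∈ DeltaFull ∧ ∀ x, ‖g x‖ ≤ R * ‖x‖} ⊆
      ⋃ G ∈ smallM M, {g | Rep g G} := by
    rintro g ⟨hg, hR⟩
    obtain ⟨⟨G, hG, hG'⟩, -⟩ := full_rep hg
    have col : ∀ v : V3, hnorm v = 1 → ‖V3.ev z1 v‖ ≤ 1 →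
        (M3.app G v).x ∈ smallZ M ∧ (M3.app G v).y ∈ smallZ M ∧ (M3.app G v).z ∈ smallZ M := by
      intro v hv hv1
      obtain ⟨b0, b1, b2⟩ := hnorm_bound (M3.app G v) (by rw [hG', hv])
      have h1 := hR (V3.ev z1 v)
      rw [hG, M3.act_ev cyc1] at h1
      have hR0 : 0 ≤ R ∨ R < 0 := le_or_gt 0 R
      have h2 : ‖V3.ev z1 (M3.app G v)‖ ≤ |R| := by
        refine h1.trans ?_
        calc R * ‖V3.ev z1 v‖ ≤ |R| * ‖V3.ev z1 v‖ := by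
              gcongr; exact le_abs_self R
          _ ≤ |R| * 1 := by gcongr
          _ = |R| := mul_one _
      have h3 : ∀ j, Complex.normSq (V3.ev z1 (M3.app G v) j) ≤ M := by
        intro j
        have h4 := (norm_le_pi_norm (V3.ev z1 (M3.app G v)) j).trans h2
        rw [Complex.normSq_eq_norm_sq]
        refine le_trans ?_ (le_max_left _ _)
        rw [← sq_abs R]
        gcongr
      have m10 : (10 : ℝ) ≤ M := le_max_right _ _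
      exact ⟨coord_le _ M (h3 0) (b0.trans m10), coord_le _ M (h3 1) (b1.trans m10),
        coord_le _ M (h3 2) (b2.trans m10)⟩
    have n0 : ‖V3.ev z1 ⟨1, 0, 0⟩‖ ≤ 1 := by
      rw [pi_norm_le_iff_of_nonneg zero_le_one]
      intro j; fin_cases j <;> simp [V3.ev, Z5.ev_one, Z5.ev_zero]
    have n1 : ‖V3.ev z1 ⟨0, 1, 0⟩‖ ≤ 1 := by
      rw [pi_norm_le_iff_of_nonneg zero_le_one]
      intro j; fin_cases j <;> simp [V3.ev, Z5.ev_one, Z5.ev_zero]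
    have n2 : ‖V3.ev z1 ⟨0, 0, 1⟩‖ ≤ 1 := by
      rw [pi_norm_le_iff_of_nonneg zero_le_one]
      intro j; fin_cases j <;> simp [V3.ev, Z5.ev_one, Z5.ev_zero]
    have c0 := col ⟨1, 0, 0⟩ (by decide) n0
    have c1 := col ⟨0, 1, 0⟩ (by decide) n1
    have c2 := col ⟨0, 0, 1⟩ (by decide) n2
    simp only [M3.app, mul_one, mul_zero, add_zero, zero_add] at c0 c1 c2
    rw [Set.mem_iUnion₂]
    exact ⟨G, ⟨⟨c0, c1⟩, c2⟩, hG⟩
  refine Set.Finite.subset (Set.Finite.biUnion (smallM_finite M) ?_) hsub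
  intro G _
  refine Set.Subsingleton.finite ?_
  intro g hg h hh
  exact Rep.eq hg hh

lemma IsDiscreteGroup.mono {F F' : Subgroup ((Fin 3 → ℂ) ≃ₗ[ℂ] (Fin 3 → ℂ))} (h : F' ≤ F)
    (hF : IsDiscreteGroup F) : IsDiscreteGroup F' := fun R =>
  (hF R).subset fun _ hg => ⟨h hg.1, hg.2⟩

end Pool.Agent.Results.MP_c41128_gt.FuchsianMissingDivisor
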